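import Pool.Agent.Lib.MP_bdb4fe_an.G3.SZF

/-!
Module CHN (60 min). Consequences of `Chain`.

PROOF. Induction on `t ≤ N`. `sz (G 0) = 2`, `rho A 0 = 1`.
(size) with `y t = sz (G t) / rho A t`: `sz (G (t+1)) ≤ ‖A t‖ sz (G t) + 3 (c/C) ‖A t‖ ρ^(1-2η) sz (G t)`,
so `y (t+1) ≤ y t (1 + 3 (c/C) rho A t ^ (1-2η))`, `y t ≤ 2 exp (3 (c/C) ∑_{j<t} rho A j ^ (1-2η)) ≤
2 exp (3 (c/C) * 2/(1-D)) ≤ 2 exp (6/100) ≤ 3` (`sum_rho_tail` with `S = 0`; `6c/(C(1-D)) ≤ 6 C/100`).
`chain_size_from` is the same from `S` on: `y t ≤ y S * exp (…) ≤ 2 y S`.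
(area) `P t = 4 (t+1) ρ^(-(1-4η)) dd A t`; `P 0 = 4 ≥ ‖wd x y‖`. Step: field `area` with `P = P t` gives
`‖dt A‖ (P t + (5c/C²) 27 ρ³)`, and `135 c/C² ≤ 135/100 ≤ 4`, `ρ³ = ρ^(-(1-4η)) ρ^(4-4η) ≤ ρ^(-(1-4η)) dd A t`,
so `≤ ‖dt A‖ 4 (t+2) ρ_t^(-(1-4η)) dd A t ≤ 4 (t+2) ρ_{t+1}^(-(1-4η)) dd A (t+1)` as `ρ_{t+1} ≤ ρ_t` and
the exponent is negative (`1 - 4η ≥ 1/2 > 0`).
(jac) `jac (G 0) x = 1` (`fderiv id`, `dt id = 1`), `jac (G t) x ≥ dd A t * ∏_{j<t} (1 - c sz (G j)) ≥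
dd A t (1 - ∑ c 3 ρ_j) ≥ dd A t * (1 - 3c/(1-D)) ≥ (97/100) dd A t`: prove by induction
`jac (G t) x ≥ dd A t (1 - 3 c ∑_{j<t} D^j)`.
-/

set_option autoImplicit false

namespace Pool.Agent.Lib.MP_bdb4fe_an.G3

open Filter Topology Metric Set

section
variable {C D η c : ℝ} {f : ℕ → (E ≃ E)} {A : ℕ → (E ≃L[ℂ] E)} {B : ℕ → (E →L[ℂ] E →L[ℂ] E)}
  {ε : ℝ} {N : ℕ} {G : ℕ → (E ≃ E)}

theorem chn_zero_mem (hc : Chain C η c ε f A N G) (t : ℕ) (ht : t ≤ N) :
    IsAut (G t) := by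
  rcases t with _ | t
  · rw [hc.zero]
    exact ⟨differentiable_id, differentiable_id⟩
  · exact (hc.step t (by omega)).aut

theorem chn_C1 (h : Setup C D η c f A B) : C < 1 := lt_of_le_of_lt h.hCD h.hD1

theorem chn_step (h : Setup C D η c f A B) (hc : Chain C η c ε f A N G) (t : ℕ) (ht : t < N) :
    sz (G (t + 1)) ≤ ‖(A t : E →L[ℂ] E)‖ * sz (G t) * (1 + 3 * c / C * rho A t ^ (1 - 2 * η)) := by
  apply sz_le
  intro x hx
  have h1 := (hc.step t ht).size x hx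
  have h2 : ‖G t x‖ ≤ sz (G t) :=
    norm_le_sz _ (chn_zero_mem hc t ht.le).1.continuous x hx
  have h3 : ‖A t (G t x)‖ ≤ ‖(A t : E →L[ℂ] E)‖ * sz (G t) :=
    ((A t : E →L[ℂ] E).le_opNorm (G t x)).trans
      (mul_le_mul_of_nonneg_left h2 (norm_nonneg _))
  have h4 : ‖G (t + 1) x‖ ≤ ‖A t (G t x)‖ + ‖G (t + 1) x - A t (G t x)‖ := by
    have := norm_add_le (A t (G t x)) (G (t + 1) x - A t (G t x))
    rwa [add_sub_cancel] at this
  calc ‖G (t + 1) x‖ ≤ ‖(A t : E →L[ℂ] E)‖ * sz (G t)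
      + 3 * c / C * ‖(A t : E →L[ℂ] E)‖ * rho A t ^ (1 - 2 * η) * sz (G t) := by linarith
    _ = ‖(A t : E →L[ℂ] E)‖ * sz (G t) * (1 + 3 * c / C * rho A t ^ (1 - 2 * η)) := by ring

theorem chn_from (h : Setup C D η c f A B) (hc : Chain C η c ε f A N G) (S n : ℕ)
    (hn : S + n ≤ N) :
    sz (G (S + n)) ≤ sz (G S) * (rho A (S + n) / rho A S) *
      Real.exp (3 * c / C * ∑ j ∈ Finset.range n, rho A (S + j) ^ (1 - 2 * η)) := by
  induction n with
  | zero =>
    have := rho_pos h S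
    simp [div_self this.ne']
  | succ n ih =>
    have hn' : S + n < N := by omega
    have h1 := ih (by omega)
    have h2 := chn_step h hc (S + n) hn'
    have hr := rho_pos h S
    have hrn := rho_pos h (S + n)
    have hc0 := h.hc0
    have hC := h.hC0
    have hk : 0 ≤ 3 * c / C := by positivity
    have hp : 0 ≤ rho A (S + n) ^ (1 - 2 * η) := Real.rpow_nonneg hrn.le _
    set a : ℝ := 3 * c / C * rho A (S + n) ^ (1 - 2 * η) with ha
    have ha0 : 0 ≤ a := by positivity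
    have hexp : 1 + a ≤ Real.exp a := by
      have := Real.add_one_le_exp a
      linarith
    have hsum : 3 * c / C * ∑ j ∈ Finset.range (n + 1), rho A (S + j) ^ (1 - 2 * η) =
        3 * c / C * ∑ j ∈ Finset.range n, rho A (S + j) ^ (1 - 2 * η) + a := by
      rw [Finset.sum_range_succ, mul_add]
    rw [hsum, Real.exp_add]
    have hidx : S + (n + 1) = (S + n) + 1 := by omega
    rw [hidx, rho_succ]
    set X : ℝ := Real.exp (3 * c / C * ∑ j ∈ Finset.range n, rho A (S + j) ^ (1 - 2 * η)) with hX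
    have hX0 : 0 ≤ X := (Real.exp_pos _).le
    have hS0 : 0 < sz (G S) := sz_pos _ (chn_zero_mem hc S (by omega)).1.continuous
    have hA0 : 0 ≤ ‖(A (S + n) : E →L[ℂ] E)‖ := norm_nonneg _
    calc sz (G (S + n + 1)) ≤ ‖(A (S + n) : E →L[ℂ] E)‖ * sz (G (S + n)) * (1 + a) := h2
      _ ≤ ‖(A (S + n) : E →L[ℂ] E)‖ * (sz (G S) * (rho A (S + n) / rho A S) * X) *
          Real.exp a := by
        apply mul_le_mul _ hexp (by linarith) (by positivity)
        exact mul_le_mul_of_nonneg_left h1 hA0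
      _ = sz (G S) * (rho A (S + n) * ‖(A (S + n) : E →L[ℂ] E)‖ / rho A S) *
          (X * Real.exp a) := by ring

theorem chn_exp (x : ℝ) (hx : x ≤ 6 / 100) : Real.exp x ≤ 3 / 2 := by
  have h1 : Real.exp x ≤ Real.exp (6 / 100) := Real.exp_le_exp.2 hx
  have h2 : 1 - (6 / 100 : ℝ) ≤ Real.exp (-(6 / 100)) := by
    have := Real.add_one_le_exp (-(6 / 100 : ℝ))
    linarith
  rw [Real.exp_neg] at h2
  have h3 : 0 < Real.exp (6 / 100 : ℝ) := Real.exp_pos _
  have h4 : (1 - 6 / 100) * Real.exp (6 / 100 : ℝ) ≤ 1 := by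
    calc (1 - 6 / 100) * Real.exp (6 / 100 : ℝ) ≤ (Real.exp (6 / 100))⁻¹ * Real.exp (6 / 100) :=
          mul_le_mul_of_nonneg_right h2 h3.le
      _ = 1 := inv_mul_cancel₀ h3.ne'
  linarith

theorem chn_sum (h : Setup C D η c f A B) (S n : ℕ) :
    3 * c / C * ∑ j ∈ Finset.range n, rho A (S + j) ^ (1 - 2 * η) ≤ 6 / 100 := by
  have hc0 := h.hc0
  have hC := h.hC0
  have hC1 := chn_C1 h
  have hD1 := h.hD1
  have h1 := sum_rho_tail h S n
  have hr : rho A S ^ (1 - 2 * η) ≤ 1 := by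
    apply Real.rpow_le_one (rho_pos h S).le (rho_le_one h S)
    have := h.hη8
    linarith
  have hk : 0 ≤ 3 * c / C := by positivity
  have hD : 0 < 1 - D := by linarith
  have h2 : ∑ j ∈ Finset.range n, rho A (S + j) ^ (1 - 2 * η) ≤ 2 / (1 - D) := by
    refine h1.trans ?_
    calc rho A S ^ (1 - 2 * η) * (2 / (1 - D)) ≤ 1 * (2 / (1 - D)) :=
          mul_le_mul_of_nonneg_right hr (by positivity)
      _ = 2 / (1 - D) := one_mul _
  calc 3 * c / C * ∑ j ∈ Finset.range n, rho A (S + j) ^ (1 - 2 * η)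
      ≤ 3 * c / C * (2 / (1 - D)) := mul_le_mul_of_nonneg_left h2 hk
    _ = 6 * c / (C * (1 - D)) := by field_simp; ring
    _ ≤ 6 / 100 := by
      rw [div_le_div_iff₀ (by positivity) (by norm_num)]
      have h3 := h.hc
      have h4 : C ^ 2 * (1 - D) ≤ C * (1 - D) := by
        apply mul_le_mul_of_nonneg_right _ hD.le
        nlinarith
      nlinarith

theorem chain_aut (h : Setup C D η c f A B) (hc : Chain C η c ε f A N G) (t : ℕ) (ht : t ≤ N) :
    IsAut (G t) := chn_zero_mem hc t ht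

theorem chain_size (h : Setup C D η c f A B) (hc : Chain C η c ε f A N G) (t : ℕ) (ht : t ≤ N) :
    sz (G t) ≤ 3 * rho A t := by
  have h1 := chn_from h hc 0 t (by omega)
  have h0 : sz (G 0) ≤ 2 := by
    apply sz_le
    intro x hx
    rw [hc.zero]
    exact hx
  have hs0 : 0 < sz (G 0) := sz_pos _ (chn_zero_mem hc 0 (by omega)).1.continuous
  have h2 := chn_exp _ (chn_sum h 0 t)
  have hr := rho_pos h t
  simp only [Nat.zero_add] at h1 h2
  rw [rho_zero, div_one] at h1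
  calc sz (G t) ≤ sz (G 0) * rho A t *
      Real.exp (3 * c / C * ∑ j ∈ Finset.range t, rho A j ^ (1 - 2 * η)) := h1
    _ ≤ (2 * rho A t) * (3 / 2) := by
      apply mul_le_mul _ h2 (Real.exp_pos _).le (by positivity)
      exact mul_le_mul_of_nonneg_right h0 hr.le
    _ = 3 * rho A t := by ring

theorem chain_size_from (h : Setup C D η c f A B) (hc : Chain C η c ε f A N G) (S t : ℕ)
    (hSt : S ≤ t) (ht : t ≤ N) : sz (G t) ≤ 2 * (rho A t / rho A S) * sz (G S) := by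
  obtain ⟨n, rfl⟩ := Nat.exists_eq_add_of_le hSt
  have h1 := chn_from h hc S n ht
  have h2 := chn_exp _ (chn_sum h S n)
  have hr := rho_pos h (S + n)
  have hrS := rho_pos h S
  have hs0 : 0 < sz (G S) := sz_pos _ (chn_zero_mem hc S (by omega)).1.continuous
  calc sz (G (S + n)) ≤ sz (G S) * (rho A (S + n) / rho A S) *
      Real.exp (3 * c / C * ∑ j ∈ Finset.range n, rho A (S + j) ^ (1 - 2 * η)) := h1
    _ ≤ sz (G S) * (rho A (S + n) / rho A S) * 2 := by
      apply mul_le_mul_of_nonneg_left _ (by positivity)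
      linarith
    _ = 2 * (rho A (S + n) / rho A S) * sz (G S) := by ring

theorem chn_area_step (h : Setup C D η c f A B) (hc : Chain C η c ε f A N G) (t : ℕ)
    (ht : t ≤ N) : 5 * c / C ^ 2 * sz (G t) ^ 3 ≤ 4 * (rho A t ^ (-(1 - 4 * η)) * dd A t) := by
  have hc0 := h.hc0
  have hC := h.hC0
  have hD1 := h.hD1
  have hC1 := chn_C1 h
  have hr := rho_pos h t
  have hs := chain_size h hc t ht
  have hs0 : 0 < sz (G t) := sz_pos _ (chn_zero_mem hc t ht).1.continuous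
  have h3 : sz (G t) ^ 3 ≤ 27 * rho A t ^ 3 := by
    calc sz (G t) ^ 3 ≤ (3 * rho A t) ^ 3 := pow_le_pow_left₀ hs0.le hs 3
      _ = 27 * rho A t ^ 3 := by ring
  have h4 : rho A t ^ 3 ≤ rho A t ^ (-(1 - 4 * η)) * dd A t := by
    have h5 : rho A t ^ 3 = rho A t ^ (-(1 - 4 * η)) * rho A t ^ (4 - 4 * η) := by
      rw [← Real.rpow_add hr, ← Real.rpow_natCast]
      congr 1
      push_cast
      ring
    rw [h5]
    exact mul_le_mul_of_nonneg_left (dd_ge h t) (Real.rpow_nonneg hr.le _)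
  have h6 : 135 * (c / C ^ 2) ≤ 4 := by
    have h7 : c / C ^ 2 ≤ 1 / 100 := by
      rw [div_le_div_iff₀ (by positivity) (by norm_num)]
      have h8 := h.hc
      have h9 : C ^ 2 * (1 - D) ≤ C ^ 2 * 1 := by
        apply mul_le_mul_of_nonneg_left _ (by positivity)
        have := h.hCD
        linarith
      linarith
    linarith
  have hk : 0 ≤ c / C ^ 2 := by positivity
  have hX : 0 ≤ rho A t ^ (-(1 - 4 * η)) * dd A t :=
    mul_nonneg (Real.rpow_nonneg hr.le _) (dd_pos h t).le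
  calc 5 * c / C ^ 2 * sz (G t) ^ 3 = 5 * (c / C ^ 2) * sz (G t) ^ 3 := by ring
    _ ≤ 5 * (c / C ^ 2) * (27 * (rho A t ^ (-(1 - 4 * η)) * dd A t)) := by
      apply mul_le_mul_of_nonneg_left _ (by positivity)
      linarith
    _ = 135 * (c / C ^ 2) * (rho A t ^ (-(1 - 4 * η)) * dd A t) := by ring
    _ ≤ 4 * (rho A t ^ (-(1 - 4 * η)) * dd A t) := mul_le_mul_of_nonneg_right h6 hX

theorem chain_area (h : Setup C D η c f A B) (hc : Chain C η c ε f A N G) (t : ℕ) (ht : t ≤ N)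
    (x y : E) (hx : ‖x‖ ≤ 2) (hy : ‖y‖ ≤ 2) :
    ‖wd (G t x) (G t y)‖ ≤ 4 * ((t : ℝ) + 1) * rho A t ^ (-(1 - 4 * η)) * dd A t := by
  induction t generalizing x y with
  | zero =>
    rw [hc.zero, rho_zero, dd_zero]
    simp only [Equiv.refl_apply, Nat.cast_zero, zero_add, Real.one_rpow, mul_one]
    refine (norm_wd_le x y).trans ?_
    nlinarith [norm_nonneg x, norm_nonneg y]
  | succ t ih =>
    have ht' : t < N := by omega
    have h1 := (hc.step t ht').area (4 * ((t : ℝ) + 1) * rho A t ^ (-(1 - 4 * η)) * dd A t)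
      (fun x y hx hy => ih (by omega) x y hx hy) x y hx hy
    have h2 := chn_area_step h hc t ht'.le
    have hr := rho_pos h t
    have hr1 := rho_pos h (t + 1)
    have hd := dd_pos h t
    have hd1 := dd_pos h (t + 1)
    have h3 : rho A t ^ (-(1 - 4 * η)) ≤ rho A (t + 1) ^ (-(1 - 4 * η)) := by
      apply Real.rpow_le_rpow_of_nonpos hr1 (rho_anti h (Nat.le_succ t))
      have := h.hη8
      linarith
    have hdt : 0 ≤ ‖dt (A t : E →L[ℂ] E)‖ := norm_nonneg _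
    calc ‖wd (G (t + 1) x) (G (t + 1) y)‖
        ≤ ‖dt (A t : E →L[ℂ] E)‖ * (4 * ((t : ℝ) + 1) * rho A t ^ (-(1 - 4 * η)) * dd A t
          + 5 * c / C ^ 2 * sz (G t) ^ 3) := h1
      _ ≤ ‖dt (A t : E →L[ℂ] E)‖ * (4 * ((t : ℝ) + 1) * rho A t ^ (-(1 - 4 * η)) * dd A t
          + 4 * (rho A t ^ (-(1 - 4 * η)) * dd A t)) := by
        apply mul_le_mul_of_nonneg_left _ hdt
        linarith
      _ = 4 * ((t : ℝ) + 2) * rho A t ^ (-(1 - 4 * η)) * (dd A t * ‖dt (A t : E →L[ℂ] E)‖) := by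
        ring
      _ = 4 * ((t : ℝ) + 2) * rho A t ^ (-(1 - 4 * η)) * dd A (t + 1) := by rw [dd_succ]
      _ ≤ 4 * ((t : ℝ) + 2) * rho A (t + 1) ^ (-(1 - 4 * η)) * dd A (t + 1) := by
        apply mul_le_mul_of_nonneg_right _ hd1.le
        apply mul_le_mul_of_nonneg_left h3
        positivity
      _ = 4 * (((t + 1 : ℕ) : ℝ) + 1) * rho A (t + 1) ^ (-(1 - 4 * η)) * dd A (t + 1) := by
        push_cast
        ring

theorem chn_dt_id : dt (ContinuousLinearMap.id ℂ E) = 1 := by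
  simp [dt, wd]

theorem chn_jac (h : Setup C D η c f A B) (hc : Chain C η c ε f A N G) (t : ℕ) (ht : t ≤ N)
    (x : E) (hx : ‖x‖ ≤ 2) :
    dd A t * (1 - 3 * c * ∑ j ∈ Finset.range t, D ^ j) ≤ jac (G t) x := by
  induction t with
  | zero =>
    rw [hc.zero, dd_zero]
    have : jac (Equiv.refl E) x = 1 := by
      rw [jac, Equiv.coe_refl, fderiv_id, chn_dt_id, norm_one]
    rw [this]
    simp
  | succ t ih =>
    have ht' : t < N := by omega
    have h1 := (hc.step t ht').jc x hx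
    have h2 := ih (by omega)
    have hc0 := h.hc0
    have hC := h.hC0
    have hC1 := chn_C1 h
    have hD0 : 0 < D := lt_of_lt_of_le hC h.hCD
    have hD1 := h.hD1
    have hd := dd_pos h t
    have hs : sz (G t) ≤ 3 * D ^ t := by
      have := chain_size h hc t ht'.le
      have := rho_le_pow h t
      linarith
    have hc100 : c ≤ 1 / 100 := by
      have h3 := h.hc
      have h4 : C ^ 2 * (1 - D) ≤ 1 := by
        have : C ^ 2 ≤ 1 := by nlinarith
        nlinarith [sq_nonneg C]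
      linarith
    have hDt : D ^ t ≤ 1 := pow_le_one₀ hD0.le hD1.le
    have hDt0 : 0 < D ^ t := by positivity
    have ha1 : 3 * c * D ^ t ≤ 1 := by nlinarith
    have ha0 : 0 ≤ 3 * c * D ^ t := by positivity
    have hS0 : 0 ≤ 3 * c * ∑ j ∈ Finset.range t, D ^ j := by
      apply mul_nonneg (by positivity)
      exact Finset.sum_nonneg (fun i _ => by positivity)
    have hdt : 0 ≤ ‖dt (A t : E →L[ℂ] E)‖ := norm_nonneg _
    have h5 : 1 - 3 * c * D ^ t ≤ 1 - c * sz (G t) := by nlinarith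
    have hj0 : 0 ≤ jac (G t) x := norm_nonneg _
    rw [Finset.sum_range_succ, dd_succ]
    set s : ℝ := ∑ j ∈ Finset.range t, D ^ j with hsdef
    calc dd A t * ‖dt (A t : E →L[ℂ] E)‖ * (1 - 3 * c * (s + D ^ t))
        ≤ dd A t * ‖dt (A t : E →L[ℂ] E)‖ * ((1 - 3 * c * D ^ t) * (1 - 3 * c * s)) := by
          apply mul_le_mul_of_nonneg_left _ (by positivity)
          nlinarith [mul_nonneg ha0 hS0]
      _ = ‖dt (A t : E →L[ℂ] E)‖ * (1 - 3 * c * D ^ t) * (dd A t * (1 - 3 * c * s)) := by ring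
      _ ≤ ‖dt (A t : E →L[ℂ] E)‖ * (1 - 3 * c * D ^ t) * jac (G t) x := by
          apply mul_le_mul_of_nonneg_left h2
          apply mul_nonneg hdt
          linarith
      _ ≤ ‖dt (A t : E →L[ℂ] E)‖ * (1 - c * sz (G t)) * jac (G t) x := by
          apply mul_le_mul_of_nonneg_right _ hj0
          exact mul_le_mul_of_nonneg_left h5 hdt
      _ ≤ jac (G (t + 1)) x := h1

theorem chain_jac (h : Setup C D η c f A B) (hc : Chain C η c ε f A N G) (t : ℕ) (ht : t ≤ N)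
    (x : E) (hx : ‖x‖ ≤ 2) : 97 / 100 * dd A t ≤ jac (G t) x := by
  have h1 := chn_jac h hc t ht x hx
  have hc0 := h.hc0
  have hC := h.hC0
  have hC1 := chn_C1 h
  have hD0 : 0 < D := lt_of_lt_of_le hC h.hCD
  have hD1 := h.hD1
  have hd := dd_pos h t
  have hgeom : (∑ j ∈ Finset.range t, D ^ j) * (1 - D) ≤ 1 := by
    have h2 := geom_sum_mul_neg D t
    rw [h2]
    have : 0 ≤ D ^ t := by positivity
    linarith
  have hS0 : 0 ≤ ∑ j ∈ Finset.range t, D ^ j := Finset.sum_nonneg (fun i _ => by positivity)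
  have h3 : 3 * c * ∑ j ∈ Finset.range t, D ^ j ≤ 3 / 100 := by
    have h4 := h.hc
    have h5 : C ^ 2 ≤ 1 := by nlinarith
    have h6 : 100 * c * ∑ j ∈ Finset.range t, D ^ j ≤
        C ^ 2 * ((∑ j ∈ Finset.range t, D ^ j) * (1 - D)) := by
      calc 100 * c * ∑ j ∈ Finset.range t, D ^ j
          ≤ C ^ 2 * (1 - D) * ∑ j ∈ Finset.range t, D ^ j := mul_le_mul_of_nonneg_right h4 hS0
        _ = _ := by ring
    have h7 : C ^ 2 * ((∑ j ∈ Finset.range t, D ^ j) * (1 - D)) ≤ 1 := by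
      calc C ^ 2 * ((∑ j ∈ Finset.range t, D ^ j) * (1 - D)) ≤ C ^ 2 * 1 :=
            mul_le_mul_of_nonneg_left hgeom (by positivity)
        _ ≤ 1 := by linarith
    linarith
  nlinarith

end

end Pool.Agent.Lib.MP_bdb4fe_an.G3
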