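import Pool.Agent.Lib.MP_bdb4fe_an.G3.CHN

/-!
Module CNF (75 min). Size of a train, and the consequence of a failed choice of direction.

`run_size`. PROOF. Put `H j = cat A G S n a (S + j)` (so `H 0 = G S`), `δ j = sup_{‖x‖≤2}
‖H j x - lc A S j (G S x)‖`. The field `size` of the step at `t = S + j` and `‖A t‖`:
`‖H (j+1) x - lc (j+1) (G S x)‖ ≤ ‖A t‖ ‖H j x - lc j (G S x)‖ + 3 (c/C) ‖A t‖ rho A t ^ (1-2η) sz (H j)`,
`sz (H j) ≤ 2 (rho A t / rho A S) sz (G S)` (`chain_size_from`). So by induction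
`‖H k x - lc k (G S x)‖ ≤ rho A (S+k) * (6 c/C) (sz (G S) / rho A S) ∑_{j<k} rho A (S+j)^(1-2η)
≤ (rho A (S+k)/rho A S) sz (G S) * rho A S^(1-2η) * (12 c/(C (1-D)))` (`sum_rho_tail`), and
`12 c ≤ C (1-D)`.

`conflict`. PROOF. `lc_split` with `j = k'`, `k+1`: `lc A S (k+1) x = Λ (lc A S k' x)`,
`‖Λ‖ ≤ rho A (S+k+1) / rho A (S+k')`. Let `m = lc A S k' n ≠ 0`, `v = lc A S (k+1) (g x0)`. By `wd_map`
`‖v‖ ‖Λ m‖ = ‖wd (Λ (lc k' (g x0))) (Λ m)‖ = ‖dt Λ‖ ‖wd (lc k' (g x0)) m‖ ≤ ‖dt Λ‖ M ‖m‖ ≤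
M ‖Λ‖ ‖Λ m‖` (`norm_dt_mul_le`), so `‖v‖ ≤ M ‖Λ‖` (`Λ m ≠ 0`). Finally
`C ‖lc k (g x)‖ ≤ ‖A (S+k) (lc k (g x))‖ = ‖lc (k+1) (g x)‖ ≤ ‖v‖`.

`direction`. PROOF. `v = lc A S k (g x0)`, `n = (lc A S k).symm (perp v)`: `wd v (perp v) = ‖v‖²`.
-/

set_option autoImplicit false

namespace Pool.Agent.Lib.MP_bdb4fe_an.G3

open Filter Topology Metric Set

section
variable {C D η c : ℝ} {f : ℕ → (E ≃ E)} {A : ℕ → (E ≃L[ℂ] E)} {B : ℕ → (E →L[ℂ] E →L[ℂ] E)}
  {ε : ℝ}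

theorem cnf_cat_base (G : ℕ → (E ≃ E)) (S : ℕ) (n : E) (a : ℕ → ℂ) : cat A G S n a S = G S := by
  simp [cat]

theorem run_size (h : Setup C D η c f A B) (S k : ℕ) (G : ℕ → (E ≃ E)) (n : E) (a : ℕ → ℂ)
    (hc : Chain C η c ε f A (S + k) (cat A G S n a)) (x : E) (hx : ‖x‖ ≤ 2) :
    ‖cat A G S n a (S + k) x - lc A S k (G S x)‖ ≤
      rho A (S + k) / rho A S * sz (G S) * rho A S ^ (1 - 2 * η) := by
  have hC := h.hC0
  have hc0 := h.hc0
  have hrS := rho_pos h S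
  have hsz : 0 ≤ sz (G S) := by
    have h1 := chain_size_from h hc S S le_rfl (by omega)
    rw [cnf_cat_base, div_self hrS.ne'] at h1
    linarith
  have key : ∀ j, j ≤ k → ‖cat A G S n a (S + j) x - lc A S j (G S x)‖ ≤
      rho A (S + j) * (6 * c / C * (sz (G S) / rho A S)) *
        ∑ i ∈ Finset.range j, rho A (S + i) ^ (1 - 2 * η) := by
    intro j
    induction j with
    | zero =>
      intro _
      rw [add_zero, cnf_cat_base]
      simp [lc]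
    | succ j ih =>
      intro hj
      have h1 := ih (by omega)
      have hst := hc.step (S + j) (by omega)
      have h2 := hst.size x hx
      have h3 := chain_size_from h hc S (S + j) (by omega) (by omega)
      rw [cnf_cat_base] at h3
      have hr := rho_pos h (S + j)
      have hA0 : 0 ≤ ‖(A (S + j) : E →L[ℂ] E)‖ := norm_nonneg _
      have hrr : 0 ≤ rho A (S + j) ^ (1 - 2 * η) := Real.rpow_nonneg hr.le _
      have h4 : ‖A (S + j) (cat A G S n a (S + j) x) - lc A S (j + 1) (G S x)‖ ≤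
          ‖(A (S + j) : E →L[ℂ] E)‖ * ‖cat A G S n a (S + j) x - lc A S j (G S x)‖ := by
        rw [lc_succ, ← map_sub]
        exact (A (S + j) : E →L[ℂ] E).le_opNorm _
      have h5 : ‖cat A G S n a (S + j + 1) x - lc A S (j + 1) (G S x)‖ ≤
          ‖cat A G S n a (S + j + 1) x - A (S + j) (cat A G S n a (S + j) x)‖ +
          ‖A (S + j) (cat A G S n a (S + j) x) - lc A S (j + 1) (G S x)‖ := by
        refine le_trans (le_of_eq ?_) (norm_add_le _ _)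
        congr 1
        abel
      have h6 : 3 * c / C * ‖(A (S + j) : E →L[ℂ] E)‖ * rho A (S + j) ^ (1 - 2 * η) *
          sz (cat A G S n a (S + j)) ≤ 3 * c / C * ‖(A (S + j) : E →L[ℂ] E)‖ *
          rho A (S + j) ^ (1 - 2 * η) * (2 * (rho A (S + j) / rho A S) * sz (G S)) :=
        mul_le_mul_of_nonneg_left h3 (by positivity)
      have h7 := mul_le_mul_of_nonneg_left h1 hA0
      rw [Finset.sum_range_succ, ← add_assoc, rho_succ]
      calc _ ≤ _ := h5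
        _ ≤ 3 * c / C * ‖(A (S + j) : E →L[ℂ] E)‖ *
          rho A (S + j) ^ (1 - 2 * η) * (2 * (rho A (S + j) / rho A S) * sz (G S)) +
          ‖(A (S + j) : E →L[ℂ] E)‖ * (rho A (S + j) * (6 * c / C * (sz (G S) / rho A S)) *
        ∑ i ∈ Finset.range j, rho A (S + i) ^ (1 - 2 * η)) := by
            linarith
        _ = _ := by ring
  have h1 := key k le_rfl
  have h2 := sum_rho_tail h S k
  have hr := rho_pos h (S + k)
  have hD : 0 < 1 - D := by linarith [h.hD1]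
  have h3 : rho A (S + k) * (6 * c / C * (sz (G S) / rho A S)) *
      ∑ i ∈ Finset.range k, rho A (S + i) ^ (1 - 2 * η) ≤
      rho A (S + k) * (6 * c / C * (sz (G S) / rho A S)) *
      (rho A S ^ (1 - 2 * η) * (2 / (1 - D))) :=
    mul_le_mul_of_nonneg_left h2 (by positivity)
  have h4 : 12 * c / (C * (1 - D)) ≤ 1 := by
    rw [div_le_one (by positivity)]
    have h5 := h.hc
    have h6 : C ^ 2 * (1 - D) ≤ C * (1 - D) := by
      apply mul_le_mul_of_nonneg_right _ hD.le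
      nlinarith [h.hCD, h.hD1]
    nlinarith
  have h5 : rho A (S + k) * (6 * c / C * (sz (G S) / rho A S)) *
      (rho A S ^ (1 - 2 * η) * (2 / (1 - D))) =
      (rho A (S + k) / rho A S * sz (G S) * rho A S ^ (1 - 2 * η)) *
        (12 * c / (C * (1 - D))) := by
    field_simp
    ring
  have h6 : 0 ≤ rho A (S + k) / rho A S * sz (G S) * rho A S ^ (1 - 2 * η) := by
    have := Real.rpow_nonneg hrS.le (1 - 2 * η)
    positivity
  calc _ ≤ _ := h1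
    _ ≤ _ := h3
    _ = _ := h5
    _ ≤ _ := mul_le_of_le_one_right h6 h4

theorem conflict (h : Setup C D η c f A B) (S k' k : ℕ) (hk : k' ≤ k) (g : E → E) (n : E)
    (hn : n ≠ 0) (x0 : E) (hx0 : ‖x0‖ ≤ 2)
    (hmax : ∀ x : E, ‖x‖ ≤ 2 → ‖lc A S (k + 1) (g x)‖ ≤ ‖lc A S (k + 1) (g x0)‖)
    (hdir : ‖wd (lc A S (k + 1) (g x0)) (lc A S (k + 1) n)‖ =
      ‖lc A S (k + 1) (g x0)‖ * ‖lc A S (k + 1) n‖) (M : ℝ)
    (hM : ∀ y : E, ‖y‖ ≤ 2 → ‖wd (lc A S k' (g y)) (lc A S k' n)‖ ≤ M * ‖lc A S k' n‖)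
    (x : E) (hx : ‖x‖ ≤ 2) :
    C * ‖lc A S k (g x)‖ ≤ rho A (S + k + 1) / rho A (S + k') * M := by
  obtain ⟨Λ, hΛ, hΛn⟩ := lc_split h S k' (k + 1) (by omega)
  have hm : lc A S k' n ≠ 0 := by
    intro h0
    exact hn ((lc A S k').injective (h0.trans (map_zero _).symm))
  have hm0 : 0 < ‖lc A S k' n‖ := norm_pos_iff.2 hm
  have hΛm : Λ (lc A S k' n) ≠ 0 := by
    intro h0
    exact hm (Λ.injective (h0.trans (map_zero _).symm))
  have hΛm0 : 0 < ‖Λ (lc A S k' n)‖ := norm_pos_iff.2 hΛm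
  have hM0 : 0 ≤ M := by
    have h1 := hM x0 hx0
    have h2 : 0 ≤ M * ‖lc A S k' n‖ := le_trans (norm_nonneg _) h1
    by_contra hneg
    push Not at hneg
    nlinarith
  have h1 : ‖wd (lc A S (k + 1) (g x0)) (lc A S (k + 1) n)‖ =
      ‖dt (Λ : E →L[ℂ] E)‖ * ‖wd (lc A S k' (g x0)) (lc A S k' n)‖ := by
    rw [hΛ, hΛ, ← norm_mul]
    congr 1
    exact wd_map (Λ : E →L[ℂ] E) _ _
  have h2 := norm_dt_mul_le (Λ : E →L[ℂ] E) (lc A S k' n)
  have h3 : ‖lc A S (k + 1) (g x0)‖ * ‖Λ (lc A S k' n)‖ ≤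
      (M * ‖(Λ : E →L[ℂ] E)‖) * ‖Λ (lc A S k' n)‖ := by
    calc _ = ‖wd (lc A S (k + 1) (g x0)) (lc A S (k + 1) n)‖ := by rw [hdir, hΛ n]
      _ = _ := h1
      _ ≤ ‖dt (Λ : E →L[ℂ] E)‖ * (M * ‖lc A S k' n‖) :=
          mul_le_mul_of_nonneg_left (hM x0 hx0) (norm_nonneg _)
      _ = M * (‖dt (Λ : E →L[ℂ] E)‖ * ‖lc A S k' n‖) := by ring
      _ ≤ M * (‖(Λ : E →L[ℂ] E)‖ * ‖(Λ : E →L[ℂ] E) (lc A S k' n)‖) :=
          mul_le_mul_of_nonneg_left h2 hM0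
      _ = _ := by
          rw [← mul_assoc]
          rfl
  have h4 : ‖lc A S (k + 1) (g x0)‖ ≤ M * ‖(Λ : E →L[ℂ] E)‖ := le_of_mul_le_mul_right h3 hΛm0
  calc C * ‖lc A S k (g x)‖ ≤ ‖A (S + k) (lc A S k (g x))‖ := h.low _ _
    _ = ‖lc A S (k + 1) (g x)‖ := by rw [lc_succ]
    _ ≤ ‖lc A S (k + 1) (g x0)‖ := hmax x hx
    _ ≤ M * ‖(Λ : E →L[ℂ] E)‖ := h4
    _ ≤ M * (rho A (S + (k + 1)) / rho A (S + k')) := mul_le_mul_of_nonneg_left hΛn hM0
    _ = _ := by rw [mul_comm, ← add_assoc]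

theorem direction (S k : ℕ) (g : E ≃ E) (hg : Continuous g) :
    ∃ (n x0 : E), n ≠ 0 ∧ ‖x0‖ ≤ 2 ∧
      (∀ x : E, ‖x‖ ≤ 2 → ‖lc A S k (g x)‖ ≤ ‖lc A S k (g x0)‖) ∧
      ‖wd (lc A S k (g x0)) (lc A S k n)‖ = ‖lc A S k (g x0)‖ * ‖lc A S k n‖ := by
  have hcont : Continuous fun x => ‖lc A S k (g x)‖ := ((lc A S k).continuous.comp hg).norm
  obtain ⟨x0, hx0, hmax⟩ := (isCompact_closedBall (0 : E) 2).exists_isMaxOn
    ⟨0, mem_closedBall_self (by norm_num)⟩ hcont.continuousOn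
  have hx0' : ‖x0‖ ≤ 2 := by
    rw [mem_closedBall, dist_zero_right] at hx0
    exact hx0
  have hmax' : ∀ x : E, ‖x‖ ≤ 2 → ‖lc A S k (g x)‖ ≤ ‖lc A S k (g x0)‖ := by
    intro x hx
    apply hmax
    rw [mem_closedBall, dist_zero_right]
    exact hx
  by_cases hv : lc A S k (g x0) = 0
  · refine ⟨EuclideanSpace.single 0 1, x0, ?_, hx0', hmax', ?_⟩
    · intro h0
      have := congrArg (fun e : E => e 0) h0
      simp at this
    · rw [hv]
      simp [wd]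
  · refine ⟨(lc A S k).symm (perp (lc A S k (g x0))), x0, ?_, hx0', hmax', ?_⟩
    · intro h0
      have h1 : perp (lc A S k (g x0)) = 0 := by
        have := congrArg (lc A S k) h0
        rwa [ContinuousLinearEquiv.apply_symm_apply, map_zero] at this
      have h2 := norm_perp (lc A S k (g x0))
      rw [h1, norm_zero] at h2
      exact hv (norm_eq_zero.1 h2.symm)
    · rw [ContinuousLinearEquiv.apply_symm_apply, wd_perp, norm_perp, Complex.norm_real,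
        Real.norm_of_nonneg (by positivity), sq]

end

end Pool.Agent.Lib.MP_bdb4fe_an.G3
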