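import Pool.Agent.Lib.MP_bdb4fe_an.G3.WDG

/-!
Module ERR (60 min). Moving by `v` in the image and pulling back (compare the finished module
`Pool/Agent/Lib/MP_bdb4fe_an/ERR.lean`, same proof in the sup norm).

PROOF. Let `‖x‖ ≤ 5/4`, `u = G x`, `γ s = G.symm (u + s • v)` for `s ∈ [0, 1]`, `γ 0 = x`,
`γ 1 = G.symm (u + v)`. With `p = γ s`, `M = fderiv ℂ G p`, `ξ = γ' s`: `M ξ = v` (chain rule for
`G ∘ G.symm = id`). Then for the basis vectors `b0 = single 0 1`, `b1 = single 1 1`: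
`wd (M b0) v = wd (M b0) (M ξ) = dt M * wd b0 ξ = dt M * ξ 1` and `wd (M b1) v = - dt M * ξ 0`
(`wd_map`). If `‖p‖ ≤ 3/2`, then `wd (M b_i) v` is the derivative at `0` of `ζ ↦ wd (G (p + ζ b_i)) v`,
bounded by `e` on `‖ζ‖ ≤ 1/2` (points of norm `≤ 2`), so `‖wd (M b_i) v‖ ≤ 2 e` by Cauchy
(`Complex.norm_deriv_le_of_forall_mem_sphere_norm_le`). Hence `jac G p * ‖ξ i‖ ≤ 2 e`,
`δ ‖ξ‖ ≤ √2 * 2 e ≤ 3 e < η δ` (if `e = 0` use `0 < η`, which follows from `3 e < η δ`, `e ≥ 0`), so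
`‖ξ‖ < η` as long as `‖γ s‖ ≤ 3/2`. Bootstrap with
`image_norm_le_of_norm_deriv_right_lt_deriv_boundary'` for `s ↦ γ s - x`, barrier `B s = η * s`.
-/

set_option autoImplicit false

namespace Pool.Agent.Lib.MP_bdb4fe_an.G3

open Filter Topology Metric Set

theorem err_dapply {F : ℂ → E} {F' : E} {z : ℂ} (h : HasDerivAt F F' z) (i : Fin 2) :
    HasDerivAt (fun t => F t i) (F' i) z := by
  exact ((EuclideanSpace.proj i : E →L[ℂ] ℂ).hasFDerivAt (x := F z)).comp_hasDerivAt z h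

theorem err_cauchy (G : E → E) (hG : Differentiable ℂ G) (e : ℝ) (v : E)
    (hv : ∀ y : E, ‖y‖ ≤ 2 → ‖wd (G y) v‖ ≤ e) (p : E) (hp : ‖p‖ ≤ 3 / 2) (b : E)
    (hb : ‖b‖ = 1) : ‖wd (fderiv ℂ G p b) v‖ ≤ 2 * e := by
  have hl : ∀ t : ℂ, HasDerivAt (fun t : ℂ => p + t • b) b t := by
    intro t
    have h1 : HasDerivAt (fun t : ℂ => t • b) ((1 : ℂ) • b) t := (hasDerivAt_id t).smul_const b
    rw [one_smul] at h1
    exact h1.const_add p
  have h2 : ∀ t : ℂ, HasDerivAt (fun t : ℂ => G (p + t • b)) (fderiv ℂ G (p + t • b) b) t := by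
    intro t
    exact HasFDerivAt.comp_hasDerivAt t (f := fun t : ℂ => p + t • b)
      (hG (p + t • b)).hasFDerivAt (hl t)
  have h3 : ∀ t : ℂ, HasDerivAt (fun t : ℂ => wd (G (p + t • b)) v)
      (wd (fderiv ℂ G (p + t • b) b) v) t := by
    intro t
    have e0 := (err_dapply (h2 t) 0).mul_const (v 1)
    have e1 := (err_dapply (h2 t) 1).mul_const (v 0)
    exact e0.sub e1
  have h5 : Differentiable ℂ (fun t : ℂ => wd (G (p + t • b)) v) :=
    fun t => (h3 t).differentiableAt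
  have h6 := Complex.norm_deriv_le_of_forall_mem_sphere_norm_le
    (f := fun t : ℂ => wd (G (p + t • b)) v) (c := 0) (R := 1 / 2) (C := e) (by norm_num)
    h5.diffContOnCl (by
      intro z hz
      apply hv
      rw [mem_sphere_zero_iff_norm] at hz
      have h7 : ‖p + z • b‖ ≤ ‖p‖ + ‖z • b‖ := norm_add_le _ _
      rw [norm_smul, hb, hz] at h7
      linarith)
  have h8 := (h3 0).deriv
  rw [zero_smul, add_zero] at h8
  rw [h8] at h6
  linarith

theorem err (G : E ≃ E) (hG : IsAut G) (δ e η : ℝ) (hδ : 0 < δ)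
    (hJ : ∀ x : E, ‖x‖ ≤ 2 → δ ≤ jac G x) (v : E)
    (hv : ∀ y : E, ‖y‖ ≤ 2 → ‖wd (G y) v‖ ≤ e) (he : 3 * e < η * δ) (hη : η ≤ 1 / 4)
    (x : E) (hx : ‖x‖ ≤ 5 / 4) : ‖G.symm (G x + v) - x‖ ≤ η := by
  obtain ⟨hG1, hG2⟩ := hG
  have he0 : 0 ≤ e := (norm_nonneg _).trans (hv x (by linarith))
  have hη0 : 0 < η := by
    by_contra hneg
    push Not at hneg
    have h1 : η * δ ≤ 0 := mul_nonpos_of_nonpos_of_nonneg hneg hδ.le
    linarith
  set u : E := G x with hudef
  let γ : ℝ → E := fun s => G.symm (u + s • v)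
  let ξ : ℝ → E := fun s => fderiv ℂ G.symm (u + s • v) v
  have hline : ∀ s : ℝ, HasDerivAt (fun s : ℝ => u + s • v) v s := by
    intro s
    have h1 : HasDerivAt (fun s : ℝ => s • v) ((1 : ℝ) • v) s := (hasDerivAt_id s).smul_const v
    rw [one_smul] at h1
    exact h1.const_add u
  have hγ : ∀ s : ℝ, HasDerivAt γ (ξ s) s := by
    intro s
    have h2 : HasFDerivAt G.symm (fderiv ℂ G.symm (u + s • v)) (u + s • v) :=
      (hG2 (u + s • v)).hasFDerivAt
    have h3 := h2.restrictScalars ℝ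
    exact HasFDerivAt.comp_hasDerivAt s h3 (hline s)
  have hγc : Continuous γ := continuous_iff_continuousAt.2 (fun s => (hγ s).continuousAt)
  have hξ : ∀ s : ℝ, ‖γ s‖ ≤ 3 / 2 → ‖ξ s‖ < η := by
    intro s hs
    have hGγ : G (γ s) = u + s • v := G.apply_symm_apply _
    have hd : HasFDerivAt G (fderiv ℂ G (γ s)) (γ s) := (hG1 (γ s)).hasFDerivAt
    have h2 : HasFDerivAt G.symm (fderiv ℂ G.symm (u + s • v)) (u + s • v) :=
      (hG2 (u + s • v)).hasFDerivAt
    have h3 : HasFDerivAt (fun z => G (G.symm z))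
        ((fderiv ℂ G (γ s)).comp (fderiv ℂ G.symm (u + s • v))) (u + s • v) :=
      HasFDerivAt.comp (u + s • v) hd h2
    have h4 : HasFDerivAt (fun z => G (G.symm z)) (ContinuousLinearMap.id ℂ E) (u + s • v) := by
      have : (fun z => G (G.symm z)) = id := by
        funext z; simp
      rw [this]
      exact hasFDerivAt_id _
    have h5 := h3.unique h4
    have h6 : fderiv ℂ G (γ s) (ξ s) = v := by
      have := congrArg (fun L : E →L[ℂ] E => L v) h5
      exact this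
    set M := fderiv ℂ G (γ s) with hM
    have hn0 : ‖(EuclideanSpace.single 0 1 : E)‖ = 1 := by simp
    have hn1 : ‖(EuclideanSpace.single 1 1 : E)‖ = 1 := by simp
    have c0 := err_cauchy G hG1 e v hv (γ s) hs _ hn0
    have c1 := err_cauchy G hG1 e v hv (γ s) hs _ hn1
    rw [← hM] at c0 c1
    have w0 : wd (M (EuclideanSpace.single 0 1 : E)) v = dt M * (ξ s) 1 := by
      have h := wd_map M (EuclideanSpace.single 0 1 : E) (ξ s)
      rw [h6] at h
      rw [h]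
      simp [wd]
    have w1 : wd (M (EuclideanSpace.single 1 1 : E)) v = - (dt M * (ξ s) 0) := by
      have h := wd_map M (EuclideanSpace.single 1 1 : E) (ξ s)
      rw [h6] at h
      rw [h]
      simp [wd]
    rw [w0, norm_mul] at c0
    rw [w1, norm_neg, norm_mul] at c1
    have hj : δ ≤ ‖dt M‖ := hJ (γ s) (by linarith)
    have k1 : δ * ‖(ξ s) 1‖ ≤ 2 * e :=
      (mul_le_mul_of_nonneg_right hj (norm_nonneg _)).trans c0
    have k0 : δ * ‖(ξ s) 0‖ ≤ 2 * e :=
      (mul_le_mul_of_nonneg_right hj (norm_nonneg _)).trans c1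
    have hnorm : ‖ξ s‖ ^ 2 = ‖(ξ s) 0‖ ^ 2 + ‖(ξ s) 1‖ ^ 2 := by
      rw [EuclideanSpace.norm_sq_eq, Fin.sum_univ_two]
    have q1 : (δ * ‖(ξ s) 1‖) ^ 2 ≤ (2 * e) ^ 2 := pow_le_pow_left₀ (by positivity) k1 2
    have q0 : (δ * ‖(ξ s) 0‖) ^ 2 ≤ (2 * e) ^ 2 := pow_le_pow_left₀ (by positivity) k0 2
    have q2 : (δ * ‖ξ s‖) ^ 2 ≤ (3 * e) ^ 2 := by
      have : (δ * ‖ξ s‖) ^ 2 = (δ * ‖(ξ s) 0‖) ^ 2 + (δ * ‖(ξ s) 1‖) ^ 2 := by
        rw [mul_pow, hnorm]; ring
      rw [this]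
      nlinarith [sq_nonneg e]
    have q3 : δ * ‖ξ s‖ ≤ 3 * e := by
      exact (le_abs_self _).trans (abs_le_of_sq_le_sq q2 (by positivity))
    by_contra hcon
    push Not at hcon
    have := mul_le_mul_of_nonneg_left hcon hδ.le
    linarith
  have hγ0 : γ 0 = x := by
    show G.symm (u + (0 : ℝ) • v) = x
    rw [zero_smul, add_zero, hudef, Equiv.symm_apply_apply]
  have hfin := image_norm_le_of_norm_deriv_right_lt_deriv_boundary'
    (f := fun s => γ s - x) (f' := ξ) (a := 0) (b := 1) (B := fun s => η * s) (B' := fun _ => η)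
    ((hγc.sub continuous_const).continuousOn)
    (fun s _ => ((hγ s).sub_const x).hasDerivWithinAt)
    (by simp [hγ0])
    ((continuous_const.mul continuous_id).continuousOn)
    (fun s _ => by
      have := (hasDerivAt_id s).const_mul η
      rw [mul_one] at this
      exact this.hasDerivWithinAt)
    (by
      intro s hs heq
      apply hξ
      have h1 : ‖γ s - x‖ ≤ 1 / 4 := by
        have heq' : ‖γ s - x‖ = η * s := heq
        rw [heq']
        have h2 : η * s ≤ η * 1 := mul_le_mul_of_nonneg_left hs.2.le hη0.le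
        linarith
      have h2 : ‖γ s‖ ≤ ‖γ s - x‖ + ‖x‖ := by
        have := norm_add_le (γ s - x) x
        simpa using this
      linarith)
    (right_mem_Icc.2 (zero_le_one : (0 : ℝ) ≤ 1))
  have e1 : γ 1 = G.symm (u + v) := by
    show G.symm (u + (1 : ℝ) • v) = _
    rw [one_smul]
  have hfin' : ‖γ 1 - x‖ ≤ η * 1 := hfin
  rw [mul_one, e1] at hfin'
  exact hfin'

end Pool.Agent.Lib.MP_bdb4fe_an.G3
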