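import Pool.Agent.Lib.MP_bdb4fe_an.G3.CHN
import Pool.Agent.Lib.MP_bdb4fe_an.G3.ERR

/-!
Module COM (60 min). A chain stays close to the true composition, up to a near identity change of
the source.

PROOF. Let `e n x = (up f n).symm (G n x)`, `η' t = ε ρ_t^η`, `s n = ∑_{t<n} η' t ≤ 1/4`.
One step, `n < N`: `τ x = (G n).symm ((f n).symm (G (n+1) x))`, so that
`e (n+1) x = (up f n).symm ((f n).symm (G (n+1) x)) = e n (τ x)`. Apply `err` to the automorphism
`F = (G n).trans (f n)`, `v = G (n+1) x - f n (G n x)`: `τ x = F.symm (F x + v)`. Its Jacobian: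
`jac F z = jac (f n) (G n z) * jac (G n) z ≥ ‖dt (A n)‖ (1 - c‖G n z‖) * (97/100) dd A n
≥ (1/2) dd A (n+1)` (chain rule, `dt_comp`; `‖G n z‖ ≤ 3`, `3c ≤ 3/100`), `‖wd (F y) v‖ ≤ (ε/7) ρ^η dd A (n+1)`
by `e1`, and `3 (ε/7) < (1/2) ε`. So `‖τ x - x‖ ≤ η' n` for `‖x‖ ≤ 5/4`. In the same way
`τ' x = (G (n+1)).symm (f n (G n x)) = (G (n+1)).symm (G (n+1) x + v')`, `v' = f n (G n x) - G (n+1) x`,
with `e2` and `chain_jac` for `G (n+1)`: `‖τ' x - x‖ ≤ η' n`. Claim A (`‖x‖ ≤ 5/4 - s n → ‖e n x - x‖ ≤ s n`)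
and claim B (`‖x‖ ≤ 1 → ‖(G n).symm (up f n x) - x‖ ≤ s n`) by induction as in the finished
module `Pool/Agent/Lib/MP_bdb4fe_an/CMP.lean` (theorem comp_err):
`(G (n+1)).symm (up f (n+1) x) = τ' ((G n).symm (up f n x))`.
-/

set_option autoImplicit false

namespace Pool.Agent.Lib.MP_bdb4fe_an.G3

open Filter Topology Metric Set

theorem com_jac {C D η c : ℝ} {f : ℕ → (E ≃ E)} {A : ℕ → (E ≃L[ℂ] E)}
    {B : ℕ → (E →L[ℂ] E →L[ℂ] E)} (h : Setup C D η c f A B) {ε : ℝ} {N : ℕ}
    {G : ℕ → (E ≃ E)} (hc : Chain C η c ε f A N G) (n : ℕ) (hn : n < N) (z : E) (hz : ‖z‖ ≤ 2) :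
    1 / 2 * dd A (n + 1) ≤ jac ((G n).trans (f n)) z := by
  have haG : IsAut (G n) := chain_aut h hc n hn.le
  have hGn : ‖G n z‖ ≤ 3 := by
    have h1 := norm_le_sz (G n) haG.1.continuous z hz
    have h2 := chain_size h hc n hn.le
    have h3 := rho_le_one h n
    linarith
  have hf : DifferentiableAt ℂ (f n) (G n z) := (h.aut n).1 _
  have hG : DifferentiableAt ℂ (G n) z := haG.1 _
  have e1 : jac ((G n).trans (f n)) z = jac (f n) (G n z) * jac (G n) z := by
    unfold jac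
    have e2 : ((G n).trans (f n) : E → E) = (f n) ∘ (G n) := rfl
    rw [e2, fderiv_comp z hf hG, dt_comp, norm_mul]
  rw [e1]
  have h1 := h.jc n (G n z) hGn
  have h2 := chain_jac h hc n hn.le z hz
  have h3 := (norm_dtA h n).2
  have h4 := dd_pos h n
  have hC1 : C ^ 2 * (1 - D) ≤ 1 := by
    have hC := h.hC0
    have hCD := h.hCD
    have hD := h.hD1
    have : C ^ 2 ≤ 1 := by nlinarith
    nlinarith [sq_nonneg C]
  have hc3 : c * ‖G n z‖ ≤ 3 / 100 := by
    have h5 := h.hc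
    have h6 := h.hc0
    have h7 : c * ‖G n z‖ ≤ c * 3 := mul_le_mul_of_nonneg_left hGn h6
    linarith
  have h8 : ‖dt (A n : E →L[ℂ] E)‖ * (97 / 100) ≤ jac (f n) (G n z) := by
    refine le_trans ?_ h1
    refine mul_le_mul_of_nonneg_left ?_ h3.le
    linarith
  have h9 : ‖dt (A n : E →L[ℂ] E)‖ * (97 / 100) * (97 / 100 * dd A n) ≤
      jac (f n) (G n z) * jac (G n) z := by
    refine mul_le_mul h8 h2 (by positivity) ?_
    exact norm_nonneg _
  refine le_trans ?_ h9
  rw [dd_succ]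
  have h10 : 0 < dd A n * ‖dt (A n : E →L[ℂ] E)‖ := mul_pos h4 h3
  nlinarith

theorem com_step {C D η c : ℝ} {f : ℕ → (E ≃ E)} {A : ℕ → (E ≃L[ℂ] E)}
    {B : ℕ → (E →L[ℂ] E →L[ℂ] E)} (h : Setup C D η c f A B) {ε : ℝ} (hε : 0 < ε) {N : ℕ}
    {G : ℕ → (E ≃ E)} (hc : Chain C η c ε f A N G)
    (hs : ∀ n, ∑ t ∈ Finset.range n, ε * rho A t ^ η ≤ 1 / 4) (n : ℕ) (hn : n < N) (x : E)
    (hx : ‖x‖ ≤ 5 / 4) :
    ‖(G n).symm ((f n).symm (G (n + 1) x)) - x‖ ≤ ε * rho A n ^ η ∧
      ‖(G (n + 1)).symm (f n (G n x)) - x‖ ≤ ε * rho A n ^ η := by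
  have hstep := hc.step n hn
  have haG : IsAut (G n) := chain_aut h hc n hn.le
  have haG' : IsAut (G (n + 1)) := chain_aut h hc (n + 1) hn
  have haf : IsAut (f n) := h.aut n
  have hx2 : ‖x‖ ≤ 2 := by linarith
  have hρ : 0 < rho A n ^ η := Real.rpow_pos_of_pos (rho_pos h n) η
  have hdd : 0 < dd A (n + 1) := dd_pos h (n + 1)
  have hterm : ∀ t, 0 ≤ ε * rho A t ^ η := fun t =>
    mul_nonneg hε.le (Real.rpow_pos_of_pos (rho_pos h t) η).le
  have hη' : ε * rho A n ^ η ≤ 1 / 4 := by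
    refine le_trans ?_ (hs (n + 1))
    exact Finset.single_le_sum (f := fun t => ε * rho A t ^ η) (fun t _ => hterm t)
      (Finset.self_mem_range_succ n)
  have hpos : 0 < ε * rho A n ^ η * dd A (n + 1) := mul_pos (mul_pos hε hρ) hdd
  have he : 3 * (ε / 7 * rho A n ^ η * dd A (n + 1)) < ε * rho A n ^ η * (1 / 2 * dd A (n + 1)) := by
    have e1 : 3 * (ε / 7 * rho A n ^ η * dd A (n + 1)) =
      3 / 7 * (ε * rho A n ^ η * dd A (n + 1)) := by ring
    have e2 : ε * rho A n ^ η * (1 / 2 * dd A (n + 1)) =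
      1 / 2 * (ε * rho A n ^ η * dd A (n + 1)) := by ring
    rw [e1, e2]
    linarith
  constructor
  · have haF : IsAut ((G n).trans (f n)) := ⟨haf.1.comp haG.1, haG.2.comp haf.2⟩
    have h1 := err ((G n).trans (f n)) haF (1 / 2 * dd A (n + 1))
      (ε / 7 * rho A n ^ η * dd A (n + 1)) (ε * rho A n ^ η) (by positivity)
      (fun z hz => com_jac h hc n hn z hz) (G (n + 1) x - f n (G n x))
      (fun y hy => hstep.e1 x y hx2 hy) he hη' x hx
    have e3 : ((G n).trans (f n)) x + (G (n + 1) x - f n (G n x)) = G (n + 1) x := by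
      show f n (G n x) + (G (n + 1) x - f n (G n x)) = G (n + 1) x
      abel
    rw [e3] at h1
    exact h1
  · have h1 := err (G (n + 1)) haG' (1 / 2 * dd A (n + 1))
      (ε / 7 * rho A n ^ η * dd A (n + 1)) (ε * rho A n ^ η) (by positivity)
      (fun z hz => le_trans (by linarith) (chain_jac h hc (n + 1) hn z hz))
      (f n (G n x) - G (n + 1) x)
      (fun y hy => hstep.e2 x y hx2 hy) he hη' x hx
    have e3 : G (n + 1) x + (f n (G n x) - G (n + 1) x) = f n (G n x) := by abel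
    rw [e3] at h1
    exact h1

theorem chain_close {C D η c : ℝ} {f : ℕ → (E ≃ E)} {A : ℕ → (E ≃L[ℂ] E)}
    {B : ℕ → (E →L[ℂ] E →L[ℂ] E)} (h : Setup C D η c f A B) {ε : ℝ} (hε : 0 < ε) {N : ℕ}
    {G : ℕ → (E ≃ E)} (hc : Chain C η c ε f A N G)
    (hs : ∀ n, ∑ t ∈ Finset.range n, ε * rho A t ^ η ≤ 1 / 4) (x : E) (hx : ‖x‖ ≤ 1) :
    ‖(up f N).symm (G N x) - x‖ ≤ ∑ t ∈ Finset.range N, ε * rho A t ^ η ∧
      ‖(G N).symm (up f N x) - x‖ ≤ ∑ t ∈ Finset.range N, ε * rho A t ^ η := by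
  have hterm : ∀ t, 0 ≤ ε * rho A t ^ η := fun t =>
    mul_nonneg hε.le (Real.rpow_pos_of_pos (rho_pos h t) η).le
  have hsn : ∀ n, 0 ≤ ∑ t ∈ Finset.range n, ε * rho A t ^ η :=
    fun n => Finset.sum_nonneg (fun i _ => hterm i)
  constructor
  · have key : ∀ n, n ≤ N → ∀ x : E, ‖x‖ ≤ 5 / 4 - ∑ t ∈ Finset.range n, ε * rho A t ^ η →
        ‖(up f n).symm (G n x) - x‖ ≤ ∑ t ∈ Finset.range n, ε * rho A t ^ η := by
      intro n
      induction n with
      | zero =>
        intro _ x _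
        rw [hc.zero]
        simp [up]
      | succ n ih =>
        intro hn x hx
        rw [Finset.sum_range_succ] at hx ⊢
        have hη := hterm n
        have hx1 : ‖x‖ ≤ 5 / 4 := by
          have := hsn n
          linarith
        have hτ := (com_step h hε hc hs n hn x hx1).1
        set τ : E := (G n).symm ((f n).symm (G (n + 1) x)) with hτdef
        have e1 : (up f (n + 1)).symm (G (n + 1) x) = (up f n).symm (G n τ) := by
          rw [hτdef, Equiv.apply_symm_apply]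
          rfl
        have hτn : ‖τ‖ ≤ 5 / 4 - ∑ t ∈ Finset.range n, ε * rho A t ^ η := by
          have : ‖τ‖ ≤ ‖τ - x‖ + ‖x‖ := by
            have := norm_add_le (τ - x) x
            simpa using this
          linarith
        rw [e1]
        have h3 := ih (Nat.le_of_succ_le hn) τ hτn
        have h4 : (up f n).symm (G n τ) - x = ((up f n).symm (G n τ) - τ) + (τ - x) := by
          abel
        rw [h4]
        exact (norm_add_le _ _).trans (add_le_add h3 hτ)
    refine key N le_rfl x ?_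
    have := hs N
    linarith
  · have key : ∀ n, n ≤ N → ‖(G n).symm (up f n x) - x‖ ≤
        ∑ t ∈ Finset.range n, ε * rho A t ^ η := by
      intro n
      induction n with
      | zero =>
        intro _
        rw [hc.zero]
        simp [up]
      | succ n ih =>
        intro hn
        rw [Finset.sum_range_succ]
        have ih' := ih (Nat.le_of_succ_le hn)
        set z : E := (G n).symm (up f n x) with hz
        have hzn : ‖z‖ ≤ 5 / 4 := by
          have : ‖z‖ ≤ ‖z - x‖ + ‖x‖ := by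
            have := norm_add_le (z - x) x
            simpa using this
          have := hs n
          linarith
        have e0 : G n z = up f n x := by rw [hz, Equiv.apply_symm_apply]
        have e1 : (G (n + 1)).symm (up f (n + 1) x) = (G (n + 1)).symm (f n (G n z)) := by
          rw [e0]
          rfl
        rw [e1]
        have h4 : (G (n + 1)).symm (f n (G n z)) - x =
          (z - x) + ((G (n + 1)).symm (f n (G n z)) - z) := by abel
        rw [h4]
        exact (norm_add_le _ _).trans (add_le_add ih' (com_step h hε hc hs n hn z hzn).2)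
    exact key N le_rfl

end Pool.Agent.Lib.MP_bdb4fe_an.G3
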