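import Pool.Agent.Lib.MP_bdb4fe_an.G3.WDG

/-!
Module DEG (60 min). Degrees along lines and the growth of polynomials.

PROOF. `polyLine_id`: `(ζ • x) i = ζ * x i`, `q i = C (x i) * X`. `pd_Hm`: if `G x = p (up f t1 x)`, take
`p' z = Λ (p z + (a (wd (p z) n)²) n)`; for fixed `x` with polynomials `q` for `p`, the coordinates of
`p' (ζ • x)` are linear combinations (with the matrix of `Λ`) of
`q i + C (a * n i) * (q 0 * C (n 1) - q 1 * C (n 0))^2`, of degree `≤ 2M` (`natDegree_add_le`,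
`natDegree_mul_le`, `natDegree_pow_le`). `bernstein`: let `‖x‖ ≤ R`, `q` the polynomials for `x`. If
`‖x‖ ≤ r` nothing to do (the factor on the right is `≥ 1`). Otherwise put `τ = r/‖x‖ ∈ (0, 1)`; for
`‖ζ‖ ≤ τ` `‖(q i).eval ζ‖ ≤ ‖p (ζ • x)‖ ≤ s`, so by Cauchy `‖(q i).coeff k‖ ≤ s / τ^k`
(e.g. `Complex.norm_iteratedDeriv_le_of_forall_mem_sphere_norm_le` at `0`, and
`coeff k = iteratedDeriv k / k!`), hence `‖p x i‖ = ‖(q i).eval 1‖ ≤ ∑_{k≤M} s/τ^k ≤ (M+1) s (1/τ)^M`
and `1/τ = ‖x‖/r ≤ R/r`; the norm of `p x` is at most the sum of the norms of its two coordinates.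
-/

set_option autoImplicit false

namespace Pool.Agent.Lib.MP_bdb4fe_an.G3

open Filter Topology Metric Set

theorem polyLine_id : PolyLine (fun x => x) 1 := by
  intro x
  refine ⟨fun i => Polynomial.C (x i) * Polynomial.X, fun i => ?_, fun ζ i => ?_⟩
  · exact (Polynomial.natDegree_C_mul_le _ _).trans Polynomial.natDegree_X_le
  · simp only [PiLp.smul_apply, smul_eq_mul, Polynomial.eval_mul, Polynomial.eval_C,
      Polynomial.eval_X]
    ring

/-- a linear map in coordinates -/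
theorem deg_lin (Λ : E →L[ℂ] E) (w : E) (i : Fin 2) :
    Λ w i = Λ (EuclideanSpace.single 0 1) i * w 0 + Λ (EuclideanSpace.single 1 1) i * w 1 := by
  have h : w = w 0 • (EuclideanSpace.single 0 1 : E) + w 1 • (EuclideanSpace.single 1 1 : E) := by
    ext j
    fin_cases j <;> simp
  conv_lhs => rw [h]
  rw [map_add, map_smul, map_smul, PiLp.add_apply, PiLp.smul_apply, PiLp.smul_apply, smul_eq_mul,
    smul_eq_mul]
  ring

theorem pd_Hm (f : ℕ → (E ≃ E)) (t1 : ℕ) (G : E ≃ E) (M : ℕ) (hG : PD f t1 G M)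
    (Λ : E ≃L[ℂ] E) (a : ℂ) (n : E) : PD f t1 (Hm G Λ a n) (2 * M) := by
  obtain ⟨p, hp, hl⟩ := hG
  refine ⟨fun z => Λ (p z + (a * wd (p z) n ^ 2) • n), fun x => ?_, fun x => ?_⟩
  · change Λ (G x + (a * wd (G x) n ^ 2) • n) = _
    rw [hp]
  · obtain ⟨q, hq, he⟩ := hl x
    let w : Polynomial ℂ := q 0 * Polynomial.C (n 1) - q 1 * Polynomial.C (n 0)
    have hw : w.natDegree ≤ M := by
      refine (Polynomial.natDegree_sub_le _ _).trans (max_le ?_ ?_)
      · exact (Polynomial.natDegree_mul_C_le _ _).trans (hq 0)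
      · exact (Polynomial.natDegree_mul_C_le _ _).trans (hq 1)
    let Q : Fin 2 → Polynomial ℂ := fun i => q i + Polynomial.C (a * n i) * w ^ 2
    have hQ : ∀ i, (Q i).natDegree ≤ 2 * M := by
      intro i
      refine Polynomial.natDegree_add_le_of_degree_le ((hq i).trans (by omega)) ?_
      refine (Polynomial.natDegree_C_mul_le _ _).trans ?_
      exact Polynomial.natDegree_pow_le_of_le 2 hw
    have hQe : ∀ (ζ : ℂ) (i : Fin 2),
        (p (ζ • x) + (a * wd (p (ζ • x)) n ^ 2) • n) i = (Q i).eval ζ := by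
      intro ζ i
      have hwe : w.eval ζ = wd (p (ζ • x)) n := by
        simp only [w, Polynomial.eval_sub, Polynomial.eval_mul, Polynomial.eval_C, ← he, wd]
      simp only [Q, Polynomial.eval_add, Polynomial.eval_mul, Polynomial.eval_C,
        Polynomial.eval_pow, hwe, ← he, PiLp.add_apply, PiLp.smul_apply, smul_eq_mul]
      ring
    refine ⟨fun i => Polynomial.C (Λ (EuclideanSpace.single 0 1) i) * Q 0 +
      Polynomial.C (Λ (EuclideanSpace.single 1 1) i) * Q 1, fun i => ?_, fun ζ i => ?_⟩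
    · exact Polynomial.natDegree_add_le_of_degree_le
        ((Polynomial.natDegree_C_mul_le _ _).trans (hQ 0))
        ((Polynomial.natDegree_C_mul_le _ _).trans (hQ 1))
    · have h1 := deg_lin (Λ : E →L[ℂ] E) (p (ζ • x) + (a * wd (p (ζ • x)) n ^ 2) • n) i
      simp only [ContinuousLinearEquiv.coe_coe] at h1
      simp only [Polynomial.eval_add, Polynomial.eval_mul, Polynomial.eval_C, ← hQe]
      exact h1

theorem deg_iter (q : Polynomial ℂ) (k : ℕ) :
    iteratedDeriv k (fun z => q.eval z) = fun z => (Polynomial.derivative^[k] q).eval z := by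
  induction k with
  | zero => simp
  | succ k ih =>
    rw [iteratedDeriv_succ, ih]
    funext z
    rw [Function.iterate_succ_apply', Polynomial.deriv]

theorem deg_coeff (q : Polynomial ℂ) (τ s : ℝ) (hτ : 0 < τ)
    (h : ∀ ζ : ℂ, ‖ζ‖ ≤ τ → ‖q.eval ζ‖ ≤ s) (k : ℕ) : ‖q.coeff k‖ ≤ s / τ ^ k := by
  have h1 := Complex.norm_iteratedDeriv_le_of_forall_mem_sphere_norm_le k hτ
    (f := fun z => q.eval z) (c := 0) (C := s) q.differentiable.diffContOnCl
    (fun z hz => h z (by simpa using (mem_sphere_zero_iff_norm.1 hz).le))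
  rw [deg_iter] at h1
  simp only at h1
  rw [← Polynomial.coeff_zero_eq_eval_zero, Polynomial.coeff_iterate_derivative, zero_add,
    Nat.descFactorial_self, nsmul_eq_mul, norm_mul, Complex.norm_natCast] at h1
  have h2 : (0 : ℝ) < (k.factorial : ℝ) := by exact_mod_cast Nat.factorial_pos k
  have h3 : (k.factorial : ℝ) * ‖q.coeff k‖ ≤ (k.factorial : ℝ) * (s / τ ^ k) := by
    rw [← mul_div_assoc]
    exact h1
  exact le_of_mul_le_mul_left h3 h2

theorem bernstein (p : E → E) (M : ℕ) (hp : PolyLine p M) (r R s : ℝ) (hr : 0 < r) (hrR : r ≤ R)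
    (hs : 0 ≤ s) (hb : ∀ x : E, ‖x‖ ≤ r → ‖p x‖ ≤ s) (x : E) (hx : ‖x‖ ≤ R) :
    ‖p x‖ ≤ 2 * ((M : ℝ) + 1) * (R / r) ^ M * s := by
  have hRr : 1 ≤ R / r := by rwa [le_div_iff₀ hr, one_mul]
  have hM : (0 : ℝ) ≤ (M : ℝ) := Nat.cast_nonneg M
  by_cases hxr : ‖x‖ ≤ r
  · have h1 : 1 ≤ (R / r) ^ M := one_le_pow₀ hRr
    have h2 : 1 * s ≤ 2 * ((M : ℝ) + 1) * (R / r) ^ M * s := by
      apply mul_le_mul_of_nonneg_right _ hs
      nlinarith
    rw [one_mul] at h2
    exact (hb x hxr).trans h2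
  · rw [not_le] at hxr
    have hx0 : 0 < ‖x‖ := hr.trans hxr
    obtain ⟨q, hq, he⟩ := hp x
    set τ : ℝ := r / ‖x‖ with hτ
    have hτ0 : 0 < τ := div_pos hr hx0
    have hτ1 : τ ≤ 1 := by
      rw [hτ, div_le_iff₀ hx0, one_mul]
      exact hxr.le
    have hτR : 1 / τ ≤ R / r := by
      rw [hτ, one_div_div]
      exact div_le_div_of_nonneg_right hx hr.le
    have hcoord : ∀ i : Fin 2, ‖p x i‖ ≤ ((M : ℝ) + 1) * (R / r) ^ M * s := by
      intro i
      have h1 : ∀ ζ : ℂ, ‖ζ‖ ≤ τ → ‖(q i).eval ζ‖ ≤ s := by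
        intro ζ hζ
        rw [← he]
        refine (PiLp.norm_apply_le _ i).trans (hb _ ?_)
        rw [norm_smul]
        calc ‖ζ‖ * ‖x‖ ≤ τ * ‖x‖ := mul_le_mul_of_nonneg_right hζ (norm_nonneg _)
          _ = r := by rw [hτ, div_mul_cancel₀ _ hx0.ne']
      have h2 := deg_coeff (q i) τ s hτ0 h1
      have h3 : p x i = (q i).eval 1 := by
        rw [← he, one_smul]
      rw [h3, Polynomial.eval_eq_sum_range' (Nat.lt_succ_of_le (hq i))]
      refine (norm_sum_le _ _).trans ?_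
      have h4 : ∀ k ∈ Finset.range M.succ, ‖(q i).coeff k * 1 ^ k‖ ≤ (R / r) ^ M * s := by
        intro k hk
        rw [Finset.mem_range, Nat.lt_succ_iff] at hk
        rw [one_pow, mul_one]
        refine (h2 k).trans ?_
        have h5 : s / τ ^ k = (1 / τ) ^ k * s := by
          rw [one_div, inv_pow, div_eq_mul_inv, mul_comm]
        rw [h5]
        refine mul_le_mul_of_nonneg_right ?_ hs
        calc (1 / τ) ^ k ≤ (R / r) ^ k := pow_le_pow_left₀ (by positivity) hτR k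
          _ ≤ (R / r) ^ M := pow_le_pow_right₀ hRr hk
      refine (Finset.sum_le_sum h4).trans ?_
      rw [Finset.sum_const, Finset.card_range, nsmul_eq_mul, Nat.cast_succ, ← mul_assoc]
    have h6 : ‖p x‖ ≤ ‖p x 0‖ + ‖p x 1‖ := by
      rw [EuclideanSpace.norm_eq, Fin.sum_univ_two]
      rw [Real.sqrt_le_left (by positivity)]
      nlinarith [norm_nonneg (p x 0), norm_nonneg (p x 1)]
    refine h6.trans ((add_le_add (hcoord 0) (hcoord 1)).trans (le_of_eq ?_))
    ring

end Pool.Agent.Lib.MP_bdb4fe_an.G3
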