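import Pool.Agent.Lib.MP_bdb4fe_an.G3.TAY

/-!
Module DIL (60 min). The dilated sequence satisfies `Setup`.

PROOF. `D ^ (3 - 4η) → D^3 < C` as `η → 0+`, so choose `η ∈ (0, 1/8]` with `D ^ (3-4η) ≤ C`
(continuity of `Real.rpow` in the exponent; `D > 0` since `C ≤ D`). Put `c = C² (1 - D)/100` and
`δ = c C² / 20000` (any smaller number works), so `δ ≤ 1/6`. `A n` from `linear_part`, `B n = δ • B'` with
`B'` from `taylor` for `F = f n` (`‖f n z‖ ≤ D ‖z‖ ≤ 1`). With `g x = δ⁻¹ f (δ x)`: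
`g x - A x = δ⁻¹ (f (δx) - A (δx))`, norm `≤ δ⁻¹ 4 δ² ‖x‖² = 4 δ ‖x‖² ≤ c ‖x‖²` for `‖x‖ ≤ 3`
(`‖δ x‖ ≤ 1/2`); `g x - A x - B x x = δ⁻¹ (f (δx) - A (δx) - B' (δx) (δx))`, norm `≤ 8 δ² ‖x‖³`;
`fderiv g x = fderiv f (δ x)`, `‖dt (fderiv f (δx)) - dt A‖ ≤ (‖fderiv f (δx)‖ + ‖A‖) 100 δ ‖x‖
≤ 200 * 100 δ‖x‖ / …` (`norm_dt_sub_le`, `‖A‖ ≤ 1`, `‖fderiv f (δx)‖ ≤ 1 + 50`) `≤ c ‖x‖ C² ≤ c‖x‖ ‖dt A‖`
since `‖dt A‖ ≥ C ‖A‖ ≥ C²` (`norm_dt_ge`). `IsAut (dil δ (f n))` clear.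
-/

set_option autoImplicit false

namespace Pool.Agent.Lib.MP_bdb4fe_an.G3

open Filter Topology Metric Set

/-- conjugation with the dilation `x ↦ δ x` -/
noncomputable def dil (δ : ℝ) (hδ : 0 < δ) (e : E ≃ E) : E ≃ E where
  toFun x := (δ : ℂ)⁻¹ • e ((δ : ℂ) • x)
  invFun x := (δ : ℂ)⁻¹ • e.symm ((δ : ℂ) • x)
  left_inv x := by
    have h : (δ : ℂ) ≠ 0 := by exact_mod_cast hδ.ne'
    show (δ : ℂ)⁻¹ • e.symm ((δ : ℂ) • ((δ : ℂ)⁻¹ • e ((δ : ℂ) • x))) = x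
    rw [smul_inv_smul₀ h, Equiv.symm_apply_apply, inv_smul_smul₀ h]
  right_inv x := by
    have h : (δ : ℂ) ≠ 0 := by exact_mod_cast hδ.ne'
    show (δ : ℂ)⁻¹ • e ((δ : ℂ) • ((δ : ℂ)⁻¹ • e.symm ((δ : ℂ) • x))) = x
    rw [smul_inv_smul₀ h, Equiv.apply_symm_apply, inv_smul_smul₀ h]

lemma dil_apply (δ : ℝ) (hδ : 0 < δ) (e : E ≃ E) (x : E) :
    dil δ hδ e x = (δ : ℂ)⁻¹ • e ((δ : ℂ) • x) := rfl

lemma dil_aut (δ : ℝ) (hδ : 0 < δ) (e : E ≃ E) (h : IsAut e) : IsAut (dil δ hδ e) := by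
  constructor
  · exact (h.1.comp (differentiable_id.const_smul (δ : ℂ))).const_smul ((δ : ℂ)⁻¹)
  · exact (h.2.comp (differentiable_id.const_smul (δ : ℂ))).const_smul ((δ : ℂ)⁻¹)

lemma dil_fderiv (δ : ℝ) (hδ : 0 < δ) (e : E ≃ E) (h : IsAut e) (x : E) :
    fderiv ℂ (dil δ hδ e) x = fderiv ℂ e ((δ : ℂ) • x) := by
  have h0 : (δ : ℂ) ≠ 0 := by exact_mod_cast hδ.ne'
  have h1 : HasFDerivAt (fun x : E => (δ : ℂ) • x) ((δ : ℂ) • ContinuousLinearMap.id ℂ E) x :=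
    (hasFDerivAt_id x).const_smul (δ : ℂ)
  have h2 := ((h.1 ((δ : ℂ) • x)).hasFDerivAt.comp x h1).const_smul ((δ : ℂ)⁻¹)
  have h3 : fderiv ℂ (dil δ hδ e) x =
      (δ : ℂ)⁻¹ • (fderiv ℂ e ((δ : ℂ) • x)).comp ((δ : ℂ) • ContinuousLinearMap.id ℂ E) :=
    h2.fderiv
  rw [h3]
  ext1 v
  rw [smul_apply, ContinuousLinearMap.comp_apply, smul_apply, ContinuousLinearMap.id_apply,
    map_smul, inv_smul_smul₀ h0]

lemma dil_eta (C D : ℝ) (hD0 : 0 < D) (hD3 : D ^ 3 < C) :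
    ∃ η : ℝ, 0 < η ∧ η ≤ 1 / 8 ∧ D ^ (3 - 4 * η) ≤ C := by
  have hc : Continuous (fun η : ℝ => D ^ (3 - 4 * η)) :=
    (Real.continuous_const_rpow hD0.ne').comp (by fun_prop)
  have h0 : (fun η : ℝ => D ^ (3 - 4 * η)) 0 < C := by
    have : (3 - 4 * (0 : ℝ)) = ((3 : ℕ) : ℝ) := by norm_num
    simp only [this, Real.rpow_natCast]
    exact hD3
  have h1 : ∀ᶠ η in 𝓝[>] (0 : ℝ), D ^ (3 - 4 * η) < C :=
    ((hc.tendsto 0).eventually (gt_mem_nhds h0)).filter_mono nhdsWithin_le_nhds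
  have h2 : ∀ᶠ η in 𝓝[>] (0 : ℝ), η ∈ Ioc (0 : ℝ) (1 / 8) := Ioc_mem_nhdsGT (by norm_num)
  obtain ⟨η, h3, h4⟩ := (h1.and h2).exists
  exact ⟨η, h4.1, h4.2, h3.le⟩

theorem setup_exists (C D : ℝ) (hC0 : 0 < C) (hCD : C ≤ D) (hD1 : D < 1) (hD3 : D ^ 3 < C)
    (f : ℕ → (E ≃ E)) (hf : ∀ n, IsAut (f n))
    (hb : ∀ (n : ℕ) (z : E), ‖z‖ < 1 → C * ‖z‖ ≤ ‖f n z‖ ∧ ‖f n z‖ ≤ D * ‖z‖) :
    ∃ (η c δ : ℝ) (hδ : 0 < δ) (A : ℕ → (E ≃L[ℂ] E)) (B : ℕ → (E →L[ℂ] E →L[ℂ] E)),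
      Setup C D η c (fun n => dil δ hδ (f n)) A B := by
  have hD0 : 0 < D := hC0.trans_le hCD
  have hC1 : C < 1 := hCD.trans_lt hD1
  obtain ⟨η, hη0, hη8, hCη⟩ := dil_eta C D hD0 hD3
  set c : ℝ := C ^ 2 * (1 - D) / 100 with hc
  have hC2 : 0 < C ^ 2 := by positivity
  have hC21 : C ^ 2 ≤ 1 := pow_le_one₀ hC0.le hC1.le
  have hD' : 0 < 1 - D := by linarith
  have hc0 : 0 < c := by positivity
  have hc1 : c ≤ 1 / 100 := by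
    have : C ^ 2 * (1 - D) ≤ 1 * 1 := mul_le_mul hC21 (by linarith) hD'.le (by norm_num)
    rw [hc]
    linarith
  set δ : ℝ := c * C ^ 2 / 20000 with hδd
  have hδ : 0 < δ := by positivity
  have hδc : 20000 * δ ≤ c := by
    have : c * C ^ 2 ≤ c * 1 := mul_le_mul_of_nonneg_left hC21 hc0.le
    rw [hδd]
    linarith
  have hδ1 : δ ≤ 1 / 2000000 := by linarith
  have hδ0 : (δ : ℂ) ≠ 0 := by exact_mod_cast hδ.ne'
  have hδn : ‖(δ : ℂ)‖ = δ := by rw [Complex.norm_real, Real.norm_of_nonneg hδ.le]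
  have hf1 : ∀ n, ∀ z : E, ‖z‖ < 1 → ‖f n z‖ ≤ 1 := by
    intro n z hz
    refine (hb n z hz).2.trans ?_
    have : D * ‖z‖ ≤ 1 * 1 := mul_le_mul hD1.le hz.le (norm_nonneg _) (by norm_num)
    linarith
  have hf0 : ∀ n, f n 0 = 0 := by
    intro n
    have := (hb n 0 (by simp)).2
    rw [norm_zero, mul_zero] at this
    exact norm_le_zero_iff.1 this
  choose A hA1 hA2 hA3 using fun n => linear_part (f n) (hf n) C D (hb n)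
  choose B hB1 hB2 hB3 hB4 using fun n => taylor (f n) (hf n).1 (hf0 n) (hf1 n)
  have hAs : ∀ n, ∀ x : E, fderiv ℂ (f n) 0 ((δ : ℂ) • x) = (δ : ℂ) • A n x := by
    intro n x
    rw [← hA1 n]
    exact map_smul (A n) _ _
  have hsx : ∀ x : E, ‖x‖ ≤ 3 → ‖(δ : ℂ) • x‖ = δ * ‖x‖ ∧ ‖(δ : ℂ) • x‖ ≤ 1 / 2 := by
    intro x hx
    have h1 : ‖(δ : ℂ) • x‖ = δ * ‖x‖ := by rw [norm_smul, hδn]
    refine ⟨h1, ?_⟩
    rw [h1]
    have : δ * ‖x‖ ≤ δ * 3 := mul_le_mul_of_nonneg_left hx hδ.le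
    linarith
  refine ⟨η, c, δ, hδ, A, fun n => (δ : ℂ) • B n, ⟨hC0, hCD, hD1, hη0, hη8, hCη, hc0.le, ?_,
    fun n => dil_aut δ hδ _ (hf n), ?_, hA2, hA3, ?_, ?_, ?_, ?_, ?_⟩⟩
  · rw [hc]
    linarith
  · intro n
    rw [dil_apply, smul_zero, hf0, smul_zero]
  · intro n x hx
    obtain ⟨h1, h2⟩ := hsx x hx
    have h3 := hB3 n _ h2
    rw [dil_apply]
    have e : (δ : ℂ)⁻¹ • f n ((δ : ℂ) • x) - A n x =
        (δ : ℂ)⁻¹ • (f n ((δ : ℂ) • x) - fderiv ℂ (f n) 0 ((δ : ℂ) • x)) := by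
      rw [smul_sub, hAs n x, inv_smul_smul₀ hδ0]
    rw [e, norm_smul, norm_inv, hδn]
    rw [h1] at h3
    calc δ⁻¹ * ‖f n ((δ : ℂ) • x) - fderiv ℂ (f n) 0 ((δ : ℂ) • x)‖
        ≤ δ⁻¹ * (4 * (δ * ‖x‖) ^ 2) := mul_le_mul_of_nonneg_left h3 (by positivity)
      _ = 4 * δ * ‖x‖ ^ 2 := by
          field_simp
      _ ≤ c * ‖x‖ ^ 2 := mul_le_mul_of_nonneg_right (by linarith) (by positivity)
  · intro n x y
    rw [smul_apply, smul_apply, norm_smul, hδn]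
    have h1 := mul_le_mul_of_nonneg_left (hB2 n x y) hδ.le
    have h2 : 0 ≤ ‖x‖ * ‖y‖ := by positivity
    nlinarith
  · intro n x y
    rw [smul_apply, smul_apply, smul_apply, smul_apply, hB1 n x y]
  · intro n x hx
    obtain ⟨h1, h2⟩ := hsx x hx
    have h3 := hB4 n _ h2
    rw [dil_apply]
    have e : (δ : ℂ)⁻¹ • f n ((δ : ℂ) • x) - A n x - ((δ : ℂ) • B n) x x =
        (δ : ℂ)⁻¹ • (f n ((δ : ℂ) • x) - fderiv ℂ (f n) 0 ((δ : ℂ) • x) -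
          B n ((δ : ℂ) • x) ((δ : ℂ) • x)) := by
      rw [tay_bs, mul_smul, smul_sub, smul_sub, hAs n x, inv_smul_smul₀ hδ0,
        inv_smul_smul₀ hδ0, smul_apply, smul_apply]
    rw [e, norm_smul, norm_inv, hδn]
    rw [h1] at h3
    have h8 : 8 * δ ^ 2 ≤ c := by nlinarith
    calc δ⁻¹ * ‖f n ((δ : ℂ) • x) - fderiv ℂ (f n) 0 ((δ : ℂ) • x) -
          B n ((δ : ℂ) • x) ((δ : ℂ) • x)‖
        ≤ δ⁻¹ * (8 * (δ * ‖x‖) ^ 3) := mul_le_mul_of_nonneg_left h3 (by positivity)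
      _ = 8 * δ ^ 2 * ‖x‖ ^ 3 := by
          field_simp
      _ ≤ c * ‖x‖ ^ 3 := mul_le_mul_of_nonneg_right h8 (by positivity)
  · intro n x hx
    obtain ⟨h1, h2⟩ := hsx x hx
    have h3 := fderiv_near (f n) (hf n).1 (hf1 n) _ h2
    rw [← hA1 n, h1] at h3
    show ‖dt (A n : E →L[ℂ] E)‖ * (1 - c * ‖x‖) ≤ ‖dt (fderiv ℂ (dil δ hδ (f n)) x)‖
    rw [dil_fderiv δ hδ _ (hf n)]
    set L := fderiv ℂ (f n) ((δ : ℂ) • x) with hL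
    have hAn : ‖(A n : E →L[ℂ] E)‖ ≤ 1 := by
      refine ContinuousLinearMap.opNorm_le_bound _ zero_le_one (fun v => ?_)
      refine (hA3 n v).trans ?_
      exact mul_le_mul_of_nonneg_right hD1.le (norm_nonneg _)
    have hAC : C ≤ ‖(A n : E →L[ℂ] E)‖ := by
      have a1 := hA2 n (EuclideanSpace.single (0 : Fin 2) (1 : ℂ))
      have a2 := (A n : E →L[ℂ] E).le_opNorm (EuclideanSpace.single (0 : Fin 2) (1 : ℂ))
      have a3 : ‖(EuclideanSpace.single (0 : Fin 2) (1 : ℂ) : E)‖ = 1 := by simp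
      rw [a3, mul_one] at a1 a2
      exact a1.trans a2
    have hdt : C ^ 2 ≤ ‖dt (A n : E →L[ℂ] E)‖ := by
      refine le_trans ?_ (norm_dt_ge (A n) C hC0 (hA2 n))
      rw [sq]
      exact mul_le_mul_of_nonneg_left hAC hC0.le
    have hdx : δ * ‖x‖ ≤ 1 / 2 := h1 ▸ h2
    have hLn : ‖L‖ ≤ 51 := by
      have a1 : L = (L - (A n : E →L[ℂ] E)) + (A n : E →L[ℂ] E) := by abel
      have a2 : ‖L‖ ≤ ‖L - (A n : E →L[ℂ] E)‖ + ‖(A n : E →L[ℂ] E)‖ := by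
        conv_lhs => rw [a1]
        exact norm_add_le _ _
      linarith
    have h4 := norm_dt_sub_le (A n : E →L[ℂ] E) L
    rw [norm_sub_rev (A n : E →L[ℂ] E) L] at h4
    have h5 : (‖(A n : E →L[ℂ] E)‖ + ‖L‖) * ‖L - (A n : E →L[ℂ] E)‖ ≤
        52 * (100 * (δ * ‖x‖)) :=
      mul_le_mul (by linarith) h3 (norm_nonneg _) (by norm_num)
    have h6 : ‖dt (A n : E →L[ℂ] E)‖ - ‖dt L‖ ≤ ‖dt (A n : E →L[ℂ] E) - dt L‖ :=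
      norm_sub_norm_le _ _
    have h7 : 52 * (100 * (δ * ‖x‖)) ≤ c * ‖x‖ * C ^ 2 := by
      have : 52 * (100 * (δ * ‖x‖)) = (c * ‖x‖ * C ^ 2) * (5200 / 20000) := by
        rw [hδd]
        ring
      rw [this]
      have h0 : 0 ≤ c * ‖x‖ * C ^ 2 := by positivity
      linarith
    have h8 : c * ‖x‖ * C ^ 2 ≤ c * ‖x‖ * ‖dt (A n : E →L[ℂ] E)‖ :=
      mul_le_mul_of_nonneg_left hdt (by positivity)
    nlinarith

end Pool.Agent.Lib.MP_bdb4fe_an.G3
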