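import Pool.Agent.Lib.MP_bdb4fe_an.G3.SZF

/-!
Module DRX (50 min). Dropped and exact steps.

PROOF. `s = sz G ≤ 3 ρ ≤ 3`, `a = ‖A t‖ ∈ [C, D]`, `X = G x`, `N = f X - A X`, `‖N‖ ≤ c s²`.
DROPPED (`G' x = A X`): e1: `‖wd (f Y) (A X - f X)‖ ≤ ‖f Y‖ c s² ≤ (a s + c s²) c s² ≤ 2 c s³`
(`s ≤ 3`, `3c ≤ 1`), and `s³ ≤ ε ρ^η dd A t`, `dd A t = dd A (t+1) / ‖dt A‖ ≤ dd A (t+1) / C²`
(`‖dt A‖ ≥ C a ≥ C²`), so `≤ (2c/C²) ε ρ^η dd A (t+1) ≤ (ε/7) …` because `14 c ≤ C²`. e2 the same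
with `‖A Y‖ ≤ s`. size: `0`. area: `wd (A X) (A Y) = dt A wd X Y`. jc: `fderiv G' x = A ∘ fderiv G x`,
`dt_comp`, and `(1 - c s) ≤ 1`, `jac ≥ 0`.
EXACT (`G' = G.trans (f t)`): e1, e2: `wd _ 0 = 0` and the right side is `≥ 0`. size: `‖N‖ ≤ c s² ≤
3 c ρ s ≤ 3 (c/C) a ρ^(1-2η) s` (`a ≥ C`, `ρ ≤ ρ^(1-2η)` as `ρ ≤ 1`). area: `wd (AX+N) (AY+N')`
`= dt A wd X Y + wd (AX) N' + wd N (AY) + wd N N'`, the last three are `≤ 2 a s c s² + c² s⁴ ≤
s³ (2 c a + 3 c²) ≤ ‖dt A‖ (5c/C²) s³` (`a ≤ ‖dt A‖/C`, `3c² ≤ 3 c C² /100 … ≤ (c/C²) ‖dt A‖` since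
`‖dt A‖ ≥ C²`, `C ≤ 1`). jc: chain rule, `dt_comp`, `jac (f t) X ≥ ‖dt A‖ (1 - c‖X‖)`, `‖X‖ ≤ s ≤ 3`.
-/

set_option autoImplicit false

namespace Pool.Agent.Lib.MP_bdb4fe_an.G3

open Filter Topology Metric Set

section
variable {C D η c : ℝ} {f : ℕ → (E ≃ E)} {A : ℕ → (E ≃L[ℂ] E)} {B : ℕ → (E →L[ℂ] E →L[ℂ] E)}

/-- elementary consequences of the bounds for the constants -/
theorem drx_const (h : Setup C D η c f A B) :
    C < 1 ∧ 0 < C ^ 2 ∧ C ^ 2 ≤ 1 ∧ 100 * c ≤ C ^ 2 ∧ 3 * c ≤ 1 := by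
  have h1 : C < 1 := h.hCD.trans_lt h.hD1
  have h0 := h.hC0
  have h2 : C ^ 2 ≤ 1 := pow_le_one₀ h0.le h1.le
  have h3 : 0 < C ^ 2 := by positivity
  have h4 : 100 * c ≤ C ^ 2 := by
    refine h.hc.trans ?_
    have h5 : 1 - D ≤ 1 := by linarith [h0.trans_le h.hCD]
    nlinarith
  exact ⟨h1, h3, h2, h4, by linarith⟩

/-- the facts about the points of the image of the ball of radius `2` -/
theorem drx_pt (h : Setup C D η c f A B) (t : ℕ) (G : E ≃ E) (hG : IsAut G)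
    (hs : sz G ≤ 3 * rho A t) (x : E) (hx : ‖x‖ ≤ 2) :
    ‖G x‖ ≤ sz G ∧ ‖G x‖ ≤ 3 ∧ ‖f t (G x) - A t (G x)‖ ≤ c * sz G ^ 2 ∧
      ‖A t (G x)‖ ≤ ‖(A t : E →L[ℂ] E)‖ * sz G := by
  have h1 : ‖G x‖ ≤ sz G := norm_le_sz G hG.1.continuous x hx
  have h2 : rho A t ≤ 1 := rho_le_one h t
  have h3 : ‖G x‖ ≤ 3 := by linarith
  refine ⟨h1, h3, (h.lin t _ h3).trans ?_, ?_⟩
  · exact mul_le_mul_of_nonneg_left (pow_le_pow_left₀ (norm_nonneg _) h1 2) h.hc0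
  · exact ((A t : E →L[ℂ] E).le_opNorm (G x)).trans (mul_le_mul_of_nonneg_left h1 (norm_nonneg _))

theorem drx_dt (h : Setup C D η c f A B) (t : ℕ) :
    C ≤ ‖(A t : E →L[ℂ] E)‖ ∧ ‖(A t : E →L[ℂ] E)‖ ≤ 1 ∧
      C * ‖(A t : E →L[ℂ] E)‖ ≤ ‖dt (A t : E →L[ℂ] E)‖ ∧ C ^ 2 ≤ ‖dt (A t : E →L[ℂ] E)‖ := by
  obtain ⟨h1, h2⟩ := norm_A h t
  obtain ⟨h3, h4⟩ := norm_dtA h t
  refine ⟨h1, h2.trans h.hD1.le, h3, le_trans ?_ h3⟩
  rw [pow_two]
  exact mul_le_mul_of_nonneg_left h1 h.hC0.le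

theorem drx_sz (h : Setup C D η c f A B) (t : ℕ) (G : E ≃ E) (hG : IsAut G)
    (hs : sz G ≤ 3 * rho A t) : 0 < sz G ∧ sz G ≤ 3 := by
  refine ⟨sz_pos G hG.1.continuous, ?_⟩
  have h2 : rho A t ≤ 1 := rho_le_one h t
  linarith

end

theorem drop_step {C D η c : ℝ} {f : ℕ → (E ≃ E)} {A : ℕ → (E ≃L[ℂ] E)}
    {B : ℕ → (E →L[ℂ] E →L[ℂ] E)} (h : Setup C D η c f A B) (ε : ℝ) (hε : 0 < ε) (t : ℕ)
    (G : E ≃ E) (hG : IsAut G) (hs : sz G ≤ 3 * rho A t)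
    (hdrop : sz G ^ 3 ≤ ε * rho A t ^ η * dd A t) (G' : E ≃ E) (hG' : IsAut G')
    (hx : ∀ x, G' x = A t (G x)) : StepOK C η c ε f A t G G' := by
  obtain ⟨hC1, hC2, hC2', hc1, hc3⟩ := drx_const h
  obtain ⟨ha1, ha2, hd1, hd2⟩ := drx_dt h t
  obtain ⟨hs0, hs3⟩ := drx_sz h t G hG hs
  have hc0 := h.hc0
  have hC0 := h.hC0
  have hr0 : 0 < rho A t := rho_pos h t
  have hr : 0 < rho A t ^ η := Real.rpow_pos_of_pos hr0 _
  have hdd : 0 < dd A t := dd_pos h t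
  have hdd1 : dd A (t + 1) = dd A t * ‖dt (A t : E →L[ℂ] E)‖ := dd_succ t
  -- the main bound
  have hmain : 2 * c * sz G ^ 3 ≤ ε / 7 * rho A t ^ η * dd A (t + 1) := by
    have e1 : 2 * c * sz G ^ 3 ≤ 2 * c * (ε * rho A t ^ η * dd A t) :=
      mul_le_mul_of_nonneg_left hdrop (by positivity)
    refine e1.trans ?_
    have e2 : 2 * c ≤ 1 / 7 * ‖dt (A t : E →L[ℂ] E)‖ := by linarith
    have e3 : 0 ≤ ε * rho A t ^ η * dd A t := by positivity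
    calc 2 * c * (ε * rho A t ^ η * dd A t)
        ≤ 1 / 7 * ‖dt (A t : E →L[ℂ] E)‖ * (ε * rho A t ^ η * dd A t) :=
          mul_le_mul_of_nonneg_right e2 e3
      _ = ε / 7 * rho A t ^ η * dd A (t + 1) := by rw [hdd1]; ring
  refine ⟨hG', ?_, ?_, ?_, ?_, ?_⟩
  · intro x y hx2 hy2
    obtain ⟨-, -, hN, -⟩ := drx_pt h t G hG hs x hx2
    obtain ⟨-, -, hNy, hAy⟩ := drx_pt h t G hG hs y hy2
    rw [hx]
    refine (norm_wd_le _ _).trans (le_trans ?_ hmain)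
    have e1 : ‖f t (G y)‖ ≤ 2 * sz G := by
      have e2 : f t (G y) = (f t (G y) - A t (G y)) + A t (G y) := by abel
      rw [e2]
      refine (norm_add_le _ _).trans ?_
      have e3 : ‖(A t : E →L[ℂ] E)‖ * sz G ≤ 1 * sz G := mul_le_mul_of_nonneg_right ha2 hs0.le
      have e4 : c * sz G ^ 2 ≤ sz G := by nlinarith
      linarith
    have e5 : ‖A t (G x) - f t (G x)‖ ≤ c * sz G ^ 2 := by
      rw [norm_sub_rev]
      exact hN
    calc ‖f t (G y)‖ * ‖A t (G x) - f t (G x)‖ ≤ (2 * sz G) * (c * sz G ^ 2) :=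
          mul_le_mul e1 e5 (norm_nonneg _) (by positivity)
      _ = 2 * c * sz G ^ 3 := by ring
  · intro x y hx2 hy2
    obtain ⟨-, -, hN, -⟩ := drx_pt h t G hG hs x hx2
    obtain ⟨-, -, hNy, hAy⟩ := drx_pt h t G hG hs y hy2
    rw [hx, hx]
    refine (norm_wd_le _ _).trans (le_trans ?_ hmain)
    have e1 : ‖A t (G y)‖ ≤ 2 * sz G := by
      have e3 : ‖(A t : E →L[ℂ] E)‖ * sz G ≤ 1 * sz G := mul_le_mul_of_nonneg_right ha2 hs0.le
      linarith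
    calc ‖A t (G y)‖ * ‖f t (G x) - A t (G x)‖ ≤ (2 * sz G) * (c * sz G ^ 2) :=
          mul_le_mul e1 hN (norm_nonneg _) (by positivity)
      _ = 2 * c * sz G ^ 3 := by ring
  · intro x hx2
    rw [hx, sub_self, norm_zero]
    have e1 : 0 ≤ rho A t ^ (1 - 2 * η) := Real.rpow_nonneg hr0.le _
    positivity
  · intro P hP x y hx2 hy2
    rw [hx, hx]
    have e1 := wd_map (A t : E →L[ℂ] E) (G x) (G y)
    simp only [ContinuousLinearEquiv.coe_coe] at e1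
    rw [e1, norm_mul]
    refine mul_le_mul_of_nonneg_left ?_ (norm_nonneg _)
    have e2 : 0 ≤ 5 * c / C ^ 2 * sz G ^ 3 := by positivity
    linarith [hP x y hx2 hy2]
  · intro x hx2
    have e1 : (G' : E → E) = fun x => (A t : E →L[ℂ] E) (G x) := by
      funext z
      exact hx z
    have e2 : jac G' x = ‖dt (A t : E →L[ℂ] E)‖ * jac G x := by
      unfold jac
      rw [e1, ← norm_mul, ← dt_comp]
      congr 2
      exact ((A t : E →L[ℂ] E).hasFDerivAt.comp x (hG.1 x).hasFDerivAt).fderiv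
    rw [e2]
    have e3 : 0 ≤ jac G x := norm_nonneg _
    refine mul_le_mul_of_nonneg_right ?_ e3
    have e4 : 0 ≤ ‖dt (A t : E →L[ℂ] E)‖ := norm_nonneg _
    have e5 : 0 ≤ c * sz G := by positivity
    nlinarith

theorem exact_step {C D η c : ℝ} {f : ℕ → (E ≃ E)} {A : ℕ → (E ≃L[ℂ] E)}
    {B : ℕ → (E →L[ℂ] E →L[ℂ] E)} (h : Setup C D η c f A B) (ε : ℝ) (hε : 0 < ε) (t : ℕ)
    (G : E ≃ E) (hG : IsAut G) (hs : sz G ≤ 3 * rho A t) :
    StepOK C η c ε f A t G (G.trans (f t)) := by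
  obtain ⟨hC1, hC2, hC2', hc1, hc3⟩ := drx_const h
  obtain ⟨ha1, ha2, hd1, hd2⟩ := drx_dt h t
  obtain ⟨hs0, hs3⟩ := drx_sz h t G hG hs
  have hc0 := h.hc0
  have hC0 := h.hC0
  have hr0 : 0 < rho A t := rho_pos h t
  have hr1 : rho A t ≤ 1 := rho_le_one h t
  have hr : 0 < rho A t ^ η := Real.rpow_pos_of_pos hr0 _
  have hdd : 0 < dd A (t + 1) := dd_pos h (t + 1)
  have hz : ∀ z : E, wd z 0 = 0 := fun z => by simp [wd]
  refine ⟨⟨(h.aut t).1.comp hG.1, hG.2.comp (h.aut t).2⟩, ?_, ?_, ?_, ?_, ?_⟩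
  · intro x y _ _
    rw [Equiv.trans_apply, sub_self, hz, norm_zero]
    positivity
  · intro x y _ _
    rw [Equiv.trans_apply, Equiv.trans_apply, sub_self, hz, norm_zero]
    positivity
  · intro x hx2
    obtain ⟨-, -, hN, -⟩ := drx_pt h t G hG hs x hx2
    rw [Equiv.trans_apply]
    refine hN.trans ?_
    have e1 : rho A t ≤ rho A t ^ (1 - 2 * η) := by
      conv_lhs => rw [← Real.rpow_one (rho A t)]
      exact Real.rpow_le_rpow_of_exponent_ge hr0 hr1 (by linarith [h.hη0])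
    have e2 : 1 ≤ ‖(A t : E →L[ℂ] E)‖ / C := by rwa [le_div_iff₀ hC0, one_mul]
    have e3 : 0 < rho A t ^ (1 - 2 * η) := hr0.trans_le e1
    calc c * sz G ^ 2 = c * sz G * sz G := by ring
      _ ≤ c * sz G * (3 * rho A t ^ (1 - 2 * η)) :=
          mul_le_mul_of_nonneg_left (by linarith) (by positivity)
      _ = 1 * (3 * c * rho A t ^ (1 - 2 * η) * sz G) := by ring
      _ ≤ ‖(A t : E →L[ℂ] E)‖ / C * (3 * c * rho A t ^ (1 - 2 * η) * sz G) :=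
          mul_le_mul_of_nonneg_right e2 (by positivity)
      _ = 3 * c / C * ‖(A t : E →L[ℂ] E)‖ * rho A t ^ (1 - 2 * η) * sz G := by ring
  · intro P hP x y hx2 hy2
    obtain ⟨-, -, hN, hA⟩ := drx_pt h t G hG hs x hx2
    obtain ⟨-, -, hNy, hAy⟩ := drx_pt h t G hG hs y hy2
    rw [Equiv.trans_apply, Equiv.trans_apply]
    set N := f t (G x) - A t (G x) with hNdef
    set N' := f t (G y) - A t (G y) with hN'def
    have e0 : f t (G x) = A t (G x) + N := by rw [hNdef]; abel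
    have e0' : f t (G y) = A t (G y) + N' := by rw [hN'def]; abel
    have e1 := wd_map (A t : E →L[ℂ] E) (G x) (G y)
    simp only [ContinuousLinearEquiv.coe_coe] at e1
    rw [e0, e0', wd_add_left, wd_add_right, wd_add_right, e1]
    have b1 : ‖wd (A t (G x)) N'‖ ≤ ‖(A t : E →L[ℂ] E)‖ * sz G * (c * sz G ^ 2) :=
      (norm_wd_le _ _).trans (mul_le_mul hA hNy (norm_nonneg _) (by positivity))
    have b2 : ‖wd N (A t (G y))‖ ≤ (c * sz G ^ 2) * (‖(A t : E →L[ℂ] E)‖ * sz G) :=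
      (norm_wd_le _ _).trans (mul_le_mul hN hAy (norm_nonneg _) (by positivity))
    have b3 : ‖wd N N'‖ ≤ (c * sz G ^ 2) * (c * sz G ^ 2) :=
      (norm_wd_le _ _).trans (mul_le_mul hN hNy (norm_nonneg _) (by positivity))
    have b4 : ‖dt (A t : E →L[ℂ] E) * wd (G x) (G y)‖ ≤ ‖dt (A t : E →L[ℂ] E)‖ * P := by
      rw [norm_mul]
      exact mul_le_mul_of_nonneg_left (hP x y hx2 hy2) (norm_nonneg _)
    have b5 : ‖dt (A t : E →L[ℂ] E) * wd (G x) (G y) + wd (A t (G x)) N' +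
        (wd N (A t (G y)) + wd N N')‖ ≤ ‖dt (A t : E →L[ℂ] E)‖ * P +
          ‖(A t : E →L[ℂ] E)‖ * sz G * (c * sz G ^ 2) +
          ((c * sz G ^ 2) * (‖(A t : E →L[ℂ] E)‖ * sz G) + (c * sz G ^ 2) * (c * sz G ^ 2)) := by
      refine (norm_add_le _ _).trans (add_le_add ((norm_add_le _ _).trans (add_le_add b4 b1))
        ((norm_add_le _ _).trans (add_le_add b2 b3)))
    refine b5.trans ?_
    -- `2 c a + 3 c² ≤ Δ 5 c / C²`
    set Δ := ‖dt (A t : E →L[ℂ] E)‖ with hΔ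
    set a := ‖(A t : E →L[ℂ] E)‖ with ha
    have hΔ0 : 0 ≤ Δ := norm_nonneg _
    have k1 : a ≤ Δ / C ^ 2 := by
      rw [le_div_iff₀ hC2]
      nlinarith
    have k2 : c ≤ Δ / C ^ 2 := by
      rw [le_div_iff₀ hC2]
      nlinarith
    have k3 : 2 * c * a + 3 * c * c ≤ Δ * (5 * c / C ^ 2) := by
      have k4 : Δ * (5 * c / C ^ 2) = 5 * c * (Δ / C ^ 2) := by ring
      rw [k4]
      nlinarith
    have k5 : (c * sz G ^ 2) * (c * sz G ^ 2) ≤ 3 * c * c * sz G ^ 3 := by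
      have k6 : (c * sz G ^ 2) * (c * sz G ^ 2) = c * c * sz G ^ 3 * sz G := by ring
      rw [k6]
      have k7 : 0 ≤ c * c * sz G ^ 3 := by positivity
      nlinarith
    have k8 : (2 * c * a + 3 * c * c) * sz G ^ 3 ≤ Δ * (5 * c / C ^ 2) * sz G ^ 3 :=
      mul_le_mul_of_nonneg_right k3 (by positivity)
    nlinarith
  · intro x hx2
    obtain ⟨hX, hX3, -, -⟩ := drx_pt h t G hG hs x hx2
    have e1 : ((G.trans (f t) : E ≃ E) : E → E) = fun x => f t (G x) := rfl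
    have e2 : jac (G.trans (f t)) x = jac (f t) (G x) * jac G x := by
      unfold jac
      rw [e1, ← norm_mul, ← dt_comp]
      congr 2
      exact (((h.aut t).1 (G x)).hasFDerivAt.comp x (hG.1 x).hasFDerivAt).fderiv
    rw [e2]
    have e3 : 0 ≤ jac G x := norm_nonneg _
    refine mul_le_mul_of_nonneg_right ?_ e3
    refine le_trans ?_ (h.jc t (G x) hX3)
    refine mul_le_mul_of_nonneg_left ?_ (norm_nonneg _)
    have := mul_le_mul_of_nonneg_left hX hc0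
    linarith

end Pool.Agent.Lib.MP_bdb4fe_an.G3
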