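import Mathlib

/-!
Definitions for the general theorem (problem MP_bdb4fe_an): non-autonomous basins of automorphisms
of `ℂ²` with `D^3 < C`. Here `ℂ²` is `EuclideanSpace ℂ (Fin 2)`.
-/

set_option autoImplicit false

namespace Pool.Agent.Lib.MP_bdb4fe_an.G3

open Filter Topology Metric Set

/-- `ℂ²` with the Euclidean norm -/
abbrev E := EuclideanSpace ℂ (Fin 2)

/-- a bijection of `ℂ²` which is holomorphic together with its inverse -/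
def IsAut (e : E ≃ E) : Prop := Differentiable ℂ e ∧ Differentiable ℂ e.symm

/-- `up f n = f (n-1) ∘ ⋯ ∘ f 0` -/
def up (f : ℕ → (E ≃ E)) : ℕ → (E ≃ E)
  | 0 => Equiv.refl E
  | n + 1 => (up f n).trans (f n)

/-- the basin of attraction of the origin -/
def basin (f : ℕ → (E ≃ E)) : Set E := {x | Tendsto (fun n => up f n x) atTop (𝓝 0)}

/-- the area form `x ∧ y` -/
def wd (x y : E) : ℂ := x 0 * y 1 - x 1 * y 0

/-- the determinant of a linear map of `ℂ²` -/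
noncomputable def dt (A : E →L[ℂ] E) : ℂ :=
  wd (A (EuclideanSpace.single 0 1)) (A (EuclideanSpace.single 1 1))

/-- the vector `(-conj e₁, conj e₀)` orthogonal to `e` -/
noncomputable def perp (e : E) : E :=
  WithLp.toLp 2 ![-(starRingEnd ℂ) (e 1), (starRingEnd ℂ) (e 0)]

/-- the size of the image of the closed ball of radius `2` -/
noncomputable def sz (G : E → E) : ℝ := sSup ((fun x => ‖G x‖) '' closedBall 0 2)

/-- modulus of the Jacobian determinant -/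
noncomputable def jac (G : E → E) (x : E) : ℝ := ‖dt (fderiv ℂ G x)‖

/-- product of the norms of the linear parts -/
noncomputable def rho (A : ℕ → (E ≃L[ℂ] E)) (t : ℕ) : ℝ :=
  ∏ j ∈ Finset.range t, ‖(A j : E →L[ℂ] E)‖

/-- product of the moduli of the determinants of the linear parts -/
noncomputable def dd (A : ℕ → (E ≃L[ℂ] E)) (t : ℕ) : ℝ :=
  ∏ j ∈ Finset.range t, ‖dt (A j : E →L[ℂ] E)‖

/-- the normalised sequences -/
structure Setup (C D η c : ℝ) (f : ℕ → (E ≃ E)) (A : ℕ → (E ≃L[ℂ] E))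
    (B : ℕ → (E →L[ℂ] E →L[ℂ] E)) : Prop where
  hC0 : 0 < C
  hCD : C ≤ D
  hD1 : D < 1
  hη0 : 0 < η
  hη8 : η ≤ 1 / 8
  hCη : D ^ (3 - 4 * η) ≤ C
  hc0 : 0 ≤ c
  hc : 100 * c ≤ C ^ 2 * (1 - D)
  aut : ∀ n, IsAut (f n)
  zero : ∀ n, f n 0 = 0
  low : ∀ n x, C * ‖x‖ ≤ ‖A n x‖
  upp : ∀ n x, ‖A n x‖ ≤ D * ‖x‖
  lin : ∀ n x, ‖x‖ ≤ 3 → ‖f n x - A n x‖ ≤ c * ‖x‖ ^ 2
  bil : ∀ n x y, ‖B n x y‖ ≤ c * ‖x‖ * ‖y‖
  sym : ∀ n x y, B n x y = B n y x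
  cub : ∀ n x, ‖x‖ ≤ 3 → ‖f n x - A n x - B n x x‖ ≤ c * ‖x‖ ^ 3
  jc : ∀ n x, ‖x‖ ≤ 3 → ‖dt (A n : E →L[ℂ] E)‖ * (1 - c * ‖x‖) ≤ jac (f n) x

/-- `G'` is an admissible successor of `G` at time `t` -/
structure StepOK (C η c ε : ℝ) (f : ℕ → (E ≃ E)) (A : ℕ → (E ≃L[ℂ] E)) (t : ℕ)
    (G G' : E ≃ E) : Prop where
  aut : IsAut G'
  e1 : ∀ x y : E, ‖x‖ ≤ 2 → ‖y‖ ≤ 2 →
    ‖wd (f t (G y)) (G' x - f t (G x))‖ ≤ ε / 7 * rho A t ^ η * dd A (t + 1)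
  e2 : ∀ x y : E, ‖x‖ ≤ 2 → ‖y‖ ≤ 2 →
    ‖wd (G' y) (f t (G x) - G' x)‖ ≤ ε / 7 * rho A t ^ η * dd A (t + 1)
  size : ∀ x : E, ‖x‖ ≤ 2 →
    ‖G' x - A t (G x)‖ ≤ 3 * c / C * ‖(A t : E →L[ℂ] E)‖ * rho A t ^ (1 - 2 * η) * sz G
  area : ∀ P : ℝ, (∀ x y : E, ‖x‖ ≤ 2 → ‖y‖ ≤ 2 → ‖wd (G x) (G y)‖ ≤ P) →
    ∀ x y : E, ‖x‖ ≤ 2 → ‖y‖ ≤ 2 →
      ‖wd (G' x) (G' y)‖ ≤ ‖dt (A t : E →L[ℂ] E)‖ * (P + 5 * c / C ^ 2 * sz G ^ 3)
  jc : ∀ x : E, ‖x‖ ≤ 2 →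
    ‖dt (A t : E →L[ℂ] E)‖ * (1 - c * sz G) * jac G x ≤ jac G' x

/-- `G 0, …, G N` are admissible approximants of `up f 0, …, up f N` -/
structure Chain (C η c ε : ℝ) (f : ℕ → (E ≃ E)) (A : ℕ → (E ≃L[ℂ] E)) (N : ℕ)
    (G : ℕ → (E ≃ E)) : Prop where
  zero : G 0 = Equiv.refl E
  step : ∀ t, t < N → StepOK C η c ε f A t (G t) (G (t + 1))

/-- the shear `x ↦ x + (c (x ∧ n)²) n` -/
noncomputable def shear (c : ℂ) (n : E) : E ≃ E where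
  toFun x := x + (c * wd x n ^ 2) • n
  invFun x := x - (c * wd x n ^ 2) • n
  left_inv x := by
    have h : wd (x + (c * wd x n ^ 2) • n) n = wd x n := by
      simp [wd]; ring
    simp only [h, add_sub_cancel_right]
  right_inv x := by
    have h : wd (x - (c * wd x n ^ 2) • n) n = wd x n := by
      simp [wd]; ring
    simp only [h, sub_add_cancel]

/-- the maps of a train: `x ↦ Λ (G x + (c (G x ∧ n)²) n)` -/
noncomputable def Hm (G : E ≃ E) (Λ : E ≃L[ℂ] E) (c : ℂ) (n : E) : E ≃ E :=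
  (G.trans (shear c n)).trans Λ.toEquiv

/-- the composition `A (S+k-1) ∘ ⋯ ∘ A S` -/
noncomputable def lc (A : ℕ → (E ≃L[ℂ] E)) (S : ℕ) : ℕ → (E ≃L[ℂ] E)
  | 0 => ContinuousLinearEquiv.refl ℂ E
  | k + 1 => (lc A S k).trans (A (S + k))

/-- the sequence `G 0, …, G S` continued by the train with direction `n` and coefficients `c` -/
noncomputable def cat (A : ℕ → (E ≃L[ℂ] E)) (G : ℕ → (E ≃ E)) (S : ℕ) (n : E) (c : ℕ → ℂ)
    (t : ℕ) : E ≃ E :=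
  if t ≤ S then G t else Hm (G S) (lc A S (t - S)) (c (t - S)) n

/-- every time `t ≥ t1` is late -/
def Late (C η ε : ℝ) (A : ℕ → (E ≃L[ℂ] E)) (t1 : ℕ) : Prop :=
  ∀ t, t1 ≤ t → 60 / C * ((t : ℝ) + 1) * rho A t ^ η ≤ ε

/-- along complex lines through `0` the map `p` is given by polynomials of degree at most `M` -/
def PolyLine (p : E → E) (M : ℕ) : Prop :=
  ∀ x : E, ∃ q : Fin 2 → Polynomial ℂ, (∀ i, (q i).natDegree ≤ M) ∧
    ∀ (ζ : ℂ) (i : Fin 2), p (ζ • x) i = (q i).eval ζ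

/-- `G = p ∘ f^{t1}` with `p` of degree at most `M` -/
def PD (f : ℕ → (E ≃ E)) (t1 : ℕ) (G : E → E) (M : ℕ) : Prop :=
  ∃ p : E → E, (∀ x, G x = p (up f t1 x)) ∧ PolyLine p M

end Pool.Agent.Lib.MP_bdb4fe_an.G3
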