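import Pool.Agent.Lib.MP_bdb4fe_an.G3.RUN
import Pool.Agent.Lib.MP_bdb4fe_an.G3.CNF

/-!
Module EXT: one train.
-/

set_option autoImplicit false

namespace Pool.Agent.Lib.MP_bdb4fe_an.G3

open Filter Topology Metric Set

section
variable {C D η c : ℝ} {f : ℕ → (E ≃ E)} {A : ℕ → (E ≃L[ℂ] E)} {B : ℕ → (E →L[ℂ] E →L[ℂ] E)}
  {ε : ℝ}

theorem ext_cat_of_lt (G : ℕ → (E ≃ E)) (S : ℕ) (n : E) (a : ℕ → ℂ) (k : ℕ) (hk : 1 ≤ k) :
    cat A G S n a (S + k) = Hm (G S) (lc A S k) (a k) n := by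
  unfold cat
  rw [if_neg (by omega), Nat.add_sub_cancel_left]

theorem ext_cat_zero (G : ℕ → (E ≃ E)) (S : ℕ) (n : E) (a : ℕ → ℂ) :
    cat A G S n a S = G S := by
  unfold cat
  rw [if_pos le_rfl]

/-- the area with the fibre direction is not changed by the shears -/
theorem ext_wd (G : ℕ → (E ≃ E)) (S : ℕ) (n : E) (a : ℕ → ℂ) (k : ℕ) (y : E) :
    wd (cat A G S n a (S + k) y) (lc A S k n) = wd (lc A S k (G S y)) (lc A S k n) := by
  rcases Nat.eq_zero_or_pos k with rfl | hk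
  · rw [Nat.add_zero, ext_cat_zero]
    rfl
  · rw [ext_cat_of_lt G S n a k hk, Hm_apply, map_add, map_smul, wd_add_left, wd_smul_left,
      wd_self, mul_zero, add_zero]

theorem ext_rho_small (h : Setup C D η c f A B) (hε : 0 < ε) (hε1 : ε ≤ 1) {t1 : ℕ}
    (hL : Late C η ε A t1) (t : ℕ) (ht : t1 ≤ t) : 3 * rho A t ^ (2 * η) ≤ C := by
  have h1 := hL t ht
  have hρ := rho_pos h t
  have hp : 0 < rho A t ^ η := Real.rpow_pos_of_pos hρ _
  have hC0 := h.hC0
  have hC1 : C ≤ 1 := h.hCD.trans h.hD1.le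
  have h2 : rho A t ^ (2 * η) = rho A t ^ η * rho A t ^ η := by
    rw [← Real.rpow_add hρ]; ring_nf
  have h3 : 60 / C * rho A t ^ η ≤ 1 := by
    have : 60 / C * 1 * rho A t ^ η ≤ 60 / C * ((t : ℝ) + 1) * rho A t ^ η := by
      apply mul_le_mul_of_nonneg_right _ hp.le
      apply mul_le_mul_of_nonneg_left _ (by positivity)
      have : (0 : ℝ) ≤ t := Nat.cast_nonneg t
      linarith
    linarith
  have h4 : rho A t ^ η ≤ C / 60 := by
    rw [div_mul_eq_mul_div, div_le_iff₀ hC0] at h3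
    linarith
  rw [h2]
  nlinarith

/-- one train -/
theorem extend (h : Setup C D η c f A B) (hε : 0 < ε) (hε1 : ε ≤ 1) {t1 : ℕ}
    (hL : Late C η ε A t1) (S N : ℕ) (hS : t1 ≤ S) (hSN : S < N) (G : ℕ → (E ≃ E))
    (hG : Chain C η c ε f A S G) (hnd : ε * rho A S ^ η * dd A S < sz (G S) ^ 3) :
    ∃ (n : E) (a : ℕ → ℂ), a 0 = 0 ∧
      (Chain C η c ε f A N (cat A G S n a) ∨
       ∃ k, 1 ≤ k ∧ S + k < N ∧ Chain C η c ε f A (S + k) (cat A G S n a) ∧
        ε * rho A (S + k) ^ η * dd A (S + k) < sz (cat A G S n a (S + k)) ^ 3 ∧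
        sz (cat A G S n a (S + k)) / rho A (S + k) ≤
          4 / C * (sz (G S) / rho A S) ^ 2 * rho A S ^ (2 * η) +
            sz (G S) / rho A S * rho A S ^ (1 - 2 * η)) := by
  classical
  have hC0 := h.hC0
  have hC1 : C ≤ 1 := h.hCD.trans h.hD1.le
  have hη0 := h.hη0
  have hη8 := h.hη8
  have hρS := rho_pos h S
  have hGS : IsAut (G S) := chain_aut h hG S le_rfl
  have hcont : Continuous (G S) := hGS.1.continuous
  have hs0 : 0 < sz (G S) := sz_pos (G S) hcont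
  choose n x0 hn hx0 hmax hdir using fun j => direction (A := A) S j (G S) hcont
  -- the first direction works
  have hgood1 : ∃ a : ℕ → ℂ, a 0 = 0 ∧ Chain C η c ε f A (S + 1) (cat A G S (n 1) a) := by
    rcases run_alt h hε hL S hS G hG (n 1) (hn 1) 1 with h1 | ⟨k', hk', a, _, _, _, hbad⟩
    · exact h1
    · exfalso
      have hk0 : k' = 0 := by omega
      subst hk0
      have hb := hbad (x0 1) (hx0 1)
      rw [Nat.add_zero, ext_cat_zero] at hb
      have hb' : ‖wd (G S (x0 1)) (n 1)‖ <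
          sz (G S) ^ 2 * rho A S ^ (-(1 - 2 * η)) * ‖n 1‖ := hb
      have hlc1 : ∀ x, lc A S 1 x = A S x := fun x => rfl
      have hd1 := hdir 1
      have hm1 := hmax 1
      simp only [hlc1] at hd1 hm1
      -- longest vector
      obtain ⟨xs, hxs, hxs2⟩ := exists_sz (G S) hcont
      have hv : C * sz (G S) ≤ ‖A S (G S (x0 1))‖ := by
        rw [← hxs2]
        exact (h.low S _).trans (hm1 xs hxs)
      have hnA := norm_A h S
      have hnA1 : ‖(A S : E →L[ℂ] E)‖ ≤ 1 := hnA.2.trans h.hD1.le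
      have hw : ‖wd (A S (G S (x0 1))) (A S (n 1))‖ =
          ‖dt (A S : E →L[ℂ] E)‖ * ‖wd (G S (x0 1)) (n 1)‖ := by
        rw [← norm_mul, ← wd_map]; rfl
      have hdm : ‖dt (A S : E →L[ℂ] E)‖ * ‖n 1‖ ≤ ‖(A S : E →L[ℂ] E)‖ * ‖A S (n 1)‖ :=
        norm_dt_mul_le (A S : E →L[ℂ] E) (n 1)
      have hdt0 := (norm_dtA h S).2
      have hn1 : 0 < ‖n 1‖ := norm_pos_iff.2 (hn 1)
      have hAn : ‖dt (A S : E →L[ℂ] E)‖ * ‖n 1‖ ≤ ‖A S (n 1)‖ := by
        have : ‖(A S : E →L[ℂ] E)‖ * ‖A S (n 1)‖ ≤ 1 * ‖A S (n 1)‖ :=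
          mul_le_mul_of_nonneg_right hnA1 (norm_nonneg _)
        linarith
      have hkey : C * sz (G S) * ‖n 1‖ ≤ ‖wd (G S (x0 1)) (n 1)‖ := by
        have h1 : C * sz (G S) * (‖dt (A S : E →L[ℂ] E)‖ * ‖n 1‖) ≤
            ‖dt (A S : E →L[ℂ] E)‖ * ‖wd (G S (x0 1)) (n 1)‖ := by
          rw [← hw, hd1]
          exact mul_le_mul hv hAn (by positivity) (norm_nonneg _)
        have h2 : ‖dt (A S : E →L[ℂ] E)‖ * (C * sz (G S) * ‖n 1‖) ≤
            ‖dt (A S : E →L[ℂ] E)‖ * ‖wd (G S (x0 1)) (n 1)‖ := by linarith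
        exact le_of_mul_le_mul_left h2 hdt0
      have hs3 := chain_size h hG S le_rfl
      have hrs := ext_rho_small h hε hε1 hL S hS
      have hpow : rho A S ^ (-(1 - 2 * η)) * rho A S = rho A S ^ (2 * η) := by
        nth_rewrite 2 [← Real.rpow_one (rho A S)]
        rw [← Real.rpow_add hρS]
        congr 1
        ring
      have hq : 0 < rho A S ^ (-(1 - 2 * η)) := Real.rpow_pos_of_pos hρS _
      have h5 : sz (G S) ^ 2 * rho A S ^ (-(1 - 2 * η)) ≤ C * sz (G S) := by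
        have h6 : sz (G S) * rho A S ^ (-(1 - 2 * η)) ≤ C := by
          calc sz (G S) * rho A S ^ (-(1 - 2 * η)) ≤ 3 * rho A S * rho A S ^ (-(1 - 2 * η)) :=
                mul_le_mul_of_nonneg_right hs3 hq.le
            _ = 3 * rho A S ^ (2 * η) := by rw [← hpow]; ring
            _ ≤ C := hrs
        calc sz (G S) ^ 2 * rho A S ^ (-(1 - 2 * η))
            = sz (G S) * (sz (G S) * rho A S ^ (-(1 - 2 * η))) := by ring
          _ ≤ sz (G S) * C := mul_le_mul_of_nonneg_left h6 hs0.le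
          _ = C * sz (G S) := by ring
      have h7 : sz (G S) ^ 2 * rho A S ^ (-(1 - 2 * η)) * ‖n 1‖ ≤ C * sz (G S) * ‖n 1‖ :=
        mul_le_mul_of_nonneg_right h5 hn1.le
      linarith
  obtain ⟨K, rfl⟩ : ∃ K, N = S + K := Nat.exists_eq_add_of_lt hSN |>.elim fun k hk =>
    ⟨k + 1, by omega⟩
  have hK : 1 ≤ K := by omega
  by_cases hgK : ∃ a : ℕ → ℂ, a 0 = 0 ∧ Chain C η c ε f A (S + K) (cat A G S (n K) a)
  · obtain ⟨a, ha, hc⟩ := hgK
    exact ⟨n K, a, ha, Or.inl hc⟩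
  -- the largest good index
  set Good : ℕ → Prop := fun j => ∃ a : ℕ → ℂ, a 0 = 0 ∧
    Chain C η c ε f A (S + j) (cat A G S (n j) a) with hGood
  set js := Nat.findGreatest Good K with hjs
  have hjgood : Good js := Nat.findGreatest_spec (P := Good) hK hgood1
  have hj1 : 1 ≤ js := Nat.le_findGreatest hK hgood1
  have hjK : js ≤ K := Nat.findGreatest_le K
  have hjK' : js < K := by
    rcases Nat.lt_or_ge js K with h1 | h1
    · exact h1
    · exfalso
      have : js = K := le_antisymm hjK h1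
      rw [this] at hjgood
      exact hgK hjgood
  obtain ⟨a, ha, hc⟩ := hjgood
  rcases drop_ext h hε S G (n js) a ha js K hjK hc with ⟨a', ha', hc'⟩ |
    ⟨k1, hk1, hk1K, a', ha', hc', hnd'⟩
  · exact ⟨n js, a', ha', Or.inl hc'⟩
  refine ⟨n js, a', ha', Or.inr ⟨k1, by omega, by omega, hc', hnd', ?_⟩⟩
  -- the direction of k1 + 1 fails
  have hbad : ¬ Good (k1 + 1) := by
    intro hg
    rcases Nat.lt_or_ge (k1 + 1) K with h1 | h1
    · have := Nat.le_findGreatest (P := Good) h1.le hg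
      omega
    · have : k1 + 1 = K := by omega
      rw [this] at hg
      exact hgK hg
  rcases run_alt h hε hL S hS G hG (n (k1 + 1)) (hn (k1 + 1)) (k1 + 1) with h1 |
    ⟨k', hk', b, hb0, hbc, _, hbb⟩
  · exact absurd h1 hbad
  set M : ℝ := sz (cat A G S (n (k1 + 1)) b (S + k')) ^ 2 * rho A (S + k') ^ (-(1 - 2 * η))
    with hM
  have hMb : ∀ y : E, ‖y‖ ≤ 2 → ‖wd (lc A S k' (G S y)) (lc A S k' (n (k1 + 1)))‖ ≤
      M * ‖lc A S k' (n (k1 + 1))‖ := by
    intro y hy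
    rw [← ext_wd G S (n (k1 + 1)) b k' y]
    exact (hbb y hy).le
  have hcon := conflict h S k' k1 (by omega) (G S) (n (k1 + 1)) (hn _) (x0 (k1 + 1))
    (hx0 _) (hmax _) (hdir _) M hMb
  have hρk := rho_pos h (S + k1)
  have hρk1 := rho_pos h (S + k1 + 1)
  have hρk' := rho_pos h (S + k')
  -- size of the failed run
  have hsz' : sz (cat A G S (n (k1 + 1)) b (S + k')) ≤
      2 * (rho A (S + k') / rho A S) * sz (G S) := by
    have := chain_size_from h hbc S (S + k') (by omega) le_rfl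
    rw [ext_cat_zero] at this
    exact this
  have hszp : 0 ≤ sz (cat A G S (n (k1 + 1)) b (S + k')) :=
    (sz_pos _ (chain_aut h hbc (S + k') le_rfl).1.continuous).le
  have hpow2 : (rho A (S + k')) ^ 2 * rho A (S + k') ^ (-(1 - 2 * η)) =
      rho A (S + k') * rho A (S + k') ^ (2 * η) := by
    have e1 : rho A (S + k') ^ 2 = rho A (S + k') ^ (2 : ℝ) := by
      rw [Real.rpow_two]
    have e2 : rho A (S + k') * rho A (S + k') ^ (2 * η) = rho A (S + k') ^ (1 + 2 * η) := by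
      rw [Real.rpow_add hρk', Real.rpow_one]
    rw [e1, e2, ← Real.rpow_add hρk']
    congr 1
    ring
  have hMle : M ≤ 4 * (sz (G S) / rho A S) ^ 2 * rho A S ^ (2 * η) * rho A (S + k') := by
    have hq : 0 < rho A (S + k') ^ (-(1 - 2 * η)) := Real.rpow_pos_of_pos hρk' _
    have h1 : M ≤ (2 * (rho A (S + k') / rho A S) * sz (G S)) ^ 2 *
        rho A (S + k') ^ (-(1 - 2 * η)) := by
      rw [hM]
      apply mul_le_mul_of_nonneg_right _ hq.le
      exact pow_le_pow_left₀ hszp hsz' 2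
    have h2 : (2 * (rho A (S + k') / rho A S) * sz (G S)) ^ 2 * rho A (S + k') ^ (-(1 - 2 * η))
        = 4 * (sz (G S) / rho A S) ^ 2 * (rho A (S + k') ^ 2 *
          rho A (S + k') ^ (-(1 - 2 * η))) := by
      field_simp
      ring
    rw [h2, hpow2] at h1
    have h3 : rho A (S + k') ^ (2 * η) ≤ rho A S ^ (2 * η) :=
      Real.rpow_le_rpow hρk'.le (rho_anti h (by omega)) (by positivity)
    calc M ≤ 4 * (sz (G S) / rho A S) ^ 2 * (rho A (S + k') * rho A (S + k') ^ (2 * η)) := h1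
      _ ≤ 4 * (sz (G S) / rho A S) ^ 2 * (rho A (S + k') * rho A S ^ (2 * η)) := by
          apply mul_le_mul_of_nonneg_left _ (by positivity)
          exact mul_le_mul_of_nonneg_left h3 hρk'.le
      _ = 4 * (sz (G S) / rho A S) ^ 2 * rho A S ^ (2 * η) * rho A (S + k') := by ring
  set Y : ℝ := 4 * (sz (G S) / rho A S) ^ 2 * rho A S ^ (2 * η) with hY
  have hlcle : ∀ x : E, ‖x‖ ≤ 2 → ‖lc A S k1 (G S x)‖ ≤ rho A (S + k1) * (Y / C) := by
    intro x hx
    have h1 := hcon x hx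
    have h2 : rho A (S + k1 + 1) / rho A (S + k') * M ≤ rho A (S + k1 + 1) * Y := by
      calc rho A (S + k1 + 1) / rho A (S + k') * M
          ≤ rho A (S + k1 + 1) / rho A (S + k') * (Y * rho A (S + k')) :=
            mul_le_mul_of_nonneg_left hMle (by positivity)
        _ = rho A (S + k1 + 1) * Y := by field_simp
    have h3 : rho A (S + k1 + 1) ≤ rho A (S + k1) := rho_anti h (by omega)
    have hYp : 0 ≤ Y := by positivity
    have h4 : C * ‖lc A S k1 (G S x)‖ ≤ rho A (S + k1) * Y :=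
      h1.trans (h2.trans (mul_le_mul_of_nonneg_right h3 hYp))
    rw [← mul_div_assoc, le_div_iff₀ hC0]
    linarith
  -- size of the new map
  have hnew : sz (cat A G S (n js) a' (S + k1)) ≤ rho A (S + k1) * (Y / C) +
      rho A (S + k1) / rho A S * sz (G S) * rho A S ^ (1 - 2 * η) := by
    refine sz_le _ _ (fun x hx => ?_)
    have h1 := run_size h S k1 G (n js) a' hc' x hx
    have h2 := hlcle x hx
    calc ‖cat A G S (n js) a' (S + k1) x‖
        = ‖lc A S k1 (G S x) + (cat A G S (n js) a' (S + k1) x - lc A S k1 (G S x))‖ := by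
          congr 1; abel
      _ ≤ ‖lc A S k1 (G S x)‖ + ‖cat A G S (n js) a' (S + k1) x - lc A S k1 (G S x)‖ :=
          norm_add_le _ _
      _ ≤ _ := add_le_add h2 h1
  rw [div_le_iff₀ hρk]
  refine hnew.trans (le_of_eq ?_)
  rw [hY]
  field_simp

end

end Pool.Agent.Lib.MP_bdb4fe_an.G3
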