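import Pool.Agent.Lib.MP_bdb4fe_an.G3.MLG
import Pool.Agent.Lib.MP_bdb4fe_an.G3.GLB
import Pool.Agent.Lib.MP_bdb4fe_an.G3.DIL

/-!
Module FIN3: the final theorem.
-/

set_option autoImplicit false

namespace Pool.Agent.Lib.MP_bdb4fe_an.G3

open Filter Topology Metric Set

/-- the basin of a sequence of self-maps of `ℂ²` -/
def Basin (f : ℕ → E → E) : Set E :=
  {z | ∀ x : ℕ → E, x 0 = z → (∀ n, x (n + 1) = f n (x n)) → Tendsto x atTop (𝓝 0)}

/-- `Ω` is biholomorphic to `ℂ²` -/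
def BihC2 (Ω : Set E) : Prop :=
  ∃ φ ψ : E → E, Differentiable ℂ φ ∧ DifferentiableOn ℂ ψ Ω ∧ Set.range φ = Ω ∧
    (∀ z, ψ (φ z) = z) ∧ (∀ w ∈ Ω, φ (ψ w) = w)

theorem fin3_setup {C D η c : ℝ} {f : ℕ → (E ≃ E)} {A : ℕ → (E ≃L[ℂ] E)}
    {B : ℕ → (E →L[ℂ] E →L[ℂ] E)} (h : Setup C D η c f A B) :
    ∃ φ ψ : E → E, Differentiable ℂ φ ∧ DifferentiableOn ℂ ψ (basin f) ∧
      Set.range φ = basin f ∧ (∀ z, ψ (φ z) = z) ∧ (∀ w ∈ basin f, φ (ψ w) = w) := by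
  obtain ⟨n, G, h0, hn, h1, h2, h3, h4⟩ := glue_choice f h.aut (by
    intro m R ε hε
    exact main_lemma (mlg_shift h m) R ε hε)
  have hC0 := h.hC0
  have hD1 := h.hD1
  have hCD := h.hCD
  have hc0 := h.hc0
  have hc := h.hc
  have hCC : C ^ 2 ≤ 1 := by nlinarith
  have hcD : D + c < 1 := by nlinarith
  refine glue_limit f h.aut (D + c) hcD ?_ n G h0 hn h1 h2 h3 h4
  intro n x hx
  have e1 : f n x = A n x + (f n x - A n x) := by abel
  have e2 := h.lin n x (by linarith)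
  have e3 := h.upp n x
  have e4 : c * ‖x‖ ^ 2 ≤ c * ‖x‖ := by
    apply mul_le_mul_of_nonneg_left _ hc0
    nlinarith [norm_nonneg x]
  rw [e1]
  refine (norm_add_le _ _).trans ?_
  linarith

theorem final (C D : ℝ) (hC0 : 0 < C) (hCD : C ≤ D) (hD1 : D < 1) (hD3 : D ^ 3 < C)
    (e : ℕ → (E ≃ E)) (he : ∀ n, IsAut (e n))
    (hb : ∀ (n : ℕ) (z : E), ‖z‖ < 1 → C * ‖z‖ ≤ ‖e n z‖ ∧ ‖e n z‖ ≤ D * ‖z‖)
    (f : ℕ → E → E) (hf : ∀ n x, f n x = e n x) : BihC2 (Basin f) := by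
  obtain ⟨η, c, d, hd0, A, B, hS⟩ := setup_exists C D hC0 hCD hD1 hD3 e he hb
  obtain ⟨φ, ψ, h1, h2, h3, h4, h5⟩ := fin3_setup hS
  set g : ℕ → (E ≃ E) := fun n => dil d hd0 (e n) with hg
  have hdC : (d : ℂ) ≠ 0 := by exact_mod_cast hd0.ne'
  have hconj : ∀ n (x : E), f n ((d : ℂ) • x) = (d : ℂ) • g n x := by
    intro n x
    show f n ((d : ℂ) • x) = (d : ℂ) • ((d : ℂ)⁻¹ • e n ((d : ℂ) • x))
    rw [smul_inv_smul₀ hdC, hf]
  -- the basin of f is d times the basin of g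
  have hbas : ∀ x : E, (d : ℂ) • x ∈ Basin f ↔ x ∈ basin g := by
    intro x
    have hseq : ∀ u : ℕ → E, u 0 = (d : ℂ) • x → (∀ n, u (n + 1) = f n (u n)) →
        ∀ n, u n = (d : ℂ) • up g n x := by
      intro u h0 hs n
      induction n with
      | zero => exact h0
      | succ n ih => rw [hs n, ih, hconj]; rfl
    constructor
    · intro h
      have h6 := h (fun n => (d : ℂ) • up g n x) rfl (fun n => by
        show (d : ℂ) • g n (up g n x) = f n ((d : ℂ) • up g n x)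
        rw [hconj])
      have h7 : Tendsto (fun n => (d : ℂ)⁻¹ • ((d : ℂ) • up g n x)) atTop
          (𝓝 ((d : ℂ)⁻¹ • (0 : E))) := h6.const_smul _
      rw [smul_zero] at h7
      refine h7.congr (fun n => ?_)
      rw [inv_smul_smul₀ hdC]
    · intro h u h0 hs
      have h6 := hseq u h0 hs
      have h7 : Tendsto (fun n => (d : ℂ) • up g n x) atTop (𝓝 ((d : ℂ) • (0 : E))) :=
        Tendsto.const_smul (show Tendsto (fun n => up g n x) atTop (𝓝 0) from h) _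
      rw [smul_zero] at h7
      exact h7.congr (fun n => (h6 n).symm)
  have hbas' : ∀ w : E, w ∈ Basin f ↔ (d : ℂ)⁻¹ • w ∈ basin g := by
    intro w
    rw [← hbas, smul_inv_smul₀ hdC]
  refine ⟨fun z => (d : ℂ) • φ z, fun w => ψ ((d : ℂ)⁻¹ • w), ?_, ?_, ?_, ?_, ?_⟩
  · exact h1.const_smul (d : ℂ)
  · intro w hw
    have h6 : (d : ℂ)⁻¹ • w ∈ basin g := (hbas' w).1 hw
    have h7 : DifferentiableWithinAt ℂ (fun w : E => (d : ℂ)⁻¹ • w) (Basin f) w :=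
      (differentiable_id.const_smul ((d : ℂ)⁻¹)).differentiableAt.differentiableWithinAt
    exact DifferentiableWithinAt.comp w (h2 _ h6) h7 (fun w hw => (hbas' w).1 hw)
  · ext w
    constructor
    · rintro ⟨z, rfl⟩
      have : φ z ∈ basin g := by rw [← h3]; exact ⟨z, rfl⟩
      exact (hbas _).2 this
    · intro hw
      have h6 : (d : ℂ)⁻¹ • w ∈ basin g := (hbas' w).1 hw
      rw [← h3] at h6
      obtain ⟨z, hz⟩ := h6
      refine ⟨z, ?_⟩
      show (d : ℂ) • φ z = w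
      rw [hz, smul_inv_smul₀ hdC]
  · intro z
    show ψ ((d : ℂ)⁻¹ • ((d : ℂ) • φ z)) = z
    rw [inv_smul_smul₀ hdC, h4]
  · intro w hw
    show (d : ℂ) • φ (ψ ((d : ℂ)⁻¹ • w)) = w
    rw [h5 _ ((hbas' w).1 hw), smul_inv_smul₀ hdC]

end Pool.Agent.Lib.MP_bdb4fe_an.G3
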