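import Mathlib

/-!
Module NUM. Pure real analysis.
-/

set_option autoImplicit false

namespace Pool.Agent.Lib.MP_bdb4fe_an.G3

open Filter Topology

theorem num_small {η K : ℝ} (hη : 0 < η) (hK : 0 < K) :
    ∃ Y : ℝ, 0 < Y ∧ Y < 1 ∧ Y ^ η ≤ K := by
  obtain ⟨n, hn⟩ := exists_pow_lt_of_lt_one hK (show (1 / 2 : ℝ) < 1 by norm_num)
  have hm : 0 < min K (1 / 2) := lt_min hK (by norm_num)
  refine ⟨(min K (1 / 2)) ^ (1 / η), Real.rpow_pos_of_pos hm _, ?_, ?_⟩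
  · exact Real.rpow_lt_one hm.le (lt_of_le_of_lt (min_le_right _ _) (by norm_num)) (by positivity)
  · rw [← Real.rpow_mul hm.le, one_div_mul_cancel hη.ne', Real.rpow_one]
    exact min_le_left _ _

theorem num_step (C η ε : ℝ) (hC0 : 0 < C) (hC1 : C ≤ 1) (hη0 : 0 < η) (hη8 : η ≤ 1 / 8)
    (hε0 : 0 < ε) (hε1 : ε ≤ 1) :
    ∃ Y0 : ℝ, 0 < Y0 ∧ Y0 < 1 ∧ ∀ ρ y : ℝ, 0 < ρ → ρ ≤ 1 → 0 < y → y ≤ Y0 →
      ε * ρ ^ (1 - 3 * η) < y ^ 3 →
      4 / C * y ^ 2 * ρ ^ (2 * η) + y * ρ ^ (1 - 2 * η) ≤ y ^ (2 + 5 * η) ∧ ρ ≤ y := by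
  have hεη : 0 < ε ^ (2 * η) := Real.rpow_pos_of_pos hε0 _
  obtain ⟨Y1, hY1, hY11, hY1η⟩ := num_small (η := η) (K := C * ε ^ (2 * η) / 8) hη0 (by positivity)
  refine ⟨min Y1 (ε / 2), lt_min hY1 (by positivity), lt_of_le_of_lt (min_le_left _ _) hY11, ?_⟩
  intro ρ y hρ0 hρ1 hy0 hyY hlt
  have hy1 : y ≤ Y1 := hyY.trans (min_le_left _ _)
  have hy2 : y ≤ ε / 2 := hyY.trans (min_le_right _ _)
  have hy3 : y < 1 := lt_of_le_of_lt hy1 hY11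
  have hyη : y ^ η ≤ C * ε ^ (2 * η) / 8 :=
    (Real.rpow_le_rpow hy0.le hy1 hη0.le).trans hY1η
  set r : ℝ := ρ ^ (1 - 3 * η) with hr
  have hr0 : 0 < r := Real.rpow_pos_of_pos hρ0 _
  have hr1 : r < y ^ 3 / ε := by
    rw [lt_div_iff₀ hε0]
    linarith
  have hr2 : r ≤ y ^ 2 := by
    refine hr1.le.trans ?_
    rw [div_le_iff₀ hε0]
    have : y ≤ ε := by linarith
    nlinarith [sq_nonneg y]
  have hρr : ρ ≤ r := by
    calc ρ = ρ ^ (1 : ℝ) := (Real.rpow_one _).symm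
      _ ≤ ρ ^ (1 - 3 * η) := Real.rpow_le_rpow_of_exponent_ge hρ0 hρ1 (by linarith)
  have hyy : y ^ 2 ≤ y := by nlinarith
  refine ⟨?_, (hρr.trans hr2).trans hyy⟩
  -- first term
  have h1 : ρ ^ (2 * η) ≤ (y ^ 3 / ε) ^ (2 * η) := by
    calc ρ ^ (2 * η) ≤ r ^ (2 * η) := Real.rpow_le_rpow hρ0.le hρr (by positivity)
      _ ≤ _ := Real.rpow_le_rpow hr0.le hr1.le (by positivity)
  have h2 : (y ^ 3 / ε) ^ (2 * η) = y ^ (6 * η) / ε ^ (2 * η) := by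
    rw [Real.div_rpow (by positivity) hε0.le]
    congr 1
    rw [← Real.rpow_natCast y 3, ← Real.rpow_mul hy0.le]
    congr 1
    push_cast
    ring
  have h3 : y ^ (2 + 5 * η) = y ^ 2 * y ^ (5 * η) := by
    rw [Real.rpow_add hy0]
    congr 1
    exact_mod_cast Real.rpow_natCast y 2
  have h4 : y ^ (6 * η) = y ^ (5 * η) * y ^ η := by
    rw [← Real.rpow_add hy0]
    congr 1
    ring
  have hy5 : 0 < y ^ (5 * η) := Real.rpow_pos_of_pos hy0 _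
  have h5 : 4 / C * y ^ 2 * ρ ^ (2 * η) ≤ 1 / 2 * y ^ (2 + 5 * η) := by
    calc 4 / C * y ^ 2 * ρ ^ (2 * η) ≤ 4 / C * y ^ 2 * (y ^ (6 * η) / ε ^ (2 * η)) := by
          rw [← h2]
          gcongr
      _ = (4 / C * y ^ 2 * y ^ (5 * η) / ε ^ (2 * η)) * y ^ η := by rw [h4]; ring
      _ ≤ (4 / C * y ^ 2 * y ^ (5 * η) / ε ^ (2 * η)) * (C * ε ^ (2 * η) / 8) := by gcongr
      _ = 1 / 2 * (y ^ 2 * y ^ (5 * η)) := by field_simp; ring
      _ = _ := by rw [h3]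
  have h6 : y * ρ ^ (1 - 2 * η) ≤ 1 / 2 * y ^ (2 + 5 * η) := by
    have h7 : ρ ^ (1 - 2 * η) ≤ r :=
      Real.rpow_le_rpow_of_exponent_ge hρ0 hρ1 (by linarith)
    have h8 : y ^ (3 : ℝ) ≤ y ^ (2 + 5 * η) :=
      Real.rpow_le_rpow_of_exponent_ge hy0 hy3.le (by linarith)
    have h9 : y ^ (3 : ℝ) = y ^ 3 := by exact_mod_cast Real.rpow_natCast y 3
    calc y * ρ ^ (1 - 2 * η) ≤ y * (y ^ 3 / ε) := by
          have := h7.trans hr1.le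
          gcongr
      _ = (y / ε) * y ^ 3 := by ring
      _ ≤ (1 / 2) * y ^ 3 := by
          have : y / ε ≤ 1 / 2 := by
            rw [div_le_iff₀ hε0]
            linarith
          gcongr
      _ = 1 / 2 * y ^ (3 : ℝ) := by rw [h9]
      _ ≤ _ := by gcongr
  linarith

theorem num_first (C D η Y0 : ℝ) (hC0 : 0 < C) (hD0 : 0 < D) (hD1 : D < 1) (hη0 : 0 < η)
    (hη8 : η ≤ 1 / 8) (hY : 0 < Y0) :
    ∃ t2 : ℕ, ∀ t : ℕ, t2 ≤ t → ∀ ρ y : ℝ, 0 < ρ → ρ ≤ D ^ t → 0 < y → y ≤ 3 →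
      4 / C * y ^ 2 * ρ ^ (2 * η) + y * ρ ^ (1 - 2 * η) ≤ Y0 := by
  have hpw : ∀ e : ℝ, 0 < e → Tendsto (fun t : ℕ => ((D : ℝ) ^ t) ^ e) atTop (𝓝 0) := by
    intro e he
    have h1 : (fun t : ℕ => ((D : ℝ) ^ t) ^ e) = fun t : ℕ => (D ^ e) ^ t := by
      funext t
      rw [← Real.rpow_natCast, ← Real.rpow_mul hD0.le, mul_comm, Real.rpow_mul hD0.le,
        Real.rpow_natCast]
    rw [h1]
    exact tendsto_pow_atTop_nhds_zero_of_lt_one (Real.rpow_nonneg hD0.le _)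
      (Real.rpow_lt_one hD0.le hD1 he)
  have h2 : Tendsto (fun t : ℕ => 36 / C * (D ^ t) ^ (2 * η) + 3 * (D ^ t) ^ (1 - 2 * η)) atTop
      (𝓝 (36 / C * 0 + 3 * 0)) :=
    ((hpw _ (by positivity)).const_mul _).add ((hpw _ (by linarith)).const_mul _)
  rw [mul_zero, mul_zero, add_zero] at h2
  obtain ⟨t2, ht2⟩ := eventually_atTop.1 (h2.eventually (gt_mem_nhds hY))
  refine ⟨t2, fun t ht ρ y hρ0 hρ hy0 hy3 => ?_⟩
  refine le_trans ?_ (ht2 t ht).le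
  have hDt : 0 < D ^ t := by positivity
  have h3 : ρ ^ (2 * η) ≤ (D ^ t) ^ (2 * η) := Real.rpow_le_rpow hρ0.le hρ (by positivity)
  have h4 : ρ ^ (1 - 2 * η) ≤ (D ^ t) ^ (1 - 2 * η) := Real.rpow_le_rpow hρ0.le hρ (by linarith)
  have h5 : 0 ≤ ρ ^ (2 * η) := Real.rpow_nonneg hρ0.le _
  have h6 : 0 ≤ ρ ^ (1 - 2 * η) := Real.rpow_nonneg hρ0.le _
  have h7 : y ^ 2 ≤ 9 := by nlinarith
  calc 4 / C * y ^ 2 * ρ ^ (2 * η) + y * ρ ^ (1 - 2 * η) ≤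
      4 / C * 9 * (D ^ t) ^ (2 * η) + 3 * (D ^ t) ^ (1 - 2 * η) := by gcongr
    _ = _ := by ring

theorem num_final (D η Y0 Λ : ℝ) (hD0 : 0 < D) (hD1 : D < 1) (hη0 : 0 < η) (hY0 : 0 < Y0)
    (hY1 : Y0 < 1) (hΛ : 1 ≤ Λ) :
    ∃ N0 : ℕ, ∀ N : ℕ, N0 ≤ N → ∀ (j : ℕ) (ρ : ℝ), 0 < ρ → ρ ≤ D ^ N →
      (j ≤ 2 ∨ ρ ≤ Y0 ^ ((2 + 5 * η) ^ (j - 3) : ℝ)) →
      2 * (((2 ^ j : ℕ) : ℝ) + 1) * Λ ^ (2 ^ j) * (3 * ρ) ≤ 1 / 2 := by
  have hΛ0 : 0 < Λ := by linarith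
  obtain ⟨L, hL⟩ : ∃ L, L = -Real.log D := ⟨_, rfl⟩
  obtain ⟨M, hM⟩ : ∃ M, M = -Real.log Y0 := ⟨_, rfl⟩
  obtain ⟨lam, hlam⟩ : ∃ lam, lam = Real.log Λ := ⟨_, rfl⟩
  obtain ⟨b, hb⟩ : ∃ b, b = 2 + 5 * η := ⟨_, rfl⟩
  have hL0 : 0 < L := by rw [hL]; linarith [Real.log_neg hD0 hD1]
  have hM0 : 0 < M := by rw [hM]; linarith [Real.log_neg hY0 hY1]
  have hlam0 : 0 ≤ lam := by rw [hlam]; exact Real.log_nonneg hΛ
  have hb2 : 2 < b := by rw [hb]; linarith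
  set K : ℝ := lam + 4 with hK
  have hK0 : 0 < K := by linarith
  -- the main criterion
  have hcrit : ∀ (j : ℕ) (ρ : ℝ), 0 < ρ → K * 2 ^ j ≤ -Real.log ρ →
      2 * (((2 ^ j : ℕ) : ℝ) + 1) * Λ ^ (2 ^ j) * (3 * ρ) ≤ 1 / 2 := by
    intro j ρ hρ hx
    have h2j : (1 : ℝ) ≤ 2 ^ j := one_le_pow₀ (by norm_num)
    have h1 : Real.log (12 * ((2 : ℝ) ^ j + 1) * Λ ^ (2 ^ j) * ρ) ≤ 0 := by
      rw [Real.log_mul (by positivity) hρ.ne', Real.log_mul (by positivity) (by positivity),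
        Real.log_mul (by norm_num) (by positivity), Real.log_pow]
      have h2 : Real.log ((2 : ℝ) ^ j + 1) ≤ 2 ^ j := by
        have := Real.log_le_sub_one_of_pos (show (0 : ℝ) < 2 ^ j + 1 by positivity)
        linarith
      have h3 : Real.log 12 ≤ 3 := by
        have h4 : (12 : ℝ) ≤ Real.exp 1 ^ 3 := by
          have := Real.exp_one_gt_d9
          have h5 : (2.7 : ℝ) ≤ Real.exp 1 := by linarith
          calc (12 : ℝ) ≤ 2.7 ^ 3 := by norm_num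
            _ ≤ Real.exp 1 ^ 3 := by gcongr
        have h6 : Real.exp 1 ^ 3 = Real.exp 3 := by
          rw [← Real.exp_nat_mul]
          norm_num
        rw [h6] at h4
        calc Real.log 12 ≤ Real.log (Real.exp 3) := Real.log_le_log (by norm_num) h4
          _ = 3 := Real.log_exp 3
      push_cast
      rw [← hlam]
      have h5 : K * 2 ^ j = 2 ^ j * lam + 4 * 2 ^ j := by rw [hK]; ring
      rw [h5] at hx
      nlinarith
    have hpos : 0 < 12 * ((2 : ℝ) ^ j + 1) * Λ ^ (2 ^ j) * ρ := by positivity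
    have h2 := (Real.log_nonpos_iff hpos.le).1 h1
    push_cast
    linarith
  -- choice of `j0`
  have hq : 1 < b / 2 := by linarith
  have ht : Tendsto (fun n : ℕ => (b / 2) ^ n) atTop atTop := tendsto_pow_atTop_atTop_of_one_lt hq
  obtain ⟨i0, hi0⟩ := eventually_atTop.1 (ht.eventually_ge_atTop (8 * K / M))
  obtain ⟨N0, hN0⟩ := exists_nat_ge (K * 2 ^ (i0 + 3) / L)
  refine ⟨N0, fun N hN j ρ hρ0 hρN hj => ?_⟩
  apply hcrit j ρ hρ0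
  have hlogN : L * N ≤ -Real.log ρ := by
    have h1 := Real.log_le_log hρ0 hρN
    rw [Real.log_pow] at h1
    rw [hL]
    linarith
  have hbase : K * 2 ^ (i0 + 3) ≤ -Real.log ρ := by
    rw [div_le_iff₀ hL0] at hN0
    have h1 : (N0 : ℝ) ≤ N := by exact_mod_cast hN
    have h2 : (N0 : ℝ) * L ≤ L * N := by nlinarith
    linarith
  rcases le_or_gt j (i0 + 3) with hle | hgt
  · refine le_trans ?_ hbase
    have : (2 : ℝ) ^ j ≤ 2 ^ (i0 + 3) := pow_le_pow_right₀ (by norm_num) hle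
    gcongr
  · rcases hj with hj | hj
    · omega
    · obtain ⟨i, rfl⟩ : ∃ i, j = i + 3 := ⟨j - 3, by omega⟩
      have h1 := Real.log_le_log hρ0 hj
      rw [Real.log_rpow hY0, Nat.add_sub_cancel] at h1
      have h2 : M * b ^ i ≤ -Real.log ρ := by
        have h3 : ((2 + 5 * η) ^ i : ℝ) * Real.log Y0 = -(M * b ^ i) := by
          rw [hM, hb]
          ring
        rw [h3] at h1
        linarith
      refine le_trans ?_ h2
      have h4 := hi0 i (by omega)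
      rw [div_pow, div_le_div_iff₀ hM0 (by positivity)] at h4
      calc K * 2 ^ (i + 3) = 8 * K * 2 ^ i := by rw [pow_add]; ring
        _ ≤ b ^ i * M := h4
        _ = M * b ^ i := mul_comm _ _

end Pool.Agent.Lib.MP_bdb4fe_an.G3
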