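import Pool.Agent.Lib.MP_bdb4fe_an.G3.EXT
import Pool.Agent.Lib.MP_bdb4fe_an.G3.NUM
import Pool.Agent.Lib.MP_bdb4fe_an.G3.DEG
import Pool.Agent.Lib.MP_bdb4fe_an.G3.GLA

/-!
Module ITR: iteration of trains.
-/

set_option autoImplicit false

namespace Pool.Agent.Lib.MP_bdb4fe_an.G3

open Filter Topology Metric Set

theorem itr_pd_mono (f : ℕ → (E ≃ E)) (t1 : ℕ) (G : E → E) (M M' : ℕ) (hM : M ≤ M')
    (h : PD f t1 G M) : PD f t1 G M' := by
  obtain ⟨p, h1, h2⟩ := h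
  refine ⟨p, h1, fun x => ?_⟩
  obtain ⟨q, h3, h4⟩ := h2 x
  exact ⟨q, fun i => (h3 i).trans hM, h4⟩

section
variable {C D η c : ℝ} {f : ℕ → (E ≃ E)} {A : ℕ → (E ≃L[ℂ] E)} {B : ℕ → (E →L[ℂ] E →L[ℂ] E)}
  {ε : ℝ}

theorem itr_exact (h : Setup C D η c f A B) (hε : 0 < ε) (N : ℕ) :
    Chain C η c ε f A N (fun t => up f t) := by
  induction N with
  | zero => exact ⟨rfl, fun t ht => absurd ht (Nat.not_lt_zero t)⟩
  | succ N ih =>
    refine ⟨rfl, fun t ht => ?_⟩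
    rcases Nat.lt_or_ge t N with h1 | h1
    · exact ih.step t h1
    · have h2 : t = N := by omega
      subst h2
      exact exact_step h ε hε t (up f t) (isAut_up f h.aut t) (chain_size h ih t le_rfl)

theorem itr_Y0_pow (Y0 η : ℝ) (hY0 : 0 < Y0) (hY1 : Y0 < 1) (hη0 : 0 < η) (i : ℕ) :
    Y0 ^ ((2 + 5 * η) ^ i : ℝ) ≤ Y0 := by
  have h1 : (1 : ℝ) ≤ (2 + 5 * η) ^ i := one_le_pow₀ (by linarith)
  calc Y0 ^ ((2 + 5 * η) ^ i : ℝ) ≤ Y0 ^ (1 : ℝ) :=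
        Real.rpow_le_rpow_of_exponent_ge hY0 hY1.le h1
    _ = Y0 := Real.rpow_one _

theorem itr_step (h : Setup C D η c f A B) (hε : 0 < ε) (hε1 : ε ≤ 1) {t1 : ℕ}
    (hL : Late C η ε A t1) (Y0 : ℝ) (hY0 : 0 < Y0) (hY1 : Y0 < 1)
    (hstep : ∀ ρ y : ℝ, 0 < ρ → ρ ≤ 1 → 0 < y → y ≤ Y0 →
      ε * ρ ^ (1 - 3 * η) < y ^ 3 →
      4 / C * y ^ 2 * ρ ^ (2 * η) + y * ρ ^ (1 - 2 * η) ≤ y ^ (2 + 5 * η) ∧ ρ ≤ y)
    (hfirst : ∀ t : ℕ, t1 ≤ t → ∀ ρ y : ℝ, 0 < ρ → ρ ≤ D ^ t → 0 < y → y ≤ 3 →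
      4 / C * y ^ 2 * ρ ^ (2 * η) + y * ρ ^ (1 - 2 * η) ≤ Y0)
    (N : ℕ) (d : ℕ) : ∀ (S : ℕ), N = S + d → t1 ≤ S → ∀ (G : ℕ → (E ≃ E)) (i : ℕ),
      Chain C η c ε f A S G → ε * rho A S ^ η * dd A S < sz (G S) ^ 3 →
      PD f t1 (G S) (2 ^ (i + 1)) →
      (i = 0 ∨ sz (G S) / rho A S ≤ Y0 ^ ((2 + 5 * η) ^ (i - 1) : ℝ)) →
      ∃ (G' : ℕ → (E ≃ E)) (j : ℕ), Chain C η c ε f A N G' ∧ PD f t1 (G' N) (2 ^ j) ∧
        (j ≤ 2 ∨ rho A N ≤ Y0 ^ ((2 + 5 * η) ^ (j - 3) : ℝ)) := by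
  induction d using Nat.strong_induction_on with
  | _ d ih =>
  intro S hNS hS G i hG hnd hPD hy
  have hρS := rho_pos h S
  have hρS1 := rho_le_one h S
  have hη0 := h.hη0
  have hη8 := h.hη8
  have hs0 : 0 < sz (G S) := sz_pos (G S) (chain_aut h hG S le_rfl).1.continuous
  have hy0 : 0 < sz (G S) / rho A S := div_pos hs0 hρS
  -- nondroppable
  have hnd2 : ε * rho A S ^ (1 - 3 * η) < (sz (G S) / rho A S) ^ 3 := by
    have h1 := dd_ge h S
    have hp : 0 < rho A S ^ η := Real.rpow_pos_of_pos hρS _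
    have h2 : ε * rho A S ^ η * rho A S ^ (4 - 4 * η) < sz (G S) ^ 3 :=
      lt_of_le_of_lt (mul_le_mul_of_nonneg_left h1 (by positivity)) hnd
    rw [div_pow, lt_div_iff₀ (by positivity)]
    refine lt_of_le_of_lt (le_of_eq ?_) h2
    have e3 : rho A S ^ 3 = rho A S ^ (3 : ℝ) := by
      rw [← Real.rpow_natCast]; norm_num
    rw [mul_assoc, mul_assoc, e3, ← Real.rpow_add hρS, ← Real.rpow_add hρS]
    congr 2
    ring
  have hysmall : i ≠ 0 → sz (G S) / rho A S ≤ Y0 ^ ((2 + 5 * η) ^ (i - 1) : ℝ) := by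
    intro hi
    rcases hy with h1 | h1
    · exact absurd h1 hi
    · exact h1
  have hρle : i ≠ 0 → rho A S ≤ Y0 ^ ((2 + 5 * η) ^ (i - 1) : ℝ) := by
    intro hi
    have h1 := hysmall hi
    have h2 := h1.trans (itr_Y0_pow Y0 η hY0 hY1 hη0 (i - 1))
    exact (hstep (rho A S) _ hρS hρS1 hy0 h2 hnd2).2.trans h1
  rcases Nat.eq_zero_or_pos d with hd | hd
  · subst hd
    have hN : N = S := by omega
    subst hN
    refine ⟨G, i + 1, hG, hPD, ?_⟩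
    rcases Nat.lt_or_ge i 2 with h1 | h1
    · left; omega
    · right
      have h2 := hρle (by omega)
      refine h2.trans ?_
      apply Real.rpow_le_rpow_of_exponent_ge hY0 hY1.le
      apply pow_le_pow_right₀ (by linarith)
      omega
  obtain ⟨n, a, ha, hcase⟩ := extend h hε hε1 hL S N hS (by omega) G hG hnd
  rcases hcase with hc | ⟨k, hk1, hkN, hc, hnd', hys⟩
  · refine ⟨cat A G S n a, i + 2, hc, ?_, ?_⟩
    · rw [hNS, ext_cat_of_lt G S n a d hd]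
      have h1 := pd_Hm f t1 (G S) (2 ^ (i + 1)) hPD (lc A S d) (a d) n
      have e1 : 2 * 2 ^ (i + 1) = 2 ^ (i + 2) := by ring
      rw [e1] at h1
      exact h1
    · rcases Nat.eq_zero_or_pos i with hi | hi
      · left; omega
      · right
        have h1 := hρle (by omega)
        have h2 : rho A N ≤ rho A S := rho_anti h (by omega)
        have e1 : i + 2 - 3 = i - 1 := by omega
        rw [e1]
        exact h2.trans h1
  · refine ih (d - k) (by omega) (S + k) (by omega) (by omega) (cat A G S n a) (i + 1) hc hnd'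
      ?_ ?_
    · rw [ext_cat_of_lt G S n a k hk1]
      have h1 := pd_Hm f t1 (G S) (2 ^ (i + 1)) hPD (lc A S k) (a k) n
      have e1 : 2 * 2 ^ (i + 1) = 2 ^ (i + 1 + 1) := by ring
      rw [e1] at h1
      exact h1
    · right
      refine hys.trans ?_
      have e0 : i + 1 - 1 = i := by omega
      rw [e0]
      rcases Nat.eq_zero_or_pos i with hi | hi
      · subst hi
        rw [pow_zero, Real.rpow_one]
        refine hfirst S hS _ _ hρS (rho_le_pow h S) hy0 ?_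
        rw [div_le_iff₀ hρS]
        exact chain_size h hG S le_rfl
      · have h1 := hysmall (by omega)
        have h2 := h1.trans (itr_Y0_pow Y0 η hY0 hY1 hη0 (i - 1))
        have h3 := (hstep (rho A S) _ hρS hρS1 hy0 h2 hnd2).1
        refine h3.trans ?_
        calc (sz (G S) / rho A S) ^ (2 + 5 * η)
            ≤ (Y0 ^ ((2 + 5 * η) ^ (i - 1) : ℝ)) ^ (2 + 5 * η) :=
              Real.rpow_le_rpow hy0.le h1 (by linarith)
          _ = Y0 ^ ((2 + 5 * η) ^ i : ℝ) := by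
              rw [← Real.rpow_mul hY0.le]
              congr 1
              have : i = (i - 1) + 1 := by omega
              conv_rhs => rw [this]
              rw [pow_succ]

/-- iteration of trains -/
theorem iterate (h : Setup C D η c f A B) (hε : 0 < ε) (hε1 : ε ≤ 1) :
    ∃ (t1 : ℕ) (Y0 : ℝ), 0 < Y0 ∧ Y0 < 1 ∧ ∀ N, t1 ≤ N →
      ∃ (G : ℕ → (E ≃ E)) (j : ℕ), Chain C η c ε f A N G ∧ PD f t1 (G N) (2 ^ j) ∧
        (j ≤ 2 ∨ rho A N ≤ Y0 ^ ((2 + 5 * η) ^ (j - 3) : ℝ)) := by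
  have hC0 := h.hC0
  have hC1 : C ≤ 1 := h.hCD.trans h.hD1.le
  have hD0 : 0 < D := lt_of_lt_of_le hC0 h.hCD
  obtain ⟨Y0, hY0, hY1, hstep⟩ := num_step C η ε hC0 hC1 h.hη0 h.hη8 hε hε1
  obtain ⟨t2, ht2⟩ := num_first C D η Y0 hC0 hD0 h.hD1 h.hη0 h.hη8 hY0
  obtain ⟨t3, ht3⟩ := late_exists h ε hε
  set t1 := max t2 t3 with ht1
  have hL : Late C η ε A t1 := fun t ht => ht3 t ((le_max_right _ _).trans ht)
  have hfirst : ∀ t : ℕ, t1 ≤ t → ∀ ρ y : ℝ, 0 < ρ → ρ ≤ D ^ t → 0 < y → y ≤ 3 →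
      4 / C * y ^ 2 * ρ ^ (2 * η) + y * ρ ^ (1 - 2 * η) ≤ Y0 := fun t ht =>
    ht2 t ((le_max_left _ _).trans ht)
  refine ⟨t1, Y0, hY0, hY1, fun N hN => ?_⟩
  have hex := itr_exact (ε := ε) h hε t1
  have hPD1 : PD f t1 (up f t1) 1 := ⟨fun x => x, fun x => rfl, polyLine_id⟩
  obtain ⟨m, rfl⟩ := Nat.exists_eq_add_of_le hN
  rcases Nat.eq_zero_or_pos m with hm | hm
  · subst hm
    exact ⟨_, 0, hex, by simpa using hPD1, Or.inl (by omega)⟩
  have hc0 : Chain C η c ε f A (t1 + 0) (cat A (fun t => up f t) t1 (0 : E) (fun _ => 0)) := by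
    refine chain_congr hex (fun t ht => ?_)
    unfold cat
    rw [if_pos (by omega)]
  have hPDk : ∀ (a : ℕ → ℂ) (k : ℕ), PD f t1 (cat A (fun t => up f t) t1 (0 : E) a (t1 + k)) 2 := by
    intro a k
    rcases Nat.eq_zero_or_pos k with hk | hk
    · subst hk
      rw [Nat.add_zero, ext_cat_zero]
      exact itr_pd_mono f t1 _ 1 2 (by omega) hPD1
    · rw [ext_cat_of_lt _ _ _ _ k hk]
      exact pd_Hm f t1 (up f t1) 1 hPD1 (lc A t1 k) (a k) 0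
  rcases drop_ext h hε t1 (fun t => up f t) 0 (fun _ => 0) rfl 0 m (Nat.zero_le m) hc0 with
    ⟨a', _, hc⟩ | ⟨k1, _, hk1, a', _, hc, hnd⟩
  · exact ⟨_, 1, hc, by simpa using hPDk a' m, Or.inl (by omega)⟩
  · exact itr_step h hε hε1 hL Y0 hY0 hY1 hstep hfirst (t1 + m) (m - k1) (t1 + k1) (by omega)
      (by omega) _ 0 hc hnd (by simpa using hPDk a' k1) (Or.inl rfl)

end

end Pool.Agent.Lib.MP_bdb4fe_an.G3
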