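import Pool.Agent.Lib.MP_bdb4fe_an.G3.SZF

/-!
Module KEP. The kept step: at time `t` the quadratic part of `f t` is replaced by one shear along
the fibre direction `n`.
-/

set_option autoImplicit false

namespace Pool.Agent.Lib.MP_bdb4fe_an.G3

open Filter Topology Metric Set

/-- the numerical part -/
theorem kep_num {C c a Δ s P φ R k : ℝ} (hC0 : 0 < C) (hC1 : C ≤ 1) (hc0 : 0 ≤ c)
    (hc : 100 * c ≤ C ^ 2) (ha0 : C ≤ a) (hΔ : C * a ≤ Δ) (hs : 0 < s)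
    (hsR : s ≤ 3 * R) (hR0 : 0 < R) (hP0 : 0 ≤ P) (hφ0 : 0 < φ) (hφ : 3 / 4 * s ≤ φ * R)
    (hk : k = c / (C * φ)) :
    k * s ≤ 4 / 3 * (c / C * R) ∧
    37 / 9 * (k * s) * P * Δ + a * s * (3 * c * P + c * s ^ 3) + 3 * c * (k * s) * s ^ 3 ≤
      Δ * (27 * c / C ^ 3 * (P + s ^ 3) * R) ∧
    37 / 9 * (k * s) * P * Δ + a * s * (3 * c * P + c * s ^ 3) + 9 * c * (k * s) * a * s ^ 3 ≤
      Δ * (27 * c / C ^ 3 * (P + s ^ 3) * R) := by
  have ha : 0 < a := lt_of_lt_of_le hC0 ha0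
  have hΔ0 : 0 < Δ := lt_of_lt_of_le (by positivity) hΔ
  obtain ⟨u, hu⟩ : ∃ u : ℝ, u = C⁻¹ := ⟨_, rfl⟩
  have hu0 : 0 < u := by rw [hu]; positivity
  have huC : u * C = 1 := by rw [hu]; exact inv_mul_cancel₀ hC0.ne'
  have hu1 : 1 ≤ u := by
    rw [hu]
    exact (one_le_inv₀ hC0).2 hC1
  have hcC : c / C = c * u := by rw [hu]; rfl
  have hcC3 : c / C ^ 3 = c * u ^ 3 := by rw [hu, inv_pow]; rfl
  have hau : a ≤ u * Δ := by
    calc a = u * (C * a) := by rw [← mul_assoc, huC, one_mul]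
      _ ≤ u * Δ := mul_le_mul_of_nonneg_left hΔ hu0.le
  have hone : 1 ≤ u ^ 2 * Δ := by
    calc (1 : ℝ) = u ^ 2 * (C * C) := by
          calc (1 : ℝ) = (u * C) * (u * C) := by rw [huC]; norm_num
            _ = _ := by ring
      _ ≤ u ^ 2 * (C * a) := by gcongr
      _ ≤ u ^ 2 * Δ := mul_le_mul_of_nonneg_left hΔ (by positivity)
  have h1 : k * s ≤ 4 / 3 * (c * u * R) := by
    have h2 : s / φ ≤ 4 / 3 * R := by
      rw [div_le_iff₀ hφ0]
      nlinarith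
    calc k * s = c * u * (s / φ) := by rw [hk, hu]; field_simp
      _ ≤ c * u * (4 / 3 * R) := mul_le_mul_of_nonneg_left h2 (by positivity)
      _ = _ := by ring
  have hks0 : 0 ≤ k * s := by rw [hk]; positivity
  obtain ⟨T, hT⟩ : ∃ T : ℝ, T = c * u ^ 3 * R * Δ := ⟨_, rfl⟩
  have hT0 : 0 ≤ T := by rw [hT]; positivity
  have hu3 : u ≤ u ^ 3 := by
    calc u = u * 1 := (mul_one u).symm
      _ ≤ u * u ^ 2 := mul_le_mul_of_nonneg_left (one_le_pow₀ hu1) hu0.le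
      _ = u ^ 3 := by ring
  have hu2 : u ^ 2 ≤ u ^ 3 := pow_le_pow_right₀ hu1 (by norm_num)
  have q1 : c * u * R * Δ ≤ T := by
    rw [hT]
    gcongr
  have t1 : 37 / 9 * (k * s) * P * Δ ≤ 148 / 27 * (T * P) := by
    calc 37 / 9 * (k * s) * P * Δ ≤ 37 / 9 * (4 / 3 * (c * u * R)) * P * Δ := by gcongr
      _ = 148 / 27 * (c * u * R * Δ * P) := by ring
      _ ≤ 148 / 27 * (T * P) := by gcongr
  have t2 : a * s * (3 * c * P + c * s ^ 3) ≤ 3 * (T * (3 * P + s ^ 3)) := by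
    calc a * s * (3 * c * P + c * s ^ 3) ≤ (u * Δ) * (3 * R) * (3 * c * P + c * s ^ 3) := by
          gcongr
      _ = 3 * (c * u * R * Δ * (3 * P + s ^ 3)) := by ring
      _ ≤ 3 * (T * (3 * P + s ^ 3)) := by gcongr
  have hc4 : 12 * c ≤ 1 := by nlinarith
  have t3 : 3 * c * (k * s) * s ^ 3 ≤ T * s ^ 3 := by
    calc 3 * c * (k * s) * s ^ 3 ≤ 3 * c * (4 / 3 * (c * u * R)) * s ^ 3 := by gcongr
      _ = 4 * c * (c * u * R * s ^ 3) * 1 := by ring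
      _ ≤ 4 * c * (c * u * R * s ^ 3) * (u ^ 2 * Δ) := by gcongr
      _ = 4 * c * (T * s ^ 3) := by rw [hT]; ring
      _ ≤ 1 * (T * s ^ 3) := by
          have : 4 * c ≤ 1 := by linarith
          gcongr
      _ = _ := one_mul _
  have t4 : 9 * c * (k * s) * a * s ^ 3 ≤ T * s ^ 3 := by
    calc 9 * c * (k * s) * a * s ^ 3 ≤ 9 * c * (4 / 3 * (c * u * R)) * (u * Δ) * s ^ 3 := by
          gcongr
      _ = 12 * c * (c * u ^ 2 * R * Δ * s ^ 3) := by ring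
      _ ≤ 12 * c * (c * u ^ 3 * R * Δ * s ^ 3) := by gcongr
      _ = 12 * c * (T * s ^ 3) := by rw [hT]
      _ ≤ 1 * (T * s ^ 3) := by gcongr
      _ = _ := one_mul _
  have hrhs : Δ * (27 * c / C ^ 3 * (P + s ^ 3) * R) = 27 * (T * P) + 27 * (T * s ^ 3) := by
    rw [mul_div_assoc, hcC3, hT]
    ring
  have hTP : 0 ≤ T * P := mul_nonneg hT0 hP0
  have hTs : 0 ≤ T * s ^ 3 := by positivity
  rw [hcC, hrhs]
  refine ⟨h1, ?_, ?_⟩ <;> nlinarith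

theorem kep_coef (p m u : E) (h : wd p m ≠ 0) :
    u = (wd u m / wd p m) • p + (wd p u / wd p m) • m := by
  have h' : p 0 * m 1 - p 1 * m 0 ≠ 0 := h
  ext i
  fin_cases i
  · show u 0 = (u 0 * m 1 - u 1 * m 0) / (p 0 * m 1 - p 1 * m 0) * p 0 +
      (p 0 * u 1 - p 1 * u 0) / (p 0 * m 1 - p 1 * m 0) * m 0
    rw [div_mul_eq_mul_div, div_mul_eq_mul_div, ← add_div, eq_div_iff h']
    ring
  · show u 1 = (u 0 * m 1 - u 1 * m 0) / (p 0 * m 1 - p 1 * m 0) * p 1 +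
      (p 0 * u 1 - p 1 * u 0) / (p 0 * m 1 - p 1 * m 0) * m 1
    rw [div_mul_eq_mul_div, div_mul_eq_mul_div, ← add_div, eq_div_iff h']
    ring

theorem kep_frame (G : E ≃ E) (hG : IsAut G) (P : ℝ)
    (hP : ∀ x y : E, ‖x‖ ≤ 2 → ‖y‖ ≤ 2 → ‖wd (G x) (G y)‖ ≤ P) :
    ∃ e : E, ‖e‖ = 1 ∧ ∀ x : E, ‖x‖ ≤ 2 → ‖wd (G x) (perp e)‖ ≤ sz G ∧
      ‖wd e (G x)‖ ≤ P / sz G := by
  have hc : Continuous G := hG.1.continuous
  have hs : 0 < sz G := sz_pos G hc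
  obtain ⟨xs, hxs, h⟩ := exists_sz G hc
  have hn : ‖((sz G : ℝ) : ℂ)⁻¹‖ = (sz G)⁻¹ := by
    rw [norm_inv, Complex.norm_real, Real.norm_of_nonneg hs.le]
  have he : ‖(((sz G : ℝ) : ℂ)⁻¹) • G xs‖ = 1 := by
    rw [norm_smul, hn, h, inv_mul_cancel₀ hs.ne']
  refine ⟨(((sz G : ℝ) : ℂ)⁻¹) • G xs, he, fun x hx => ⟨?_, ?_⟩⟩
  · refine (norm_wd_le _ _).trans ?_
    rw [norm_perp, he, mul_one]
    exact norm_le_sz G hc x hx
  · rw [wd_smul_left, norm_mul, hn, div_eq_inv_mul]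
    exact mul_le_mul_of_nonneg_left (hP xs x hxs hx) (by positivity)

theorem kep_quad (B : E →L[ℂ] E →L[ℂ] E) {c : ℝ} (hc : 0 ≤ c)
    (hbil : ∀ x y, ‖B x y‖ ≤ c * ‖x‖ * ‖y‖) (hsym : ∀ x y, B x y = B y x)
    {e e' : E} (he : ‖e‖ = 1) (he' : ‖e'‖ = 1) (z w : ℂ) :
    ‖B (z • e + w • e') (z • e + w • e') - z ^ 2 • B e e‖ ≤
      c * (2 * (‖z‖ * ‖w‖) + ‖w‖ ^ 2) := by
  have h : B (z • e + w • e') (z • e + w • e') - z ^ 2 • B e e =
      (2 * (z * w)) • B e e' + (w ^ 2) • B e' e' := by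
    simp only [map_add, map_smul, add_apply, smul_apply,
      hsym e' e]
    module
  rw [h]
  refine (norm_add_le _ _).trans ?_
  rw [norm_smul, norm_smul, norm_mul, norm_mul, norm_pow]
  have h1 := hbil e e'
  have h2 := hbil e' e'
  rw [he, he', mul_one, mul_one] at h1
  rw [he', mul_one, mul_one] at h2
  have h3 : ‖(2 : ℂ)‖ = 2 := by simp
  rw [h3]
  calc 2 * (‖z‖ * ‖w‖) * ‖B e e'‖ + ‖w‖ ^ 2 * ‖B e' e'‖ ≤
      2 * (‖z‖ * ‖w‖) * c + ‖w‖ ^ 2 * c := by gcongr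
    _ = _ := by ring

theorem kep_core (A : E ≃L[ℂ] E) (B : E →L[ℂ] E →L[ℂ] E) (F : E → E) (G : E ≃ E)
    (hG : IsAut G) {C c P R : ℝ} (hC0 : 0 < C) (hC1 : C ≤ 1) (hc0 : 0 ≤ c)
    (hc : 100 * c ≤ C ^ 2) (ha0 : C ≤ ‖(A : E →L[ℂ] E)‖) (ha1 : ‖(A : E →L[ℂ] E)‖ ≤ 1)
    (hΔ : C * ‖(A : E →L[ℂ] E)‖ ≤ ‖dt (A : E →L[ℂ] E)‖)
    (hlin : ∀ x, ‖x‖ ≤ 3 → ‖F x - A x‖ ≤ c * ‖x‖ ^ 2)
    (hbil : ∀ x y, ‖B x y‖ ≤ c * ‖x‖ * ‖y‖) (hsym : ∀ x y, B x y = B y x)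
    (hcub : ∀ x, ‖x‖ ≤ 3 → ‖F x - A x - B x x‖ ≤ c * ‖x‖ ^ 3)
    (hs3 : sz G ≤ 3) (hsR : sz G ≤ 3 * R) (hR0 : 0 < R) (hR1 : R ≤ 1)
    (hP : ∀ x y : E, ‖x‖ ≤ 2 → ‖y‖ ≤ 2 → ‖wd (G x) (G y)‖ ≤ P) (n : E) (hn : ‖n‖ = 1)
    (hψ : ∃ y : E, ‖y‖ ≤ 2 ∧ sz G ^ 2 * R⁻¹ ≤ ‖wd (G y) n‖)
    (hPs : P ≤ 1 / 4 * sz G ^ 3 * R⁻¹) :
    ∃ β : ℂ, ∀ G' : E → E, (∀ x, G' x = A (G x + (β * wd (G x) n ^ 2) • n)) →
      (∀ x y : E, ‖x‖ ≤ 2 → ‖y‖ ≤ 2 → ‖wd (F (G y)) (G' x - F (G x))‖ ≤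
        ‖dt (A : E →L[ℂ] E)‖ * (27 * c / C ^ 3 * (P + sz G ^ 3) * R)) ∧
      (∀ x y : E, ‖x‖ ≤ 2 → ‖y‖ ≤ 2 → ‖wd (G' y) (F (G x) - G' x)‖ ≤
        ‖dt (A : E →L[ℂ] E)‖ * (27 * c / C ^ 3 * (P + sz G ^ 3) * R)) ∧
      (∀ x : E, ‖x‖ ≤ 2 → ‖G' x - A (G x)‖ ≤ 3 * c / C * ‖(A : E →L[ℂ] E)‖ * R * sz G) ∧
      (∀ P' : ℝ, (∀ x y : E, ‖x‖ ≤ 2 → ‖y‖ ≤ 2 → ‖wd (G x) (G y)‖ ≤ P') →
        ∀ x y : E, ‖x‖ ≤ 2 → ‖y‖ ≤ 2 →
          ‖wd (G' x) (G' y)‖ ≤ ‖dt (A : E →L[ℂ] E)‖ * (P' + 5 * c / C ^ 2 * sz G ^ 3)) := by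
  have hcont : Continuous G := hG.1.continuous
  have hs : 0 < sz G := sz_pos G hcont
  have hle : ∀ x : E, ‖x‖ ≤ 2 → ‖G x‖ ≤ sz G := fun x hx => norm_le_sz G hcont x hx
  obtain ⟨e, he, hfr⟩ := kep_frame G hG P hP
  obtain ⟨y0, hy0, hψ0⟩ := hψ
  obtain ⟨s, hsdef⟩ : ∃ s, s = sz G := ⟨_, rfl⟩
  rw [← hsdef] at hs hle hfr hψ0 hs3 hsR hPs ⊢
  obtain ⟨a, hadef⟩ : ∃ a, a = ‖(A : E →L[ℂ] E)‖ := ⟨_, rfl⟩
  obtain ⟨Δ, hΔdef⟩ : ∃ Δ, Δ = ‖dt (A : E →L[ℂ] E)‖ := ⟨_, rfl⟩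
  rw [← hadef] at ha0 ha1 hΔ ⊢
  rw [← hΔdef] at hΔ ⊢
  have ha : 0 < a := lt_of_lt_of_le hC0 ha0
  have hΔ0 : 0 < Δ := lt_of_lt_of_le (by positivity) hΔ
  have hAle : ∀ x : E, ‖A x‖ ≤ a * ‖x‖ := fun x => by
    rw [hadef]
    exact (A : E →L[ℂ] E).le_opNorm x
  have hwdA : ∀ x y : E, wd (A x) (A y) = dt (A : E →L[ℂ] E) * wd x y := fun x y =>
    wd_map (A : E →L[ℂ] E) x y
  have hP0 : 0 ≤ P := (norm_nonneg _).trans (hP 0 0 (by simp) (by simp))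
  set e' : E := perp e with he'def
  have he' : ‖e'‖ = 1 := by rw [he'def, norm_perp, he]
  have hdec : ∀ X : E, X = wd X e' • e + wd e X • e' := fun X => perp_decomp e X he
  obtain ⟨φ, hφdef⟩ : ∃ φ, φ = ‖wd e n‖ := ⟨_, rfl⟩
  have hφ1 : φ ≤ 1 := by
    rw [hφdef]
    refine (norm_wd_le e n).trans ?_
    rw [he, hn, mul_one]
  have hwn : ∀ X : E, wd X n = wd X e' * wd e n + wd e X * wd e' n := fun X => by
    conv_lhs => rw [hdec X]
    rw [wd_add_left, wd_smul_left, wd_smul_left]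
  have he'n : ‖wd e' n‖ ≤ 1 := by
    refine (norm_wd_le e' n).trans ?_
    rw [he', hn, mul_one]
  have hRi : 0 < R⁻¹ := by positivity
  -- lower bound for `φ`
  have hPs' : P / s ≤ 1 / 4 * (s ^ 2 * R⁻¹) := by
    rw [div_le_iff₀ hs]
    calc P ≤ 1 / 4 * s ^ 3 * R⁻¹ := hPs
      _ = _ := by ring
  have hφs : 3 / 4 * (s ^ 2 * R⁻¹) ≤ s * φ := by
    have h1 : ‖wd (G y0) n‖ ≤ s * φ + P / s := by
      rw [hwn]
      refine (norm_add_le _ _).trans ?_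
      rw [norm_mul, norm_mul, ← hφdef]
      obtain ⟨h2, h3⟩ := hfr y0 hy0
      have h4 : 0 ≤ φ := by rw [hφdef]; exact norm_nonneg _
      have h5 : ‖wd e (G y0)‖ * ‖wd e' n‖ ≤ P / s * 1 := by
        have : 0 ≤ P / s := by positivity
        gcongr
      have h6 : ‖wd (G y0) e'‖ * φ ≤ s * φ := by gcongr
      linarith
    linarith
  have hφR : 3 / 4 * s ≤ φ * R := by
    have h1 : 3 / 4 * (s ^ 2 * R⁻¹) * R ≤ s * φ * R := mul_le_mul_of_nonneg_right hφs hR0.le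
    have h2 : 3 / 4 * (s ^ 2 * R⁻¹) * R = 3 / 4 * s * s := by field_simp
    rw [h2] at h1
    have h3 : (3 / 4 * s) * s ≤ (φ * R) * s := by linarith
    exact le_of_mul_le_mul_right h3 hs
  have hφ0 : 0 < φ := by
    by_contra hneg
    push Not at hneg
    have : φ * R ≤ 0 := mul_nonpos_of_nonpos_of_nonneg hneg hR0.le
    linarith
  have hen : wd e n ≠ 0 := by
    intro h0
    rw [h0, norm_zero] at hφdef
    linarith
  -- `P / (s φ) ≤ s / 3`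
  have hδ : P / s / φ ≤ s / 3 := by
    rw [div_le_iff₀ hφ0]
    linarith
  have hPφ : P / s ≤ s / 3 * φ := by
    rw [div_le_iff₀ hφ0] at hδ
    exact hδ
  have hP4 : P ≤ s ^ 2 / 3 := by
    have h1 : P / s ≤ s / 3 := by
      refine hPφ.trans ?_
      calc s / 3 * φ ≤ s / 3 * 1 := by gcongr
        _ = s / 3 := mul_one _
    rw [div_le_iff₀ hs] at h1
    calc P ≤ s / 3 * s := h1
      _ = _ := by ring
  -- the coefficients
  set p : E := A e with hpdef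
  set m : E := A n with hmdef
  set u : E := B e e with hudef
  have hpm : wd p m = dt (A : E →L[ℂ] E) * wd e n := hwdA e n
  have hpmn : ‖wd p m‖ = Δ * φ := by rw [hpm, norm_mul, ← hΔdef, ← hφdef]
  have hpm0 : wd p m ≠ 0 := by
    intro h0
    rw [h0, norm_zero] at hpmn
    have : 0 < Δ * φ := by positivity
    linarith
  have hpn : ‖p‖ ≤ a := by
    have := hAle e
    rwa [he, mul_one] at this
  have hmn : ‖m‖ ≤ a := by
    have := hAle n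
    rwa [hn, mul_one] at this
  have hun : ‖u‖ ≤ c := by
    have := hbil e e
    rwa [he, mul_one, mul_one] at this
  obtain ⟨k, hk⟩ : ∃ k, k = c / (C * φ) := ⟨_, rfl⟩
  have hk0 : 0 ≤ k := by rw [hk]; positivity
  have hka : ∀ ξ : ℂ, ‖ξ‖ ≤ c * a → ‖ξ / wd p m‖ ≤ k := by
    intro ξ hξ
    rw [norm_div, hpmn, div_le_iff₀ (by positivity)]
    refine hξ.trans ?_
    rw [hk]
    have h1 : c / (C * φ) * (Δ * φ) = c * (Δ / C) := by field_simp
    rw [h1]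
    have h2 : a ≤ Δ / C := by
      rw [le_div_iff₀ hC0]
      linarith
    gcongr
  have hum : ‖wd u m‖ ≤ c * a := by
    refine (norm_wd_le _ _).trans ?_
    gcongr
  have hpu : ‖wd p u‖ ≤ c * a := by
    refine (norm_wd_le _ _).trans ?_
    calc ‖p‖ * ‖u‖ ≤ a * c := by gcongr
      _ = c * a := mul_comm _ _
  obtain ⟨al, hal⟩ : ∃ al, al = wd u m / wd p m := ⟨_, rfl⟩
  obtain ⟨b, hb⟩ : ∃ b, b = wd p u / wd p m := ⟨_, rfl⟩
  have haln : ‖al‖ ≤ k := by rw [hal]; exact hka _ hum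
  have hbn : ‖b‖ ≤ k := by rw [hb]; exact hka _ hpu
  have hu2 : u = al • p + b • m := by
    rw [hal, hb]
    exact kep_coef p m u hpm0
  have halm : al * wd m p = - wd u m := by
    rw [hal, wd_swap p m]
    field_simp
  have hck : c ≤ k := by
    rw [hk, le_div_iff₀ (by positivity)]
    have : C * φ ≤ 1 := by
      calc C * φ ≤ 1 * 1 := by gcongr
        _ = 1 := one_mul _
    calc c * (C * φ) ≤ c * 1 := by gcongr
      _ = c := mul_one _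
  have hkφ : k * φ = c / C := by rw [hk]; field_simp
  obtain ⟨hnum1, hnum2, hnum3⟩ := kep_num hC0 hC1 hc0 hc ha0 hΔ hs hsR hR0 hP0 hφ0 hφR hk
  -- the kept coefficient
  refine ⟨b / (wd e n) ^ 2, fun G' hG' => ?_⟩
  obtain ⟨q, hq⟩ : ∃ q : E → ℂ, ∀ x, q x = b / (wd e n) ^ 2 * wd (G x) n ^ 2 := ⟨_, fun x => rfl⟩
  have hG'x : ∀ x, G' x = A (G x) + q x • m := by
    intro x
    rw [hG', map_add, map_smul, ← hq]
  -- `ℓ`
  obtain ⟨ell, hell⟩ : ∃ ell : E → ℂ, ∀ x, ell x = wd (G x) n / wd e n := ⟨_, fun x => rfl⟩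
  have hqe : ∀ x, q x = b * ell x ^ 2 := by
    intro x
    rw [hq, hell]
    field_simp
  have hw : ∀ x : E, ‖x‖ ≤ 2 → ‖wd e (G x)‖ ≤ P / s := fun x hx => (hfr x hx).2
  have hz : ∀ x : E, ‖x‖ ≤ 2 → ‖wd (G x) e'‖ ≤ s := fun x hx => (hfr x hx).1
  have hdiff : ∀ x : E, ‖x‖ ≤ 2 → ‖ell x - wd (G x) e'‖ ≤ P / s / φ := by
    intro x hx
    have h1 : ell x - wd (G x) e' = wd e (G x) * wd e' n / wd e n := by
      rw [hell, hwn]
      field_simp
      ring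
    rw [h1, norm_div, norm_mul, ← hφdef]
    have h2 : 0 ≤ P / s := by positivity
    have h3 : ‖wd e (G x)‖ * ‖wd e' n‖ ≤ P / s * 1 := by
      have := hw x hx
      gcongr
    rw [mul_one] at h3
    gcongr
  have helln : ∀ x : E, ‖x‖ ≤ 2 → ‖ell x‖ ≤ 4 / 3 * s := by
    intro x hx
    have h1 : ell x = (ell x - wd (G x) e') + wd (G x) e' := by ring
    rw [h1]
    refine (norm_add_le _ _).trans ?_
    have := hdiff x hx
    have := hz x hx
    linarith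
  have hqn : ∀ x : E, ‖x‖ ≤ 2 → ‖q x‖ ≤ k * (16 / 9 * s ^ 2) := by
    intro x hx
    rw [hqe, norm_mul, norm_pow]
    have h1 := helln x hx
    calc ‖b‖ * ‖ell x‖ ^ 2 ≤ k * (4 / 3 * s) ^ 2 := by gcongr
      _ = _ := by ring
  have hwnn : ∀ x : E, ‖x‖ ≤ 2 → ‖wd (G x) n‖ ≤ 4 / 3 * (s * φ) := by
    intro x hx
    have h1 : wd (G x) n = ell x * wd e n := by
      rw [hell]
      field_simp
    rw [h1, norm_mul, ← hφdef]
    have h2 := helln x hx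
    calc ‖ell x‖ * φ ≤ 4 / 3 * s * φ := by gcongr
      _ = _ := by ring
  -- the vector `v`
  obtain ⟨v, hv⟩ : ∃ v : E → E, ∀ x, v x = F (G x) - G' x := ⟨_, fun x => rfl⟩
  obtain ⟨r, hr⟩ : ∃ r : E → E, ∀ x, r x = v x - ((al * wd (G x) e' ^ 2) • p +
    (b * (wd (G x) e' ^ 2 - ell x ^ 2)) • m) := ⟨_, fun x => rfl⟩
  have hvr : ∀ x, v x = (al * wd (G x) e' ^ 2) • p +
      (b * (wd (G x) e' ^ 2 - ell x ^ 2)) • m + r x := by
    intro x
    rw [hr]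
    abel
  have hrn : ∀ x : E, ‖x‖ ≤ 2 → ‖r x‖ ≤ 3 * c * P + c * s ^ 3 := by
    intro x hx
    have hX := hle x hx
    have h1 : r x = (B (G x) (G x) - wd (G x) e' ^ 2 • u) +
        (F (G x) - A (G x) - B (G x) (G x)) := by
      rw [hr, hv, hG'x, hqe, hu2]
      module
    rw [h1]
    refine (norm_add_le _ _).trans (add_le_add ?_ ?_)
    · have h2 := kep_quad B hc0 hbil hsym he he' (wd (G x) e') (wd e (G x))
      rw [← hdec (G x)] at h2
      refine h2.trans ?_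
      have h3 := hw x hx
      have h4 := hz x hx
      have h5 : 0 ≤ P / s := by positivity
      have h6 : ‖wd (G x) e'‖ * ‖wd e (G x)‖ ≤ P := by
        calc ‖wd (G x) e'‖ * ‖wd e (G x)‖ ≤ s * (P / s) := by gcongr
          _ = P := by field_simp
      have h7 : ‖wd e (G x)‖ ^ 2 ≤ P := by
        calc ‖wd e (G x)‖ ^ 2 ≤ (P / s) ^ 2 := by gcongr
          _ = P * (P / s ^ 2) := by field_simp
          _ ≤ P * 1 := by
              have : P / s ^ 2 ≤ 1 := by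
                rw [div_le_one (by positivity)]
                nlinarith
              gcongr
          _ = P := mul_one _
      calc c * (2 * (‖wd (G x) e'‖ * ‖wd e (G x)‖) + ‖wd e (G x)‖ ^ 2) ≤ c * (2 * P + P) := by
            gcongr
        _ = 3 * c * P := by ring
    · refine (hcub (G x) (hX.trans hs3)).trans ?_
      gcongr
  -- first area
  have hΔn : ‖dt (A : E →L[ℂ] E)‖ = Δ := hΔdef.symm
  have hsq : ∀ x : E, ‖x‖ ≤ 2 → ‖wd (G x) e' ^ 2 - ell x ^ 2‖ ≤ 7 / 3 * (P / φ) := by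
    intro x hx
    have h1 : wd (G x) e' ^ 2 - ell x ^ 2 =
        -(ell x - wd (G x) e') * (wd (G x) e' + ell x) := by ring
    rw [h1, norm_mul, norm_neg]
    have h2 := hdiff x hx
    have h3 : ‖wd (G x) e' + ell x‖ ≤ 7 / 3 * s := by
      refine (norm_add_le _ _).trans ?_
      have := hz x hx
      have := helln x hx
      linarith
    have h4 : 0 ≤ P / s / φ := by positivity
    calc ‖ell x - wd (G x) e'‖ * ‖wd (G x) e' + ell x‖ ≤ (P / s / φ) * (7 / 3 * s) := by gcongr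
      _ = _ := by field_simp
  have hfirst : ∀ x y : E, ‖x‖ ≤ 2 → ‖y‖ ≤ 2 → ‖wd (A (G y)) (v x)‖ ≤
      37 / 9 * (k * s) * P * Δ + a * s * (3 * c * P + c * s ^ 3) := by
    intro x y hx hy
    rw [hvr, wd_add_right, wd_add_right, wd_smul_right, wd_smul_right]
    have h1 : ‖al * wd (G x) e' ^ 2 * wd (A (G y)) p‖ ≤ k * s * P * Δ := by
      rw [norm_mul, norm_mul, norm_pow, hpdef, hwdA, norm_mul, hΔn]
      have h2 : ‖wd (G y) e‖ ≤ P / s := by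
        rw [wd_swap e (G y), norm_neg]
        exact hw y hy
      have h3 := hz x hx
      have h4 : 0 ≤ P / s := by positivity
      calc ‖al‖ * ‖wd (G x) e'‖ ^ 2 * (Δ * ‖wd (G y) e‖) ≤ k * s ^ 2 * (Δ * (P / s)) := by
            gcongr
        _ = k * s * P * Δ := by field_simp
    have h2 : ‖b * (wd (G x) e' ^ 2 - ell x ^ 2) * wd (A (G y)) m‖ ≤
        28 / 9 * (k * s * P * Δ) := by
      rw [norm_mul, norm_mul, hmdef, hwdA, norm_mul, hΔn]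
      have h3 := hsq x hx
      have h4 := hwnn y hy
      have h5 : 0 ≤ 7 / 3 * (P / φ) := by positivity
      calc ‖b‖ * ‖wd (G x) e' ^ 2 - ell x ^ 2‖ * (Δ * ‖wd (G y) n‖) ≤
          k * (7 / 3 * (P / φ)) * (Δ * (4 / 3 * (s * φ))) := by gcongr
        _ = 28 / 9 * (k * s * P * Δ) := by field_simp; ring
    have h3 : ‖wd (A (G y)) (r x)‖ ≤ a * s * (3 * c * P + c * s ^ 3) := by
      refine (norm_wd_le _ _).trans ?_
      have h4 : ‖A (G y)‖ ≤ a * s := by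
        refine (hAle _).trans ?_
        have := hle y hy
        gcongr
      have h5 := hrn x hx
      have h6 : 0 ≤ a * s := by positivity
      gcongr
    refine (norm_add_le _ _).trans ?_
    have h4 := norm_add_le (al * wd (G x) e' ^ 2 * wd (A (G y)) p)
      (b * (wd (G x) e' ^ 2 - ell x ^ 2) * wd (A (G y)) m)
    nlinarith
  have hvn : ∀ x : E, ‖x‖ ≤ 2 → ‖v x‖ ≤ 3 * k * s ^ 2 := by
    intro x hx
    have hX := hle x hx
    have h1 : v x = (F (G x) - A (G x)) + (-(q x)) • m := by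
      rw [hv, hG'x]
      module
    rw [h1]
    refine (norm_add_le _ _).trans ?_
    rw [norm_smul, norm_neg]
    have h2 := hlin (G x) (hX.trans hs3)
    have h3 : c * ‖G x‖ ^ 2 ≤ k * s ^ 2 := by gcongr
    have h4 : ‖q x‖ * ‖m‖ ≤ k * (16 / 9 * s ^ 2) * 1 := by
      have := hqn x hx
      have h5 : ‖m‖ ≤ 1 := hmn.trans ha1
      gcongr
    nlinarith [mul_nonneg hk0 (sq_nonneg s)]
  have hmv : ∀ x : E, ‖x‖ ≤ 2 → ‖wd m (v x)‖ ≤ c * a * (5 * s ^ 2) := by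
    intro x hx
    have h1 : wd m (v x) = -(wd (G x) e' ^ 2 * wd u m) + wd m (r x) := by
      rw [hvr, wd_add_right, wd_add_right, wd_smul_right, wd_smul_right, wd_self, mul_zero,
        add_zero]
      have : al * wd (G x) e' ^ 2 * wd m p = wd (G x) e' ^ 2 * (al * wd m p) := by ring
      rw [this, halm]
      ring
    rw [h1]
    refine (norm_add_le _ _).trans ?_
    rw [norm_neg, norm_mul, norm_pow]
    have h2 := hz x hx
    have h3 : ‖wd (G x) e'‖ ^ 2 * ‖wd u m‖ ≤ s ^ 2 * (c * a) := by gcongr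
    have h4 : ‖wd m (r x)‖ ≤ a * (3 * c * P + c * s ^ 3) := by
      refine (norm_wd_le _ _).trans ?_
      have := hrn x hx
      gcongr
    have h5 : a * (3 * c * P + c * s ^ 3) ≤ c * a * (4 * s ^ 2) := by
      have h6 : s ^ 3 ≤ 3 * s ^ 2 := by nlinarith [sq_nonneg s]
      have h7 : 3 * P + s ^ 3 ≤ 4 * s ^ 2 := by linarith
      have h8 : 0 ≤ c * a := by positivity
      nlinarith
    linarith
  refine ⟨?_, ?_, ?_, ?_⟩
  · intro x y hx hy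
    have h1 : wd (F (G y)) (G' x - F (G x)) =
        -(wd (A (G y)) (v x) + wd (F (G y) - A (G y)) (v x)) := by
      rw [← wd_add_left, hv, wd_sub_right, wd_sub_right]
      have : A (G y) + (F (G y) - A (G y)) = F (G y) := by abel
      rw [this]
      ring
    rw [h1, norm_neg]
    refine (norm_add_le _ _).trans ?_
    refine le_trans (add_le_add (hfirst x y hx hy) ?_) hnum2
    refine (norm_wd_le _ _).trans ?_
    have hY := hle y hy
    have h2 := hlin (G y) (hY.trans hs3)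
    have h3 : ‖F (G y) - A (G y)‖ ≤ c * s ^ 2 := h2.trans (by gcongr)
    have h4 := hvn x hx
    calc ‖F (G y) - A (G y)‖ * ‖v x‖ ≤ (c * s ^ 2) * (3 * k * s ^ 2) := by gcongr
      _ = _ := by ring
  · intro x y hx hy
    have h1 : wd (G' y) (F (G x) - G' x) = wd (A (G y)) (v x) + q y * wd m (v x) := by
      rw [← hv, hG'x, wd_add_left, wd_smul_left]
    rw [h1]
    refine (norm_add_le _ _).trans ?_
    refine le_trans (add_le_add (hfirst x y hx hy) ?_) hnum3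
    rw [norm_mul]
    have h2 := hqn y hy
    have h3 := hmv x hx
    calc ‖q y‖ * ‖wd m (v x)‖ ≤ (k * (16 / 9 * s ^ 2)) * (c * a * (5 * s ^ 2)) := by gcongr
      _ = 80 / 9 * (c * (k * s) * a * s ^ 3) := by ring
      _ ≤ 9 * (c * (k * s) * a * s ^ 3) := by
          have : 0 ≤ c * (k * s) * a * s ^ 3 := by positivity
          nlinarith
      _ = _ := by ring
  · intro x hx
    rw [hG'x, add_sub_cancel_left, norm_smul]
    have h1 := hqn x hx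
    calc ‖q x‖ * ‖m‖ ≤ (k * (16 / 9 * s ^ 2)) * a := by gcongr
      _ = 16 / 9 * a * s * (k * s) := by ring
      _ ≤ 16 / 9 * a * s * (4 / 3 * (c / C * R)) := by gcongr
      _ ≤ 3 * c / C * a * R * s := by
          have h2 : 0 ≤ c / C * (a * s * R) := by positivity
          have h3 : 16 / 9 * a * s * (4 / 3 * (c / C * R)) = 64 / 27 * (c / C * (a * s * R)) := by
            ring
          have h4 : 3 * c / C * a * R * s = 3 * (c / C * (a * s * R)) := by ring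
          rw [h3, h4]
          nlinarith
  · intro P' hP' x y hx hy
    have h1 : wd (G' x) (G' y) = dt (A : E →L[ℂ] E) * wd (G x) (G y) +
        q y * wd (A (G x)) m + q x * wd m (A (G y)) := by
      rw [hG'x, hG'x, wd_add_left, wd_add_right, wd_add_right, wd_smul_left, wd_smul_left,
        wd_smul_right, wd_smul_right, wd_self, hwdA]
      ring
    rw [h1]
    have h2 : ∀ x y : E, ‖x‖ ≤ 2 → ‖y‖ ≤ 2 → ‖q y * wd (A (G x)) m‖ ≤
        64 / 27 * (c / C * (Δ * s ^ 3)) := by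
      intro x y hx hy
      rw [norm_mul, hmdef, hwdA, norm_mul, hΔn]
      have h3 := hqn y hy
      have h4 := hwnn x hx
      calc ‖q y‖ * (Δ * ‖wd (G x) n‖) ≤ (k * (16 / 9 * s ^ 2)) * (Δ * (4 / 3 * (s * φ))) := by
            gcongr
        _ = 64 / 27 * ((k * φ) * (Δ * s ^ 3)) := by ring
        _ = _ := by rw [hkφ]
    have h3 := h2 x y hx hy
    have h4 : ‖q x * wd m (A (G y))‖ ≤ 64 / 27 * (c / C * (Δ * s ^ 3)) := by
      have := h2 y x hy hx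
      rw [wd_swap (A (G y)) m, mul_neg, norm_neg]
      exact this
    have h5 : ‖dt (A : E →L[ℂ] E) * wd (G x) (G y)‖ ≤ Δ * P' := by
      rw [norm_mul, hΔn]
      have := hP' x y hx hy
      gcongr
    have h6 : c / C * (Δ * s ^ 3) ≤ c / C ^ 2 * (Δ * s ^ 3) := by
      have : C ^ 2 ≤ C := by nlinarith
      gcongr
    have h7 : 0 ≤ c / C ^ 2 * (Δ * s ^ 3) := by positivity
    have h8 : Δ * (P' + 5 * c / C ^ 2 * s ^ 3) = Δ * P' + 5 * (c / C ^ 2 * (Δ * s ^ 3)) := by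
      ring
    rw [h8]
    refine (norm_add₃_le).trans ?_
    linarith

/-- the Jacobian of the new map -/
theorem kep_jac (A : E ≃L[ℂ] E) (G : E ≃ E) (hG : IsAut G) (n : E) (β : ℂ) (G' : E → E)
    (hG' : ∀ x, G' x = A (G x + (β * wd (G x) n ^ 2) • n)) (x : E) :
    jac G' x = ‖dt (A : E →L[ℂ] E)‖ * jac G x := by
  set W : E →L[ℂ] ℂ := (n 1) • (EuclideanSpace.proj 0 : E →L[ℂ] ℂ) -
    (n 0) • (EuclideanSpace.proj 1 : E →L[ℂ] ℂ) with hW
  have hWx : ∀ y : E, wd y n = W y := by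
    intro y
    simp only [hW, wd, sub_apply, smul_apply, smul_eq_mul]
    show y 0 * n 1 - y 1 * n 0 = n 1 * y 0 - n 0 * y 1
    ring
  set L := fderiv ℂ G x with hL
  have hGd : HasFDerivAt G L x := (hG.1 x).hasFDerivAt
  have hWG : HasFDerivAt (fun y => W (G y)) (W.comp L) x := W.hasFDerivAt.comp x hGd
  have h1 : HasFDerivAt (fun y => β * W (G y) ^ 2) (β • ((2 * W (G x)) • W.comp L)) x := by
    have h2 := (hWG.pow 2).const_mul β
    refine h2.congr_fderiv ?_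
    ext y
    simp
  have h2 : HasFDerivAt (fun y => G y + (β * W (G y) ^ 2) • n)
      (L + (β • ((2 * W (G x)) • W.comp L)).smulRight n) x :=
    hGd.add (h1.smul_const n)
  have h3 : HasFDerivAt G' ((A : E →L[ℂ] E).comp
      (L + (β • ((2 * W (G x)) • W.comp L)).smulRight n)) x := by
    have h4 := (A : E →L[ℂ] E).hasFDerivAt.comp x h2
    have h5 : G' = (A : E →L[ℂ] E) ∘ (fun y => G y + (β * W (G y) ^ 2) • n) := by
      funext y
      rw [hG', hWx]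
      rfl
    rw [h5]
    exact h4
  unfold jac
  rw [h3.fderiv, dt_comp, norm_mul, ← hL]
  congr 2
  unfold dt
  set b0 : E := EuclideanSpace.single 0 1
  set b1 : E := EuclideanSpace.single 1 1
  have h6 : ∀ y : E, (L + (β • ((2 * W (G x)) • W.comp L)).smulRight n) y =
      L y + (β * (2 * W (G x)) * wd (L y) n) • n := by
    intro y
    rw [hWx]
    simp only [add_apply, ContinuousLinearMap.smulRight_apply,
      smul_apply, ContinuousLinearMap.comp_apply, smul_eq_mul, mul_assoc]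
  rw [h6, h6, wd_add_left, wd_add_right, wd_add_right, wd_smul_left, wd_smul_left, wd_smul_right,
    wd_smul_right, wd_self, wd_swap (L b1) n]
  ring

theorem kept_step {C D η c : ℝ} {f : ℕ → (E ≃ E)} {A : ℕ → (E ≃L[ℂ] E)}
    {B : ℕ → (E →L[ℂ] E →L[ℂ] E)} (h : Setup C D η c f A B) (ε : ℝ) (hε : 0 < ε) (t : ℕ)
    (G : E ≃ E) (hG : IsAut G) (hs : sz G ≤ 3 * rho A t) (P : ℝ)
    (hP : ∀ x y : E, ‖x‖ ≤ 2 → ‖y‖ ≤ 2 → ‖wd (G x) (G y)‖ ≤ P) (n : E) (hn : ‖n‖ = 1)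
    (hψ : ∃ y : E, ‖y‖ ≤ 2 ∧ sz G ^ 2 * rho A t ^ (-(1 - 2 * η)) ≤ ‖wd (G y) n‖)
    (hPs : P ≤ 1 / 4 * sz G ^ 3 * rho A t ^ (-(1 - 2 * η)))
    (hE : 27 * c / C ^ 3 * (P + sz G ^ 3) * rho A t ^ (1 - 2 * η) ≤
      ε / 7 * rho A t ^ η * dd A t) :
    ∃ β : ℂ, ∀ G' : E ≃ E, IsAut G' →
      (∀ x, G' x = A t (G x + (β * wd (G x) n ^ 2) • n)) →
      StepOK C η c ε f A t G G' := by
  have hρ0 : 0 < rho A t := rho_pos h t
  have hρ1 : rho A t ≤ 1 := rho_le_one h t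
  have hη0 := h.hη0
  have hη8 := h.hη8
  have hC0 := h.hC0
  have hC1 : C ≤ 1 := h.hCD.trans h.hD1.le
  have hR0 : 0 < rho A t ^ (1 - 2 * η) := Real.rpow_pos_of_pos hρ0 _
  have hR1 : rho A t ^ (1 - 2 * η) ≤ 1 := Real.rpow_le_one hρ0.le hρ1 (by linarith)
  have hRρ : rho A t ≤ rho A t ^ (1 - 2 * η) := by
    calc rho A t = rho A t ^ (1 : ℝ) := (Real.rpow_one _).symm
      _ ≤ rho A t ^ (1 - 2 * η) :=
          Real.rpow_le_rpow_of_exponent_ge hρ0 hρ1 (by linarith)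
  have hneg : rho A t ^ (-(1 - 2 * η)) = (rho A t ^ (1 - 2 * η))⁻¹ := Real.rpow_neg hρ0.le _
  rw [hneg] at hψ hPs
  have hc100 : 100 * c ≤ C ^ 2 := by
    have h1 := h.hc
    have h2 : 0 < D := lt_of_lt_of_le hC0 h.hCD
    nlinarith [sq_nonneg C]
  obtain ⟨β, hβ⟩ := kep_core (A t) (B t) (f t) G hG hC0 hC1 h.hc0 hc100 (norm_A h t).1
    ((norm_A h t).2.trans h.hD1.le) (norm_dtA h t).1 (h.lin t) (h.bil t) (h.sym t) (h.cub t)
    (hs.trans (by linarith)) (hs.trans (by linarith)) hR0 hR1 hP n hn hψ hPs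
  refine ⟨β, fun G' hG'a hG' => ?_⟩
  obtain ⟨h1, h2, h3, h4⟩ := hβ G' hG'
  have hE' : ‖dt (A t : E →L[ℂ] E)‖ * (27 * c / C ^ 3 * (P + sz G ^ 3) *
      rho A t ^ (1 - 2 * η)) ≤ ε / 7 * rho A t ^ η * dd A (t + 1) := by
    rw [dd_succ]
    calc ‖dt (A t : E →L[ℂ] E)‖ * (27 * c / C ^ 3 * (P + sz G ^ 3) * rho A t ^ (1 - 2 * η)) ≤
        ‖dt (A t : E →L[ℂ] E)‖ * (ε / 7 * rho A t ^ η * dd A t) :=
          mul_le_mul_of_nonneg_left hE (norm_nonneg _)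
      _ = _ := by ring
  refine ⟨hG'a, fun x y hx hy => (h1 x y hx hy).trans hE', fun x y hx hy =>
    (h2 x y hx hy).trans hE', fun x hx => ?_, h4, fun x hx => ?_⟩
  · exact h3 x hx
  · rw [kep_jac (A t) G hG n β G' hG' x]
    have h5 : 0 ≤ jac G x := norm_nonneg _
    have h6 : 0 < sz G := sz_pos G hG.1.continuous
    have h7 : 0 ≤ c * sz G := mul_nonneg h.hc0 h6.le
    have h8 : 0 ≤ ‖dt (A t : E →L[ℂ] E)‖ := norm_nonneg _
    calc ‖dt (A t : E →L[ℂ] E)‖ * (1 - c * sz G) * jac G x ≤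
        ‖dt (A t : E →L[ℂ] E)‖ * 1 * jac G x := by gcongr; linarith
      _ = _ := by rw [mul_one]

end Pool.Agent.Lib.MP_bdb4fe_an.G3
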