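import Pool.Agent.Lib.MP_bdb4fe_an.G3.ITR
import Pool.Agent.Lib.MP_bdb4fe_an.G3.COM

/-!
Module MLG: the main lemma.
-/

set_option autoImplicit false

namespace Pool.Agent.Lib.MP_bdb4fe_an.G3

open Filter Topology Metric Set

section
variable {C D η c : ℝ} {f : ℕ → (E ≃ E)} {A : ℕ → (E ≃L[ℂ] E)} {B : ℕ → (E →L[ℂ] E →L[ℂ] E)}

theorem mlg_shift (h : Setup C D η c f A B) (m : ℕ) :
    Setup C D η c (fun n => f (m + n)) (fun n => A (m + n)) (fun n => B (m + n)) where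
  hC0 := h.hC0
  hCD := h.hCD
  hD1 := h.hD1
  hη0 := h.hη0
  hη8 := h.hη8
  hCη := h.hCη
  hc0 := h.hc0
  hc := h.hc
  aut := fun n => h.aut (m + n)
  zero := fun n => h.zero (m + n)
  low := fun n => h.low (m + n)
  upp := fun n => h.upp (m + n)
  lin := fun n => h.lin (m + n)
  bil := fun n => h.bil (m + n)
  sym := fun n => h.sym (m + n)
  cub := fun n => h.cub (m + n)
  jc := fun n => h.jc (m + n)

theorem mlg_up_zero (h : Setup C D η c f A B) (n : ℕ) : up f n 0 = 0 := by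
  induction n with
  | zero => rfl
  | succ n ih =>
    show f n (up f n 0) = 0
    rw [ih, h.zero]

theorem main_lemma (h : Setup C D η c f A B) (R ε0 : ℝ) (hε0 : 0 < ε0) :
    ∃ (k : ℕ) (g : E ≃ E), 1 ≤ k ∧ IsAut g ∧ (∀ x : E, ‖x‖ ≤ R → ‖g x‖ ≤ 1 / 2) ∧
      (∀ x : E, ‖x‖ ≤ 1 → ‖(up f k).symm (g x) - x‖ ≤ ε0) ∧
      (∀ x : E, ‖x‖ ≤ 1 → ‖g.symm (up f k x) - x‖ ≤ ε0) := by
  have hC0 := h.hC0
  have hD1 := h.hD1
  have hD0 : 0 < D := lt_of_lt_of_le hC0 h.hCD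
  have hη0 := h.hη0
  have hDη0 : 0 < D ^ η := Real.rpow_pos_of_pos hD0 _
  have hDη1 : D ^ η < 1 := Real.rpow_lt_one hD0.le hD1 hη0
  have h1D : 0 < 1 - D ^ η := by linarith
  set μ : ℝ := min (1 / 4) ε0 with hμ
  have hμ0 : 0 < μ := lt_min (by norm_num) hε0
  set ε : ℝ := μ * (1 - D ^ η) with hεdef
  have hε : 0 < ε := mul_pos hμ0 h1D
  have hε1 : ε ≤ 1 := by
    have h1 : μ ≤ 1 / 4 := min_le_left _ _
    have h2 : ε ≤ μ * 1 := mul_le_mul_of_nonneg_left (by linarith) hμ0.le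
    linarith
  have hsum : ∀ n, ∑ t ∈ Finset.range n, ε * rho A t ^ η ≤ μ := by
    intro n
    rw [← Finset.mul_sum]
    calc ε * ∑ t ∈ Finset.range n, rho A t ^ η ≤ ε * (1 / (1 - D ^ η)) :=
          mul_le_mul_of_nonneg_left (sum_rho h n) hε.le
      _ = μ := by rw [hεdef]; field_simp
  obtain ⟨t1, Y0, hY0, hY1, hit⟩ := iterate h hε hε1
  have hup := isAut_up f h.aut t1
  have hz := mlg_up_zero h t1
  -- a ball inside the image of the ball
  obtain ⟨r, hr0, hr⟩ : ∃ r : ℝ, 0 < r ∧ ∀ y : E, ‖y‖ ≤ r → ‖(up f t1).symm y‖ ≤ 2 := by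
    have hc : ContinuousAt (fun y => (up f t1).symm y) 0 := hup.2.continuous.continuousAt
    rw [Metric.continuousAt_iff] at hc
    obtain ⟨δ, hδ, hc⟩ := hc 2 (by norm_num)
    have h0 : (up f t1).symm 0 = 0 := by
      rw [Equiv.symm_apply_eq]; exact hz.symm
    refine ⟨δ / 2, by positivity, fun y hy => ?_⟩
    have h1 := @hc y (by rw [dist_zero_right]; linarith)
    rw [h0, dist_zero_right] at h1
    exact h1.le
  obtain ⟨R0, hR0⟩ := GLA_bdd (fun x => up f t1 x) hup.1.continuous R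
  set R' : ℝ := max R0 r with hR'
  have hrR : r ≤ R' := le_max_right _ _
  have hΛ : 1 ≤ R' / r := by rw [le_div_iff₀ hr0]; linarith
  obtain ⟨N0, hN0⟩ := num_final D η Y0 (R' / r) hD0 hD1 hη0 hY0 hY1 hΛ
  set N : ℕ := max (max N0 t1) 1 with hN
  have hN1 : 1 ≤ N := le_max_right _ _
  have hNN : N0 ≤ N := (le_max_left _ _).trans (le_max_left _ _)
  have hNt : t1 ≤ N := (le_max_right _ _).trans (le_max_left _ _)
  obtain ⟨G, j, hG, ⟨p, hp1, hp2⟩, hj⟩ := hit N hNt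
  have haut := chain_aut h hG N le_rfl
  have hsz := chain_size h hG N le_rfl
  have hρ := rho_pos h N
  refine ⟨N, G N, hN1, haut, ?_, ?_, ?_⟩
  · intro x hx
    have h1 : ‖up f t1 x‖ ≤ R' := (hR0 x hx).trans (le_max_left _ _)
    have h2 : ∀ y : E, ‖y‖ ≤ r → ‖p y‖ ≤ 3 * rho A N := by
      intro y hy
      have h3 : p y = G N ((up f t1).symm y) := by
        rw [hp1, Equiv.apply_symm_apply]
      rw [h3]
      exact (norm_le_sz (G N) haut.1.continuous _ (hr y hy)).trans hsz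
    have h4 := bernstein p (2 ^ j) hp2 r R' (3 * rho A N) hr0 hrR (by positivity) h2
      (up f t1 x) h1
    rw [hp1]
    exact h4.trans (hN0 N hNN j (rho A N) hρ (rho_le_pow h N) hj)
  · intro x hx
    exact (chain_close h hε hG (fun n => (hsum n).trans (min_le_left _ _)) x hx).1.trans
      ((hsum N).trans (min_le_right _ _))
  · intro x hx
    exact (chain_close h hε hG (fun n => (hsum n).trans (min_le_left _ _)) x hx).2.trans
      ((hsum N).trans (min_le_right _ _))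

end

end Pool.Agent.Lib.MP_bdb4fe_an.G3
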