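import Pool.Agent.Lib.MP_bdb4fe_an.G3.CHN
import Pool.Agent.Lib.MP_bdb4fe_an.G3.KEP
import Pool.Agent.Lib.MP_bdb4fe_an.G3.DRX

/-!
Module RUN (90 min). Trains: continuation of a chain in a direction `n`.

FACTS. `cat A G S n c t = G t` for `t ≤ S`; for `t = S + k` it is `Hm (G S) (lc A S k) (c k) n` if
`k ≥ 1` and also (as a map) if `k = 0` and `c 0 = 0`. `Chain` depends only on the values at `t ≤ N`
(`chain_congr`). `IsAut (Hm G Λ c n)` if `IsAut G`. For `X = Hm G Λ c n x = Λ (G x + (c w²) n)`,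
`w = wd (G x) n`: `wd X (Λ n) = dt Λ * w` (`wd_map`, `wd_self`), and for `m = Λ n ≠ 0`, `m' = m/‖m‖`:
`Hm G (Λ.trans A_t) c' n x = A_t (X + ((c' - c) w²) m) = A_t (X + (β (wd X m')²) m')` if
`c' = c + β (dt Λ)² / ‖m‖³`.

`late_facts`: write `ρ = rho A t`, `s = sz G ≤ 3ρ`, `P = 4 (t+1) ρ^(-(1-4η)) dd A t`.
(1) `P ≤ (1/4) s³ ρ^(-(1-2η))`: from `ε ρ^η dd A t < s³` it is enough that
`16 (t+1) ρ^(-(1-4η)) ≤ ε ρ^η ρ^(-(1-2η))`, i.e. `16 (t+1) ρ^(2η) ≤ ε ρ^η` , true by `Late` (`60/C ≥ 16`).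
(2) `s³ ≤ 27 ρ³ = 27 ρ^(-(1-4η)) ρ^(4-4η) ≤ 27 ρ^(-(1-4η)) dd A t`, so
`P + s³ ≤ 31 (t+1) ρ^(-(1-4η)) dd A t`, times `27 (c/C³) ρ^(1-2η)` this is
`≤ (837/(100 C)) (t+1) ρ^(2η) dd A t ≤ (ε/7) ρ^η dd A t` (`c ≤ C²/100`, `7 * 837/100 ≤ 60`).

`run_alt`: induction on `k`. `k = 0`: `c = 0`. Step: suppose the left alternative for `k` with `c`;
put `H = cat … (S + k)`, `t = S + k`. If `sz H ^ 3 ≤ ε ρ^η dd A t`: continue with `c (k+1) := c k`
(`drop_step`). If not and some `y` has `‖wd (H y) m'‖ ≥ sz H ^ 2 ρ^(-(1-2η))`, `m' = m/‖m‖`,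
`m = lc A S k n`: `kept_step` (with `chain_area` for `P` and `late_facts`) gives `β`, and
`c (k+1) := c k + β (dt Λ)²/‖m‖³`. Otherwise the right alternative holds with `k' = k`.
`drop_ext`: induction on `m` with `c' j = c (min j k)`, `drop_step` at droppable times.
-/

set_option autoImplicit false

namespace Pool.Agent.Lib.MP_bdb4fe_an.G3

open Filter Topology Metric Set

section
variable {C D η c : ℝ} {f : ℕ → (E ≃ E)} {A : ℕ → (E ≃L[ℂ] E)} {B : ℕ → (E →L[ℂ] E →L[ℂ] E)}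
  {ε : ℝ}

theorem run_wd_diff (n : E) : Differentiable ℂ fun x : E => wd x n := by
  have h0 : Differentiable ℂ (fun x : E => x 0) := (EuclideanSpace.proj (𝕜 := ℂ) 0).differentiable
  have h1 : Differentiable ℂ (fun x : E => x 1) := (EuclideanSpace.proj (𝕜 := ℂ) 1).differentiable
  unfold wd
  exact (h0.mul_const _).sub (h1.mul_const _)

theorem run_shear_diff (a : ℂ) (n : E) : Differentiable ℂ (shear a n) := by
  have h := run_wd_diff n
  have h1 : Differentiable ℂ fun x : E => x + (a * wd x n ^ 2) • n :=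
    differentiable_id.add (((h.pow 2).const_mul a).smul_const n)
  exact h1

theorem run_shear_symm_diff (a : ℂ) (n : E) : Differentiable ℂ (shear a n).symm := by
  have h := run_wd_diff n
  have h1 : Differentiable ℂ fun x : E => x - (a * wd x n ^ 2) • n :=
    differentiable_id.sub (((h.pow 2).const_mul a).smul_const n)
  exact h1

theorem isAut_Hm (G : E ≃ E) (hG : IsAut G) (Λ : E ≃L[ℂ] E) (a : ℂ) (n : E) :
    IsAut (Hm G Λ a n) := by
  constructor
  · exact Λ.differentiable.comp ((run_shear_diff a n).comp hG.1)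
  · exact hG.2.comp ((run_shear_symm_diff a n).comp Λ.symm.differentiable)

theorem Hm_apply (G : E ≃ E) (Λ : E ≃L[ℂ] E) (a : ℂ) (n x : E) :
    Hm G Λ a n x = Λ (G x + (a * wd (G x) n ^ 2) • n) := by
  rfl

theorem chain_congr {N : ℕ} {G G' : ℕ → (E ≃ E)} (hc : Chain C η c ε f A N G)
    (h : ∀ t, t ≤ N → G' t = G t) : Chain C η c ε f A N G' := by
  constructor
  · rw [h 0 (Nat.zero_le _)]
    exact hc.zero
  · intro t ht
    rw [h t ht.le, h (t + 1) ht]
    exact hc.step t ht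

theorem chain_mono {N M : ℕ} {G : ℕ → (E ≃ E)} (hc : Chain C η c ε f A N G) (h : M ≤ N) :
    Chain C η c ε f A M G :=
  ⟨hc.zero, fun t ht => hc.step t (lt_of_lt_of_le ht h)⟩

theorem late_facts (h : Setup C D η c f A B) (hε : 0 < ε) {t1 : ℕ} (hL : Late C η ε A t1) (t : ℕ)
    (ht : t1 ≤ t) (s : ℝ) (hs0 : 0 ≤ s) (hs : s ≤ 3 * rho A t)
    (hnd : ε * rho A t ^ η * dd A t < s ^ 3) :
    4 * ((t : ℝ) + 1) * rho A t ^ (-(1 - 4 * η)) * dd A t ≤
        1 / 4 * s ^ 3 * rho A t ^ (-(1 - 2 * η)) ∧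
      27 * c / C ^ 3 * (4 * ((t : ℝ) + 1) * rho A t ^ (-(1 - 4 * η)) * dd A t + s ^ 3) *
        rho A t ^ (1 - 2 * η) ≤ ε / 7 * rho A t ^ η * dd A t := by
  have hC := h.hC0
  have hC1 : C < 1 := lt_of_le_of_lt h.hCD h.hD1
  have hc0 := h.hc0
  have hr := rho_pos h t
  have hd := dd_pos h t
  have hge := dd_ge h t
  have hLt := hL t ht
  set r := rho A t with hrdef
  set δ := dd A t with hδ
  have e1 : r ^ (-(1 - 4 * η)) = r ^ (-(1 - 2 * η)) * r ^ η * r ^ η := by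
    rw [← Real.rpow_add hr, ← Real.rpow_add hr]
    congr 1
    ring
  have e2 : r ^ (1 - 2 * η) * r ^ (-(1 - 2 * η)) = 1 := by
    rw [← Real.rpow_add hr]
    simp
  have e3 : r ^ 3 = r ^ (-(1 - 4 * η)) * r ^ (4 - 4 * η) := by
    rw [← Real.rpow_add hr, ← Real.rpow_natCast]
    congr 1
    push_cast
    ring
  have hη' : 0 < r ^ η := Real.rpow_pos_of_pos hr _
  have hm : 0 < r ^ (-(1 - 2 * η)) := Real.rpow_pos_of_pos hr _
  have hm4 : 0 < r ^ (-(1 - 4 * η)) := Real.rpow_pos_of_pos hr _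
  have hp : 0 < r ^ (1 - 2 * η) := Real.rpow_pos_of_pos hr _
  have ht0 : (0 : ℝ) ≤ t := Nat.cast_nonneg t
  have hL60 : 60 * (((t : ℝ) + 1) * r ^ η) ≤ C * ε := by
    have h1 : 60 / C * ((t : ℝ) + 1) * r ^ η = 60 * (((t : ℝ) + 1) * r ^ η) / C := by
      field_simp
    rw [h1, div_le_iff₀ hC] at hLt
    linarith
  have hCε : C * ε ≤ ε := by nlinarith
  constructor
  · have h1 : 16 * (((t : ℝ) + 1) * r ^ η) ≤ ε := by
      have : 0 ≤ ((t : ℝ) + 1) * r ^ η := by positivity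
      linarith
    calc 4 * ((t : ℝ) + 1) * r ^ (-(1 - 4 * η)) * δ
        = 1 / 4 * (16 * (((t : ℝ) + 1) * r ^ η)) * (r ^ η * δ) * r ^ (-(1 - 2 * η)) := by
          rw [e1]; ring
      _ ≤ 1 / 4 * ε * (r ^ η * δ) * r ^ (-(1 - 2 * η)) := by gcongr
      _ = 1 / 4 * (ε * r ^ η * δ) * r ^ (-(1 - 2 * η)) := by ring
      _ ≤ 1 / 4 * s ^ 3 * r ^ (-(1 - 2 * η)) := by gcongr
  · have hs3 : s ^ 3 ≤ 27 * r ^ (-(1 - 4 * η)) * δ := by
      calc s ^ 3 ≤ (3 * r) ^ 3 := pow_le_pow_left₀ hs0 hs 3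
        _ = 27 * r ^ (-(1 - 4 * η)) * r ^ (4 - 4 * η) := by
            rw [mul_pow, e3]; ring
        _ ≤ 27 * r ^ (-(1 - 4 * η)) * δ := by gcongr
    have hP : 4 * ((t : ℝ) + 1) * r ^ (-(1 - 4 * η)) * δ + s ^ 3 ≤
        31 * ((t : ℝ) + 1) * r ^ (-(1 - 4 * η)) * δ := by
      have h2 : 0 ≤ 27 * (t : ℝ) * r ^ (-(1 - 4 * η)) * δ := by positivity
      nlinarith
    have hcC : 100 * c ≤ C ^ 2 := by
      have h1 := h.hc
      have h2 : C ^ 2 * (1 - D) ≤ C ^ 2 := by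
        have hD0 : 0 < D := lt_of_lt_of_le hC h.hCD
        have : 0 ≤ C ^ 2 * D := by positivity
        linarith
      linarith
    have h3 : 27 * c / C ^ 3 * (31 * ((t : ℝ) + 1) * r ^ (-(1 - 4 * η)) * δ) * r ^ (1 - 2 * η) =
        837 * (c / C ^ 3) * (((t : ℝ) + 1) * r ^ η) * (r ^ η * δ) *
          (r ^ (1 - 2 * η) * r ^ (-(1 - 2 * η))) := by
      rw [e1]; ring
    have h4 : c / C ^ 3 ≤ 1 / (100 * C) := by
      rw [div_le_div_iff₀ (by positivity) (by positivity)]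
      nlinarith
    calc 27 * c / C ^ 3 * (4 * ((t : ℝ) + 1) * r ^ (-(1 - 4 * η)) * δ + s ^ 3) * r ^ (1 - 2 * η)
        ≤ 27 * c / C ^ 3 * (31 * ((t : ℝ) + 1) * r ^ (-(1 - 4 * η)) * δ) * r ^ (1 - 2 * η) := by
          gcongr
      _ = 837 * (c / C ^ 3) * (((t : ℝ) + 1) * r ^ η) * (r ^ η * δ) := by
          rw [h3, e2, mul_one]
      _ ≤ 837 * (1 / (100 * C)) * (((t : ℝ) + 1) * r ^ η) * (r ^ η * δ) := by gcongr
      _ = 837 / (6000 * C) * (60 * (((t : ℝ) + 1) * r ^ η)) * (r ^ η * δ) := by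
          field_simp
          ring
      _ ≤ 837 / (6000 * C) * (C * ε) * (r ^ η * δ) := by gcongr
      _ = 837 / 6000 * (ε * (r ^ η * δ)) := by
          field_simp
      _ ≤ 1 / 7 * (ε * (r ^ η * δ)) := by
          apply mul_le_mul_of_nonneg_right (by norm_num) (by positivity)
      _ = ε / 7 * r ^ η * δ := by ring

theorem run_cat_eq (G : ℕ → (E ≃ E)) (S : ℕ) (n : E) (a : ℕ → ℂ) (ha : a 0 = 0) (k : ℕ) (x : E) :
    cat A G S n a (S + k) x = lc A S k (G S x + (a k * wd (G S x) n ^ 2) • n) := by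
  rcases Nat.eq_zero_or_pos k with rfl | hk
  · rw [add_zero, ha, zero_mul, zero_smul, add_zero]
    simp [cat, lc]
  · unfold cat
    rw [if_neg (by omega), show S + k - S = k by omega]
    rfl

/-- extension of a train by one step -/
theorem run_ext (S : ℕ) (G : ℕ → (E ≃ E)) (n : E) (a : ℕ → ℂ) (ha : a 0 = 0) (k : ℕ)
    (hc : Chain C η c ε f A (S + k) (cat A G S n a)) (b : ℂ)
    (hst : StepOK C η c ε f A (S + k) (cat A G S n a (S + k)) (Hm (G S) (lc A S (k + 1)) b n)) :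
    ∃ a' : ℕ → ℂ, a' 0 = 0 ∧ Chain C η c ε f A (S + (k + 1)) (cat A G S n a') := by
  refine ⟨Function.update a (k + 1) b, ?_, ?_⟩
  · rw [Function.update_of_ne (by omega), ha]
  · have hcongr : ∀ t, t ≤ S + k → cat A G S n (Function.update a (k + 1) b) t =
        cat A G S n a t := by
      intro t ht
      unfold cat
      split_ifs with h1
      · rfl
      · rw [Function.update_of_ne (by omega)]
    have h1 := chain_congr hc hcongr
    refine ⟨h1.zero, fun t ht => ?_⟩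
    rcases Nat.lt_or_ge t (S + k) with h2 | h2
    · exact h1.step t h2
    · have h3 : t = S + k := by omega
      subst h3
      rw [hcongr (S + k) le_rfl]
      have h4 : cat A G S n (Function.update a (k + 1) b) (S + k + 1) =
          Hm (G S) (lc A S (k + 1)) b n := by
        unfold cat
        rw [if_neg (by omega), show S + k + 1 - S = k + 1 by omega, Function.update_self]
      rw [h4]
      exact hst

/-- dropping -/
theorem run_drop (h : Setup C D η c f A B) (hε : 0 < ε) (S : ℕ) (G : ℕ → (E ≃ E)) (n : E)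
    (a : ℕ → ℂ) (ha : a 0 = 0) (k : ℕ) (hG : IsAut (G S))
    (hc : Chain C η c ε f A (S + k) (cat A G S n a))
    (hd : sz (cat A G S n a (S + k)) ^ 3 ≤ ε * rho A (S + k) ^ η * dd A (S + k)) :
    ∃ a' : ℕ → ℂ, a' 0 = 0 ∧ Chain C η c ε f A (S + (k + 1)) (cat A G S n a') := by
  apply run_ext S G n a ha k hc (a k)
  refine drop_step h ε hε (S + k) _ (chain_aut h hc _ le_rfl) (chain_size h hc _ le_rfl) hd _
    (isAut_Hm _ hG _ _ _) ?_
  intro x
  rw [run_cat_eq G S n a ha k x, Hm_apply, lc_succ]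

theorem run_aut (h : Setup C D η c f A B) (S k : ℕ) (G : ℕ → (E ≃ E)) (n : E) (a : ℕ → ℂ)
    (hc : Chain C η c ε f A (S + k) (cat A G S n a)) : IsAut (G S) := by
  have h1 := chain_aut h hc S (by omega)
  unfold cat at h1
  rw [if_pos le_rfl] at h1
  exact h1

theorem run_alt (h : Setup C D η c f A B) (hε : 0 < ε) {t1 : ℕ} (hL : Late C η ε A t1) (S : ℕ)
    (hS : t1 ≤ S) (G : ℕ → (E ≃ E)) (hG : Chain C η c ε f A S G) (n : E) (hn : n ≠ 0) (k : ℕ) :
    (∃ a : ℕ → ℂ, a 0 = 0 ∧ Chain C η c ε f A (S + k) (cat A G S n a)) ∨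
    ∃ k', k' < k ∧ ∃ a : ℕ → ℂ, a 0 = 0 ∧ Chain C η c ε f A (S + k') (cat A G S n a) ∧
      ε * rho A (S + k') ^ η * dd A (S + k') < sz (cat A G S n a (S + k')) ^ 3 ∧
      ∀ y : E, ‖y‖ ≤ 2 → ‖wd (cat A G S n a (S + k') y) (lc A S k' n)‖ <
        sz (cat A G S n a (S + k')) ^ 2 * rho A (S + k') ^ (-(1 - 2 * η)) * ‖lc A S k' n‖ := by
  induction k with
  | zero =>
    left
    refine ⟨fun _ => 0, rfl, ?_⟩
    refine chain_congr hG fun t ht => ?_
    unfold cat
    rw [if_pos (by omega)]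
  | succ k ih =>
    rcases ih with ⟨a, ha, hc⟩ | ⟨k', hk', hr⟩
    · have hGS := run_aut h S k G n a hc
      rcases le_or_gt (sz (cat A G S n a (S + k)) ^ 3) (ε * rho A (S + k) ^ η * dd A (S + k))
        with hd | hd
      · left
        exact run_drop h hε S G n a ha k hGS hc hd
      · by_cases hy : ∃ y : E, ‖y‖ ≤ 2 ∧ sz (cat A G S n a (S + k)) ^ 2 *
            rho A (S + k) ^ (-(1 - 2 * η)) * ‖lc A S k n‖ ≤
            ‖wd (cat A G S n a (S + k) y) (lc A S k n)‖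
        · left
          obtain ⟨y, hy2, hy⟩ := hy
          have hm : lc A S k n ≠ 0 := by
            intro h0
            exact hn ((lc A S k).injective (h0.trans (map_zero _).symm))
          have hm0 : 0 < ‖lc A S k n‖ := norm_pos_iff.2 hm
          have hmC : ((‖lc A S k n‖ : ℝ) : ℂ) ≠ 0 := by exact_mod_cast hm0.ne'
          have haut := chain_aut h hc (S + k) le_rfl
          have hsz0 : 0 ≤ sz (cat A G S n a (S + k)) := (sz_pos _ haut.1.continuous).le
          have hsz := chain_size h hc (S + k) le_rfl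
          obtain ⟨hl1, hl2⟩ := late_facts h hε hL (S + k) (by omega) _ hsz0 hsz hd
          have hnm : ‖(((‖lc A S k n‖ : ℝ) : ℂ)⁻¹ • lc A S k n : E)‖ = 1 := by
            rw [norm_smul, norm_inv, Complex.norm_real, Real.norm_of_nonneg hm0.le,
              inv_mul_cancel₀ hm0.ne']
          obtain ⟨β, hβ⟩ := kept_step h ε hε (S + k) (cat A G S n a (S + k)) haut hsz
            (4 * (((S + k : ℕ) : ℝ) + 1) * rho A (S + k) ^ (-(1 - 4 * η)) * dd A (S + k))
            (fun x y hx hy => chain_area h hc (S + k) le_rfl x y hx hy)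
            ((((‖lc A S k n‖ : ℝ) : ℂ)⁻¹) • lc A S k n) hnm
            ⟨y, hy2, by
              rw [wd_smul_right, norm_mul, norm_inv, Complex.norm_real,
                Real.norm_of_nonneg hm0.le, le_inv_mul_iff₀ hm0, mul_comm]
              exact hy⟩ hl1 hl2
          apply run_ext S G n a ha k hc
            (a k + β * dt (lc A S k : E →L[ℂ] E) ^ 2 / ((‖lc A S k n‖ : ℝ) : ℂ) ^ 3)
          apply hβ _ (isAut_Hm _ hGS _ _ _)
          intro x
          rw [Hm_apply, lc_succ]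
          congr 1
          have hw : wd (cat A G S n a (S + k) x) (lc A S k n) =
              dt (lc A S k : E →L[ℂ] E) * wd (G S x) n := by
            rw [run_cat_eq G S n a ha k x]
            have h1 := wd_map (lc A S k : E →L[ℂ] E) (G S x + (a k * wd (G S x) n ^ 2) • n) n
            rw [wd_add_left, wd_smul_left, wd_self, mul_zero, add_zero] at h1
            exact h1
          rw [wd_smul_right, hw, run_cat_eq G S n a ha k x, smul_smul, ← map_smul, ← map_add,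
            add_assoc, ← add_smul]
          congr 3
          field_simp
        · right
          push Not at hy
          exact ⟨k, Nat.lt_succ_self k, a, ha, hc, hd, hy⟩
    · right
      exact ⟨k', hk'.trans (Nat.lt_succ_self k), hr⟩

theorem drop_ext (h : Setup C D η c f A B) (hε : 0 < ε) (S : ℕ) (G : ℕ → (E ≃ E)) (n : E)
    (a : ℕ → ℂ) (ha : a 0 = 0) (k m : ℕ) (hkm : k ≤ m)
    (hc : Chain C η c ε f A (S + k) (cat A G S n a)) :
    (∃ a' : ℕ → ℂ, a' 0 = 0 ∧ Chain C η c ε f A (S + m) (cat A G S n a')) ∨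
    ∃ k1, k ≤ k1 ∧ k1 < m ∧ ∃ a' : ℕ → ℂ, a' 0 = 0 ∧
      Chain C η c ε f A (S + k1) (cat A G S n a') ∧
      ε * rho A (S + k1) ^ η * dd A (S + k1) < sz (cat A G S n a' (S + k1)) ^ 3 := by
  induction m, hkm using Nat.le_induction with
  | base => exact Or.inl ⟨a, ha, hc⟩
  | succ m hkm ih =>
    rcases ih with ⟨a', ha', hc'⟩ | ⟨k1, h1, h2, h3⟩
    · rcases le_or_gt (sz (cat A G S n a' (S + m)) ^ 3) (ε * rho A (S + m) ^ η * dd A (S + m))
        with hd | hd
      · exact Or.inl (run_drop h hε S G n a' ha' m (run_aut h S m G n a' hc') hc' hd)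
      · exact Or.inr ⟨m, hkm, Nat.lt_succ_self m, a', ha', hc', hd⟩
    · exact Or.inr ⟨k1, h1, h2.trans (Nat.lt_succ_self m), h3⟩

end

end Pool.Agent.Lib.MP_bdb4fe_an.G3
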