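import Pool.Agent.Lib.MP_bdb4fe_an.G3.WDG

/-!
Module SZF (50 min). Sizes, and the real sequences `rho`, `dd`.

PROOF. `sz`: the image of the compact `closedBall 0 2` under the continuous `x ↦ ‖G x‖` is compact
and nonempty (`ProperSpace`), so the supremum is attained (`IsCompact.exists_isMaxOn` /
`IsCompact.sSup_mem`). `sz_pos`: `G` injective, so not both `G 0 = 0` and `G x = 0`.
Constants: `C ≤ ‖A j‖ ≤ D` (`opNorm_le_bound`; a unit vector `x` gives `C ≤ ‖A j x‖ ≤ ‖A j‖`), and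
`C ‖A j‖ ≤ ‖dt (A j)‖` (`norm_dt_ge`), `‖dt‖ ≤ ‖A j‖² ≤ ‖A j‖`. `dd_ge`: per factor
`‖A j‖ ^ (4 - 4η) = ‖A j‖ * ‖A j‖ ^ (3 - 4η) ≤ ‖A j‖ * D ^ (3 - 4η) ≤ ‖A j‖ C ≤ ‖dt (A j)‖`
(`Real.rpow_le_rpow`, `Real.finset_prod_rpow` or induction with `Real.mul_rpow`).
`norm_lc`: induction. `dt_lc`: induction with `dt_comp`. `late_exists`: `rho A t ^ η ≤ (D ^ η) ^ t`
with `0 < D ^ η < 1`, and `(t+1) q^t → 0`. `sum_rho`: geometric series
`∑ (D^η)^t ≤ 1/(1 - D^η)`. `sum_rho_tail`: `rho A (S + j) ^ (1 - 2η) ≤ rho A S ^ (1-2η) * (√D) ^ j`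
since `1 - 2η ≥ 1/2` and `rho A (S+j) ≤ rho A S * D^j`, and `∑ (√D)^j ≤ 1/(1-√D) ≤ 2/(1-D)`.
-/

set_option autoImplicit false

namespace Pool.Agent.Lib.MP_bdb4fe_an.G3

open Filter Topology Metric Set

theorem szf_ne : ((closedBall (0 : E) 2)).Nonempty := ⟨0, by simp⟩

theorem exists_sz (G : E → E) (hG : Continuous G) : ∃ x : E, ‖x‖ ≤ 2 ∧ ‖G x‖ = sz G := by
  have hc : IsCompact ((fun x => ‖G x‖) '' closedBall (0 : E) 2) :=
    (isCompact_closedBall (0 : E) 2).image hG.norm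
  have hm := hc.sSup_mem (szf_ne.image _)
  obtain ⟨x, hx, hx2⟩ := hm
  exact ⟨x, by simpa using hx, hx2⟩

theorem norm_le_sz (G : E → E) (hG : Continuous G) (x : E) (hx : ‖x‖ ≤ 2) : ‖G x‖ ≤ sz G := by
  have hc : IsCompact ((fun x => ‖G x‖) '' closedBall (0 : E) 2) :=
    (isCompact_closedBall (0 : E) 2).image hG.norm
  exact le_csSup hc.bddAbove ⟨x, by simpa using hx, rfl⟩

theorem sz_le (G : E → E) (M : ℝ) (h : ∀ x : E, ‖x‖ ≤ 2 → ‖G x‖ ≤ M) : sz G ≤ M := by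
  refine csSup_le (szf_ne.image _) ?_
  rintro _ ⟨x, hx, rfl⟩
  exact h x (by simpa using hx)

theorem sz_pos (G : E ≃ E) (hG : Continuous G) : 0 < sz G := by
  by_contra hcon
  have h0 : ∀ x : E, ‖x‖ ≤ 2 → G x = 0 := by
    intro x hx
    have := norm_le_sz G hG x hx
    exact norm_le_zero_iff.1 (this.trans (not_lt.1 hcon))
  have h1 : G 0 = G (EuclideanSpace.single 0 1) := by
    rw [h0 0 (by simp), h0 (EuclideanSpace.single 0 1) (by simp)]
  have h2 := G.injective h1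
  have h3 : ‖(EuclideanSpace.single 0 1 : E)‖ = 0 := by rw [← h2, norm_zero]
  simp at h3

section
variable {C D η c : ℝ} {f : ℕ → (E ≃ E)} {A : ℕ → (E ≃L[ℂ] E)} {B : ℕ → (E →L[ℂ] E →L[ℂ] E)}

theorem szf_D0 (h : Setup C D η c f A B) : 0 < D := h.hC0.trans_le h.hCD

theorem norm_A (h : Setup C D η c f A B) (n : ℕ) :
    C ≤ ‖(A n : E →L[ℂ] E)‖ ∧ ‖(A n : E →L[ℂ] E)‖ ≤ D := by
  constructor
  · have h1 := h.low n (EuclideanSpace.single 0 1)
    have h2 := (A n : E →L[ℂ] E).le_opNorm (EuclideanSpace.single 0 1)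
    rw [wdg_norm_e, mul_one] at h1 h2
    exact h1.trans h2
  · exact ContinuousLinearMap.opNorm_le_bound _ (szf_D0 h).le (fun x => h.upp n x)

theorem norm_dtA (h : Setup C D η c f A B) (n : ℕ) :
    C * ‖(A n : E →L[ℂ] E)‖ ≤ ‖dt (A n : E →L[ℂ] E)‖ ∧ 0 < ‖dt (A n : E →L[ℂ] E)‖ := by
  have h1 := norm_dt_ge (A n) C h.hC0 (h.low n)
  refine ⟨h1, lt_of_lt_of_le ?_ h1⟩
  exact mul_pos h.hC0 (h.hC0.trans_le (norm_A h n).1)

theorem rho_zero : rho A 0 = 1 := by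
  simp [rho]

theorem rho_succ (t : ℕ) : rho A (t + 1) = rho A t * ‖(A t : E →L[ℂ] E)‖ := by
  simp [rho, Finset.prod_range_succ]

theorem dd_zero : dd A 0 = 1 := by
  simp [dd]

theorem dd_succ (t : ℕ) : dd A (t + 1) = dd A t * ‖dt (A t : E →L[ℂ] E)‖ := by
  simp [dd, Finset.prod_range_succ]

theorem rho_pos (h : Setup C D η c f A B) (t : ℕ) : 0 < rho A t := by
  induction t with
  | zero => rw [rho_zero]; exact one_pos
  | succ t ih => rw [rho_succ]; exact mul_pos ih (h.hC0.trans_le (norm_A h t).1)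

theorem szf_step (h : Setup C D η c f A B) (t : ℕ) : rho A (t + 1) ≤ rho A t * D := by
  rw [rho_succ]
  exact mul_le_mul_of_nonneg_left (norm_A h t).2 (rho_pos h t).le

theorem szf_shift (h : Setup C D η c f A B) (s k : ℕ) : rho A (s + k) ≤ rho A s * D ^ k := by
  induction k with
  | zero => simp
  | succ k ih =>
    rw [← add_assoc, pow_succ, ← mul_assoc]
    exact (szf_step h (s + k)).trans (mul_le_mul_of_nonneg_right ih (szf_D0 h).le)

theorem rho_le_pow (h : Setup C D η c f A B) (t : ℕ) : rho A t ≤ D ^ t := by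
  have := szf_shift h 0 t
  rwa [rho_zero, one_mul, zero_add] at this

theorem rho_le_one (h : Setup C D η c f A B) (t : ℕ) : rho A t ≤ 1 :=
  (rho_le_pow h t).trans (pow_le_one₀ (szf_D0 h).le h.hD1.le)

theorem rho_anti (h : Setup C D η c f A B) {s t : ℕ} (hst : s ≤ t) : rho A t ≤ rho A s := by
  obtain ⟨k, rfl⟩ := Nat.exists_eq_add_of_le hst
  refine (szf_shift h s k).trans ?_
  exact mul_le_of_le_one_right (rho_pos h s).le (pow_le_one₀ (szf_D0 h).le h.hD1.le)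

theorem dd_pos (h : Setup C D η c f A B) (t : ℕ) : 0 < dd A t := by
  induction t with
  | zero => rw [dd_zero]; exact one_pos
  | succ t ih => rw [dd_succ]; exact mul_pos ih (norm_dtA h t).2

theorem szf_factor (h : Setup C D η c f A B) (t : ℕ) :
    ‖(A t : E →L[ℂ] E)‖ ^ (4 - 4 * η) ≤ ‖dt (A t : E →L[ℂ] E)‖ := by
  have ha := norm_A h t
  have ha0 : 0 < ‖(A t : E →L[ℂ] E)‖ := h.hC0.trans_le ha.1
  have he : (4 - 4 * η) = 1 + (3 - 4 * η) := by ring
  rw [he, Real.rpow_add ha0, Real.rpow_one]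
  have h1 : ‖(A t : E →L[ℂ] E)‖ ^ (3 - 4 * η) ≤ D ^ (3 - 4 * η) :=
    Real.rpow_le_rpow ha0.le ha.2 (by linarith [h.hη8])
  calc ‖(A t : E →L[ℂ] E)‖ * ‖(A t : E →L[ℂ] E)‖ ^ (3 - 4 * η)
      ≤ ‖(A t : E →L[ℂ] E)‖ * C := mul_le_mul_of_nonneg_left (h1.trans h.hCη) ha0.le
    _ = C * ‖(A t : E →L[ℂ] E)‖ := mul_comm _ _
    _ ≤ _ := (norm_dtA h t).1

theorem dd_ge (h : Setup C D η c f A B) (t : ℕ) : rho A t ^ (4 - 4 * η) ≤ dd A t := by
  induction t with
  | zero => rw [rho_zero, dd_zero, Real.one_rpow]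
  | succ t ih =>
    rw [rho_succ, dd_succ, Real.mul_rpow (rho_pos h t).le (norm_nonneg _)]
    exact mul_le_mul ih (szf_factor h t) (by positivity) (dd_pos h t).le

theorem lc_succ (S k : ℕ) (x : E) : lc A S (k + 1) x = A (S + k) (lc A S k x) := by
  rfl

theorem norm_lc (h : Setup C D η c f A B) (S k : ℕ) (x : E) :
    ‖lc A S k x‖ ≤ rho A (S + k) / rho A S * ‖x‖ := by
  have hS := rho_pos h S
  induction k with
  | zero =>
    have : lc A S 0 x = x := rfl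
    rw [this, add_zero, div_self hS.ne', one_mul]
  | succ k ih =>
    rw [lc_succ, ← add_assoc, rho_succ]
    have h1 := (A (S + k) : E →L[ℂ] E).le_opNorm (lc A S k x)
    refine h1.trans ?_
    refine (mul_le_mul_of_nonneg_left ih (norm_nonneg _)).trans (le_of_eq ?_)
    ring

/-- splitting `A(S, S+k) = A(S+j, S+k) ∘ A(S, S+j)` with the bound for the second factor and the
area inequality -/
theorem lc_split (h : Setup C D η c f A B) (S j k : ℕ) (hjk : j ≤ k) :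
    ∃ Λ : E ≃L[ℂ] E, (∀ x, lc A S k x = Λ (lc A S j x)) ∧
      ‖(Λ : E →L[ℂ] E)‖ ≤ rho A (S + k) / rho A (S + j) := by
  obtain ⟨m, rfl⟩ := Nat.exists_eq_add_of_le hjk
  refine ⟨lc A (S + j) m, ?_, ?_⟩
  · intro x
    induction m with
    | zero => rfl
    | succ m ih =>
      rw [← add_assoc, lc_succ, lc_succ, ih (Nat.le_add_right _ _), add_assoc]
  · refine ContinuousLinearMap.opNorm_le_bound _ ?_ (fun x => ?_)
    · exact div_nonneg (rho_pos h _).le (rho_pos h _).le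
    · have := norm_lc h (S + j) m x
      rwa [add_assoc] at this

theorem szf_q (h : Setup C D η c f A B) : 0 < D ^ η ∧ D ^ η < 1 :=
  ⟨Real.rpow_pos_of_pos (szf_D0 h) _, Real.rpow_lt_one (szf_D0 h).le h.hD1 h.hη0⟩

theorem szf_rho_eta (h : Setup C D η c f A B) (t : ℕ) : rho A t ^ η ≤ (D ^ η) ^ t := by
  have h1 : rho A t ^ η ≤ (D ^ t) ^ η :=
    Real.rpow_le_rpow (rho_pos h t).le (rho_le_pow h t) h.hη0.le
  refine h1.trans (le_of_eq ?_)
  rw [← Real.rpow_natCast, ← Real.rpow_natCast, ← Real.rpow_mul (szf_D0 h).le,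
    ← Real.rpow_mul (szf_D0 h).le, mul_comm]

theorem late_exists (h : Setup C D η c f A B) (ε : ℝ) (hε : 0 < ε) :
    ∃ t1 : ℕ, Late C η ε A t1 := by
  obtain ⟨hq0, hq1⟩ := szf_q h
  have hlim1 : Tendsto (fun t : ℕ => (t : ℝ) * (D ^ η) ^ t) atTop (𝓝 0) :=
    tendsto_self_mul_const_pow_of_lt_one hq0.le hq1
  have hlim2 : Tendsto (fun t : ℕ => (D ^ η) ^ t) atTop (𝓝 0) :=
    tendsto_pow_atTop_nhds_zero_of_lt_one hq0.le hq1
  have hlim : Tendsto (fun t : ℕ => 60 / C * ((t : ℝ) * (D ^ η) ^ t + (D ^ η) ^ t)) atTop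
      (𝓝 (60 / C * (0 + 0))) := (hlim1.add hlim2).const_mul _
  rw [add_zero, mul_zero] at hlim
  have hev := hlim.eventually (eventually_lt_nhds hε)
  obtain ⟨t1, ht1⟩ := eventually_atTop.1 hev
  refine ⟨t1, fun t ht => ?_⟩
  have h1 := ht1 t ht
  have h2 := szf_rho_eta h t
  have hC := h.hC0
  calc 60 / C * ((t : ℝ) + 1) * rho A t ^ η ≤ 60 / C * ((t : ℝ) + 1) * (D ^ η) ^ t :=
        mul_le_mul_of_nonneg_left h2 (by positivity)
    _ = 60 / C * ((t : ℝ) * (D ^ η) ^ t + (D ^ η) ^ t) := by ring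
    _ ≤ ε := h1.le

theorem szf_geom (q : ℝ) (hq0 : 0 ≤ q) (hq1 : q < 1) (n : ℕ) :
    ∑ t ∈ Finset.range n, q ^ t ≤ 1 / (1 - q) := by
  rw [geom_sum_eq hq1.ne n, ← neg_div_neg_eq, neg_sub, neg_sub]
  have h1 : 0 < 1 - q := by linarith
  exact div_le_div_of_nonneg_right (by linarith [pow_nonneg hq0 n]) h1.le

theorem sum_rho (h : Setup C D η c f A B) (n : ℕ) :
    ∑ t ∈ Finset.range n, rho A t ^ η ≤ 1 / (1 - D ^ η) := by
  obtain ⟨hq0, hq1⟩ := szf_q h
  refine (Finset.sum_le_sum (fun t _ => szf_rho_eta h t)).trans ?_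
  exact szf_geom _ hq0.le hq1 n

theorem sum_rho_tail (h : Setup C D η c f A B) (S n : ℕ) :
    ∑ j ∈ Finset.range n, rho A (S + j) ^ (1 - 2 * η) ≤ rho A S ^ (1 - 2 * η) * (2 / (1 - D)) := by
  have hD0 := szf_D0 h
  have hD1 := h.hD1
  have he : 0 < 1 - 2 * η := by linarith [h.hη8]
  have hs0 : 0 ≤ √D := Real.sqrt_nonneg _
  have hs1 : √D < 1 := by
    rw [Real.sqrt_lt' one_pos]; simpa using hD1
  have hss : √D * √D = D := Real.mul_self_sqrt hD0.le
  have hterm : ∀ j : ℕ, rho A (S + j) ^ (1 - 2 * η) ≤ rho A S ^ (1 - 2 * η) * (√D) ^ j := by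
    intro j
    have h1 : rho A (S + j) ^ (1 - 2 * η) ≤ (rho A S * D ^ j) ^ (1 - 2 * η) :=
      Real.rpow_le_rpow (rho_pos h _).le (szf_shift h S j) he.le
    refine h1.trans ?_
    rw [Real.mul_rpow (rho_pos h S).le (by positivity)]
    refine mul_le_mul_of_nonneg_left ?_ (by have := rho_pos h S; positivity)
    have h2 : (D ^ j) ^ (1 - 2 * η) ≤ (D ^ j) ^ (1 / 2 : ℝ) := by
      refine Real.rpow_le_rpow_of_exponent_ge (by positivity) (pow_le_one₀ hD0.le hD1.le) ?_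
      linarith [h.hη8]
    refine h2.trans (le_of_eq ?_)
    rw [Real.sqrt_eq_rpow, ← Real.rpow_natCast, ← Real.rpow_natCast, ← Real.rpow_mul hD0.le,
      ← Real.rpow_mul hD0.le, mul_comm]
  refine (Finset.sum_le_sum (fun j _ => hterm j)).trans ?_
  rw [← Finset.mul_sum]
  refine mul_le_mul_of_nonneg_left ?_ (by have := rho_pos h S; positivity)
  refine (szf_geom _ hs0 hs1 n).trans ?_
  have h1 : 0 < 1 - √D := by linarith
  have h2 : 0 < 1 - D := by linarith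
  rw [div_le_div_iff₀ h1 h2]
  nlinarith

end

end Pool.Agent.Lib.MP_bdb4fe_an.G3
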