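import Pool.Agent.Lib.MP_bdb4fe_an.G3.WDG
import Pool.Agent.Lib.MP_bdb4fe_an.G3.HOL

/-!
Module TAY (75 min). Uniform Taylor estimates at the origin.

`taylor`. PROOF. Let `B = (1/2) • fderiv ℂ (fderiv ℂ F) 0` (as `E →L[ℂ] E →L[ℂ] E`), symmetric by
`ContDiffAt.isSymmSndFDerivAt` (a differentiable map of complex spaces is `ContDiff`:
`Differentiable.contDiff`). Fix `x` with `‖x‖ = 1` and put `φ ζ = F (ζ • x)`, entire, `‖φ‖ ≤ 1` on the
unit disc, `φ 0 = 0`. `g1 = dslope φ 0`, `g2 = dslope g1 0`, `g3 = dslope g2 0` are entire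
(`Complex.differentiableOn_dslope`), `φ ζ = ζ • g1 ζ`, `g1 ζ = g1 0 + ζ • g2 ζ`, `g2 ζ = g2 0 + ζ • g3 ζ`, and
by the Schwarz lemma (`Complex.norm_dslope_le_div_of_mapsTo_ball`; or the maximum principle)
`‖g1‖ ≤ 1`, `‖g2‖ ≤ 2`, `‖g3‖ ≤ 4` on the unit disc (to have strict inclusions use balls of radius
`1 + ε'`, or apply it on smaller discs and pass to the limit; the constants in the statement leave
room). `g1 0 = φ'(0) = fderiv ℂ F 0 x`, and differentiating `φ = ζ g1` twice at `0`: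
`φ''(0) = 2 g1'(0) = 2 g2 0`, `φ''(0) = fderiv (fderiv F) 0 x x = 2 B x x`. So
`φ ζ - ζ φ'(0) = ζ² g2 ζ`, `φ ζ - ζ φ'(0) - ζ² B x x = ζ³ g3 ζ`. General `x`: scale (`ζ = ‖x‖`).
`‖B x x‖ = ‖g2 0‖ ≤ 2` for unit `x`; polarisation `4 B x y = B (x+y) (x+y) - B (x-y) (x-y)` and the
parallelogram law give `‖B x y‖ ≤ ‖x‖² + ‖y‖²`, and by scaling `≤ 2 ‖x‖ ‖y‖ ≤ 6 ‖x‖ ‖y‖`.

`fderiv_near`. PROOF. For `‖z‖ < 1` and a unit vector `v` Cauchy on a disc of radius `r < 1 - ‖z‖` gives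
`‖fderiv F z v‖ ≤ 1/r`, so `‖fderiv F z‖ ≤ 1/(1 - ‖z‖) ≤ 4` for `‖z‖ ≤ 3/4`. For fixed unit `v` the
map `ζ ↦ fderiv F (ζ • u) v`, `u = x/‖x‖`, is holomorphic and bounded by `4` on the disc of radius `3/4`;
by the Schwarz lemma `‖fderiv F (ζ u) v - fderiv F 0 v‖ ≤ 8 * ‖ζ‖ / (3/4) ≤ 100 ‖ζ‖` (or use the mean
value inequality with the Cauchy bound for the derivative).

`linear_part`. PROOF. `A = fderiv ℂ f 0` is invertible, the inverse is `fderiv ℂ f.symm 0`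
(`f 0 = 0` from `hb` at `0`; chain rule; `ContinuousLinearEquiv.equivOfInverse`). For `x` fixed and real
`t → 0+`: `‖f (t x)‖ / t → ‖A x‖` and `C ‖x‖ ≤ ‖f (t x)‖/t ≤ D ‖x‖`.
-/

set_option autoImplicit false

namespace Pool.Agent.Lib.MP_bdb4fe_an.G3

open Filter Topology Metric Set

/-! ### one variable -/

lemma tay_ds (φ : ℂ → E) (hφ : Differentiable ℂ φ) (K : ℝ)
    (h : ∀ z : ℂ, ‖z‖ < 1 → ‖φ z - φ 0‖ ≤ K) (z : ℂ) (hz : ‖z‖ < 1) : ‖dslope φ 0 z‖ ≤ K := by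
  have := Complex.norm_dslope_le_div_of_mapsTo_ball (f := φ) (c := 0) (R₁ := 1) (R₂ := K) (z := z)
    hφ.differentiableOn (fun w hw => by
      rw [mem_closedBall, dist_eq_norm]
      exact h w (by simpa using hw)) (by simpa using hz)
  simpa using this

lemma tay_dsd (φ : ℂ → E) (hφ : Differentiable ℂ φ) : Differentiable ℂ (dslope φ 0) := by
  have := (Complex.differentiableOn_dslope (f := φ) (c := 0) (s := univ) univ_mem).2
    hφ.differentiableOn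
  exact differentiableOn_univ.1 this

lemma tay_eq (φ : ℂ → E) (z : ℂ) : φ z = φ 0 + z • dslope φ 0 z := by
  have := sub_smul_dslope φ 0 z
  rw [sub_zero] at this
  rw [this]
  abel

/-- the Taylor estimates in one variable -/
lemma tay_one (φ : ℂ → E) (hφ : Differentiable ℂ φ) (K : ℝ)
    (h : ∀ z : ℂ, ‖z‖ < 1 → ‖φ z - φ 0‖ ≤ K) :
    ‖dslope (dslope φ 0) 0 0‖ ≤ 2 * K ∧ ∀ z : ℂ, ‖z‖ < 1 →
      ‖φ z - φ 0 - z • deriv φ 0‖ ≤ 2 * K * ‖z‖ ^ 2 ∧
      ‖φ z - φ 0 - z • deriv φ 0 - z ^ 2 • dslope (dslope φ 0) 0 0‖ ≤ 4 * K * ‖z‖ ^ 3 := by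
  set g1 := dslope φ 0 with hg1
  set g2 := dslope g1 0 with hg2
  set g3 := dslope g2 0 with hg3
  have d1 : Differentiable ℂ g1 := tay_dsd φ hφ
  have d2 : Differentiable ℂ g2 := tay_dsd g1 d1
  have b1 : ∀ z : ℂ, ‖z‖ < 1 → ‖g1 z‖ ≤ K := tay_ds φ hφ K h
  have b1' : ∀ z : ℂ, ‖z‖ < 1 → ‖g1 z - g1 0‖ ≤ 2 * K := fun z hz =>
    (norm_sub_le _ _).trans (by have := b1 z hz; have := b1 0 (by simp); linarith)
  have b2 : ∀ z : ℂ, ‖z‖ < 1 → ‖g2 z‖ ≤ 2 * K := tay_ds g1 d1 (2 * K) b1'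
  have b2' : ∀ z : ℂ, ‖z‖ < 1 → ‖g2 z - g2 0‖ ≤ 4 * K := fun z hz =>
    (norm_sub_le _ _).trans (by have := b2 z hz; have := b2 0 (by simp); linarith)
  have b3 : ∀ z : ℂ, ‖z‖ < 1 → ‖g3 z‖ ≤ 4 * K := tay_ds g2 d2 (4 * K) b2'
  have e0 : g1 0 = deriv φ 0 := dslope_same φ 0
  refine ⟨b2 0 (by simp), fun z hz => ?_⟩
  have e1 : φ z - φ 0 - z • deriv φ 0 = z ^ 2 • g2 z := by
    rw [tay_eq φ z, ← hg1, tay_eq g1 z, ← hg2, ← e0]
    module
  have e2 : φ z - φ 0 - z • deriv φ 0 - z ^ 2 • g2 0 = z ^ 3 • g3 z := by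
    rw [e1, tay_eq g2 z, ← hg3]
    module
  constructor
  · rw [e1, norm_smul, norm_pow, mul_comm]
    exact mul_le_mul_of_nonneg_right (b2 z hz) (by positivity)
  · rw [e2, norm_smul, norm_pow, mul_comm]
    exact mul_le_mul_of_nonneg_right (b3 z hz) (by positivity)

lemma tay_d2 (φ : ℂ → E) (hφ : Differentiable ℂ φ) :
    (2 : ℂ) • dslope (dslope φ 0) 0 0 = deriv (deriv φ) 0 := by
  set g1 := dslope φ 0 with hg1
  have d1 : Differentiable ℂ g1 := tay_dsd φ hφ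
  have dd1 : DifferentiableAt ℂ (deriv g1) 0 :=
    ((d1.analyticAt 0).deriv).differentiableAt
  have e : deriv φ = fun z => g1 z + z • deriv g1 z := by
    funext z
    have h1 : HasDerivAt (fun z : ℂ => φ 0 + z • g1 z) (z • deriv g1 z + (1 : ℂ) • g1 z) z :=
      ((hasDerivAt_id z).smul (d1 z).hasDerivAt).const_add _
    have h2 : φ = fun z : ℂ => φ 0 + z • g1 z := funext fun z => tay_eq φ z
    rw [h2, h1.deriv, one_smul, add_comm]
  have h3 : HasDerivAt (fun z : ℂ => g1 z + z • deriv g1 z)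
      (deriv g1 0 + ((0 : ℂ) • deriv (deriv g1) 0 + (1 : ℂ) • deriv g1 0)) 0 :=
    (d1 0).hasDerivAt.add ((hasDerivAt_id (0 : ℂ)).smul dd1.hasDerivAt)
  rw [e, h3.deriv, dslope_same, zero_smul, zero_add, one_smul, two_smul]

/-! ### the restriction of a holomorphic map to a line -/

lemma tay_line (F : E → E) (hF : Differentiable ℂ F) (x v : E) (ζ : ℂ) :
    HasDerivAt (fun ζ : ℂ => F (x + ζ • v)) (fderiv ℂ F (x + ζ • v) v) ζ := by
  have h1 := (hasDerivAt_id ζ).smul_const v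
  rw [one_smul] at h1
  exact (hF (x + ζ • v)).hasFDerivAt.comp_hasDerivAt ζ (h1.const_add x)

lemma tay_bs (B : E →L[ℂ] E →L[ℂ] E) (z w : ℂ) (x y : E) :
    B (z • x) (w • y) = (z * w) • B x y := by
  have h : B (z • x) = z • B x := map_smul B z x
  rw [h, smul_apply, map_smul, smul_smul]

/-- the derivative in a fixed direction is holomorphic -/
lemma tay_dir (F : E → E) (hF : Differentiable ℂ F) (v : E) :
    Differentiable ℂ (fun z => fderiv ℂ F z v) := by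
  rw [← differentiableOn_univ]
  apply hol_limit univ isOpen_univ
    (fun n z => ((n : ℂ) + 2) • (F (z + ((n : ℂ) + 2)⁻¹ • v) - F z))
  · intro n
    exact ((hF.comp (differentiable_id.add_const _)).sub hF).const_smul ((n : ℂ) + 2)
  · rw [tendstoLocallyUniformlyOn_iff_forall_isCompact isOpen_univ]
    intro S _ hS
    obtain ⟨R, hR⟩ := hS.isBounded.exists_norm_le
    obtain ⟨M, hM⟩ := ((isCompact_closedBall (0 : E) (R + ‖v‖)).image
      hF.continuous).isBounded.exists_norm_le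
    have hM' : ∀ y : E, ‖y‖ ≤ R + ‖v‖ → ‖F y‖ ≤ M := fun y hy =>
      hM _ ⟨y, by simpa using hy, rfl⟩
    rw [Metric.tendstoUniformlyOn_iff]
    intro ε hε
    have hlim : Tendsto (fun n : ℕ => 4 * M * ((n : ℝ) + 2)⁻¹) atTop (𝓝 (4 * M * 0)) := by
      apply Tendsto.const_mul
      exact tendsto_inv_atTop_zero.comp
        (tendsto_atTop_add_const_right _ _ tendsto_natCast_atTop_atTop)
    rw [mul_zero] at hlim
    filter_upwards [hlim.eventually (gt_mem_nhds hε)] with n hn z hz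
    have hz' : ‖z‖ ≤ R := hR z hz
    have hK : ∀ ζ : ℂ, ‖ζ‖ < 1 → ‖F (z + ζ • v) - F (z + (0 : ℂ) • v)‖ ≤ 2 * M := by
      intro ζ hζ
      have h1 : ‖F (z + ζ • v)‖ ≤ M := by
        apply hM'
        refine (norm_add_le _ _).trans ?_
        rw [norm_smul]
        have : ‖ζ‖ * ‖v‖ ≤ 1 * ‖v‖ := mul_le_mul_of_nonneg_right hζ.le (norm_nonneg _)
        linarith
      have h2 : ‖F (z + (0 : ℂ) • v)‖ ≤ M := by
        apply hM'
        rw [zero_smul, add_zero]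
        have := norm_nonneg v
        linarith
      exact (norm_sub_le _ _).trans (by linarith)
    have hn2 : (0 : ℝ) < (n : ℝ) + 2 := by positivity
    have hnn : ‖((n : ℂ) + 2)‖ = (n : ℝ) + 2 := by
      have : ((n : ℂ) + 2) = (((n : ℝ) + 2 : ℝ) : ℂ) := by push_cast; ring
      rw [this, Complex.norm_real, Real.norm_of_nonneg hn2.le]
    have hne : ((n : ℂ) + 2) ≠ 0 := by
      rw [← norm_pos_iff, hnn]
      exact hn2
    have hlt : ‖((n : ℂ) + 2)⁻¹‖ < 1 := by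
      rw [norm_inv, hnn]
      exact inv_lt_one_of_one_lt₀ (by linarith [(Nat.cast_nonneg n : (0 : ℝ) ≤ n)])
    have key := ((tay_one (fun ζ : ℂ => F (z + ζ • v))
      (fun ζ => (tay_line F hF z v ζ).differentiableAt) (2 * M) hK).2 _ hlt).1
    rw [(tay_line F hF z v 0).deriv] at key
    simp only [zero_smul, add_zero] at key
    rw [dist_comm, dist_eq_norm]
    have e : ((n : ℂ) + 2) • (F (z + ((n : ℂ) + 2)⁻¹ • v) - F z) - fderiv ℂ F z v =
        ((n : ℂ) + 2) • (F (z + ((n : ℂ) + 2)⁻¹ • v) - F z - ((n : ℂ) + 2)⁻¹ • fderiv ℂ F z v) := by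
      rw [smul_sub _ (F (z + ((n : ℂ) + 2)⁻¹ • v) - F z), smul_inv_smul₀ hne]
    rw [e, norm_smul, hnn]
    refine lt_of_le_of_lt ?_ hn
    calc ((n : ℝ) + 2) * ‖F (z + ((n : ℂ) + 2)⁻¹ • v) - F z - ((n : ℂ) + 2)⁻¹ • fderiv ℂ F z v‖
        ≤ ((n : ℝ) + 2) * (2 * (2 * M) * ‖((n : ℂ) + 2)⁻¹‖ ^ 2) :=
          mul_le_mul_of_nonneg_left key hn2.le
      _ = 4 * M * ((n : ℝ) + 2)⁻¹ := by
          rw [norm_inv, hnn]
          field_simp
          ring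

/-- the derivative of a holomorphic map of `ℂ²` is holomorphic -/
lemma tay_fd (F : E → E) (hF : Differentiable ℂ F) : Differentiable ℂ (fderiv ℂ F) := by
  have e : fderiv ℂ F = fun z =>
      ContinuousLinearMap.smulRightL ℂ E E (EuclideanSpace.proj (𝕜 := ℂ) (0 : Fin 2))
        (fderiv ℂ F z (EuclideanSpace.single 0 1)) +
      ContinuousLinearMap.smulRightL ℂ E E (EuclideanSpace.proj (𝕜 := ℂ) (1 : Fin 2))
        (fderiv ℂ F z (EuclideanSpace.single 1 1)) := by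
    funext z
    ext1 w
    have hw : w = w 0 • EuclideanSpace.single (0 : Fin 2) (1 : ℂ) +
        w 1 • EuclideanSpace.single (1 : Fin 2) (1 : ℂ) := by
      ext i
      fin_cases i <;> simp
    conv_lhs => rw [hw]
    rw [map_add, map_smul, map_smul]
    rfl
  rw [e]
  have h1 := tay_dir F hF (EuclideanSpace.single 0 1)
  have h2 := tay_dir F hF (EuclideanSpace.single 1 1)
  exact ((ContinuousLinearMap.differentiable _).comp h1).add
    ((ContinuousLinearMap.differentiable _).comp h2)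

theorem taylor (F : E → E) (hF : Differentiable ℂ F) (h0 : F 0 = 0)
    (hb : ∀ z : E, ‖z‖ < 1 → ‖F z‖ ≤ 1) :
    ∃ B : E →L[ℂ] E →L[ℂ] E, (∀ x y, B x y = B y x) ∧ (∀ x y, ‖B x y‖ ≤ 6 * ‖x‖ * ‖y‖) ∧
      (∀ x : E, ‖x‖ ≤ 1 / 2 → ‖F x - fderiv ℂ F 0 x‖ ≤ 4 * ‖x‖ ^ 2) ∧
      (∀ x : E, ‖x‖ ≤ 1 / 2 → ‖F x - fderiv ℂ F 0 x - B x x‖ ≤ 8 * ‖x‖ ^ 3) := by
  have hfd := tay_fd F hF
  set B : E →L[ℂ] E →L[ℂ] E := (2 : ℂ)⁻¹ • fderiv ℂ (fderiv ℂ F) 0 with hB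
  have hsym : ∀ x y, B x y = B y x := by
    intro x y
    have := second_derivative_symmetric (𝕜 := ℂ) (fun y => (hF y).hasFDerivAt)
      (hfd 0).hasFDerivAt x y
    simp only [hB, smul_apply, this]
  -- the restriction to the line through a unit vector
  have hline : ∀ u : E, ‖u‖ = 1 → ‖B u u‖ ≤ 2 ∧ ∀ z : ℂ, ‖z‖ < 1 →
      ‖F (z • u) - fderiv ℂ F 0 (z • u)‖ ≤ 2 * ‖z‖ ^ 2 ∧
      ‖F (z • u) - fderiv ℂ F 0 (z • u) - B (z • u) (z • u)‖ ≤ 4 * ‖z‖ ^ 3 := by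
    intro u hu
    set φ : ℂ → E := fun ζ => F (0 + ζ • u) with hφ
    have dφ : ∀ ζ : ℂ, HasDerivAt φ (fderiv ℂ F (0 + ζ • u) u) ζ := tay_line F hF 0 u
    have hdφ : Differentiable ℂ φ := fun ζ => (dφ ζ).differentiableAt
    have hφ0 : φ 0 = 0 := by simp [hφ, h0]
    have hK : ∀ z : ℂ, ‖z‖ < 1 → ‖φ z - φ 0‖ ≤ 1 := by
      intro z hz
      rw [hφ0, sub_zero]
      apply hb
      rw [zero_add, norm_smul, hu, mul_one]
      exact hz
    have e1 : deriv φ 0 = fderiv ℂ F 0 u := by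
      rw [(dφ 0).deriv]
      simp
    have e2 : deriv (deriv φ) 0 = fderiv ℂ (fderiv ℂ F) 0 u u := by
      have h1 : deriv φ = fun ζ => fderiv ℂ F (0 + ζ • u) u := funext fun ζ => (dφ ζ).deriv
      have h2 : HasDerivAt (fun ζ : ℂ => fderiv ℂ F (0 + ζ • u))
          (fderiv ℂ (fderiv ℂ F) (0 + (0 : ℂ) • u) u) 0 := by
        have h1 := (hasDerivAt_id (0 : ℂ)).smul_const u
        rw [one_smul] at h1
        exact (hfd (0 + (0 : ℂ) • u)).hasFDerivAt.comp_hasDerivAt (0 : ℂ) (h1.const_add (0 : E))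
      have h3 := h2.clm_apply (hasDerivAt_const (0 : ℂ) u)
      rw [h1, h3.deriv]
      simp
    have e3 : dslope (dslope φ 0) 0 0 = B u u := by
      have := tay_d2 φ hdφ
      rw [e2] at this
      rw [hB, smul_apply, smul_apply, ← this, smul_smul]
      norm_num
    obtain ⟨k1, k2⟩ := tay_one φ hdφ 1 hK
    rw [e3] at k1 k2
    refine ⟨by linarith, fun z hz => ?_⟩
    obtain ⟨k3, k4⟩ := k2 z hz
    have f1 : φ z = F (z • u) := by simp [hφ]
    have f2 : fderiv ℂ F 0 (z • u) = z • fderiv ℂ F 0 u := map_smul _ _ _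
    have f3 : B (z • u) (z • u) = z ^ 2 • B u u := by
      rw [tay_bs, sq]
    rw [f1, hφ0, sub_zero, e1, ← f2] at k3 k4
    rw [← f3] at k4
    constructor
    · linarith
    · linarith
  have hsplit : ∀ x : E, x ≠ 0 → ∃ u : E, ‖u‖ = 1 ∧ x = ((‖x‖ : ℝ) : ℂ) • u := by
    intro x hx
    have hx0 : ((‖x‖ : ℝ) : ℂ) ≠ 0 := by
      simpa using hx
    refine ⟨((‖x‖ : ℝ) : ℂ)⁻¹ • x, ?_, ?_⟩
    · rw [norm_smul, norm_inv, Complex.norm_real, norm_norm]
      exact inv_mul_cancel₀ (norm_ne_zero_iff.2 hx)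
    · rw [smul_inv_smul₀ hx0]
  have hBd : ∀ x : E, ‖B x x‖ ≤ 2 * ‖x‖ ^ 2 := by
    intro x
    by_cases hx : x = 0
    · simp [hx]
    obtain ⟨u, hu, hxu⟩ := hsplit x hx
    have h1 := (hline u hu).1
    have h2 : B x x = ((‖x‖ : ℝ) : ℂ) ^ 2 • B u u := by
      conv_lhs => rw [hxu]
      rw [tay_bs, sq]
    rw [h2, norm_smul, norm_pow, Complex.norm_real, norm_norm, mul_comm]
    exact mul_le_mul_of_nonneg_right h1 (by positivity)
  refine ⟨B, hsym, ?_, ?_, ?_⟩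
  · intro x y
    by_cases hx : x = 0
    · simp [hx]
    by_cases hy : y = 0
    · simp [hy]
    obtain ⟨u, hu, hxu⟩ := hsplit x hx
    obtain ⟨v, hv, hyv⟩ := hsplit y hy
    have h1 : (4 : ℂ) • B u v = B (u + v) (u + v) - B (u - v) (u - v) := by
      simp only [map_add, map_sub, add_apply, sub_apply]
      rw [hsym v u]
      module
    have h2 : ‖u + v‖ ≤ 2 := (norm_add_le _ _).trans (by rw [hu, hv]; norm_num)
    have h3 : ‖u - v‖ ≤ 2 := (norm_sub_le _ _).trans (by rw [hu, hv]; norm_num)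
    have h4 : ‖(4 : ℂ) • B u v‖ ≤ 16 := by
      rw [h1]
      refine (norm_sub_le _ _).trans ?_
      have a1 := hBd (u + v)
      have a2 := hBd (u - v)
      have a3 : ‖u + v‖ ^ 2 ≤ 2 ^ 2 := pow_le_pow_left₀ (norm_nonneg _) h2 2
      have a4 : ‖u - v‖ ^ 2 ≤ 2 ^ 2 := pow_le_pow_left₀ (norm_nonneg _) h3 2
      linarith
    have h5 : ‖B u v‖ ≤ 4 := by
      rw [norm_smul] at h4
      have : ‖(4 : ℂ)‖ = 4 := by norm_num
      rw [this] at h4
      linarith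
    have h6 : B x y = (((‖x‖ : ℝ) : ℂ) * ((‖y‖ : ℝ) : ℂ)) • B u v := by
      conv_lhs => rw [hxu, hyv]
      rw [tay_bs]
    rw [h6, norm_smul, norm_mul, Complex.norm_real, Complex.norm_real, norm_norm, norm_norm]
    have h7 : 0 ≤ ‖x‖ * ‖y‖ := by positivity
    nlinarith
  · intro x hx
    by_cases hx0 : x = 0
    · simp [hx0, h0]
    obtain ⟨u, hu, hxu⟩ := hsplit x hx0
    have hn : ‖((‖x‖ : ℝ) : ℂ)‖ = ‖x‖ := by rw [Complex.norm_real, norm_norm]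
    have h1 := ((hline u hu).2 ((‖x‖ : ℝ) : ℂ) (by rw [hn]; linarith)).1
    rw [← hxu, hn] at h1
    have : 0 ≤ ‖x‖ ^ 2 := by positivity
    linarith
  · intro x hx
    by_cases hx0 : x = 0
    · simp [hx0, h0]
    obtain ⟨u, hu, hxu⟩ := hsplit x hx0
    have hn : ‖((‖x‖ : ℝ) : ℂ)‖ = ‖x‖ := by rw [Complex.norm_real, norm_norm]
    have h1 := ((hline u hu).2 ((‖x‖ : ℝ) : ℂ) (by rw [hn]; linarith)).2
    rw [← hxu, hn] at h1
    have : 0 ≤ ‖x‖ ^ 3 := by positivity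
    linarith

theorem fderiv_near (F : E → E) (hF : Differentiable ℂ F) (hb : ∀ z : E, ‖z‖ < 1 → ‖F z‖ ≤ 1)
    (x : E) (hx : ‖x‖ ≤ 1 / 2) : ‖fderiv ℂ F x - fderiv ℂ F 0‖ ≤ 100 * ‖x‖ := by
  have h1 : ∀ z : E, ‖z‖ ≤ 3 / 4 → ‖fderiv ℂ F z‖ ≤ 5 := by
    intro z hz
    have := hol_bound F hF z (1 / 5) 1 (by norm_num) (by norm_num) (fun w hw => hb w (by
      rw [dist_eq_norm] at hw
      have : ‖w‖ ≤ ‖w - z‖ + ‖z‖ := by simpa using norm_add_le (w - z) z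
      linarith))
    linarith
  refine ContinuousLinearMap.opNorm_le_bound _ (by positivity) (fun v => ?_)
  have hg := tay_dir F hF v
  have h2 : ∀ z ∈ closedBall (0 : E) (1 / 2), ‖fderiv ℂ (fun z => fderiv ℂ F z v) z‖ ≤ 20 * ‖v‖ := by
    intro z hz
    have hz' : ‖z‖ ≤ 1 / 2 := by simpa using hz
    have := hol_bound (fun z => fderiv ℂ F z v) hg z (1 / 4) (5 * ‖v‖) (by norm_num)
      (by positivity) (fun w hw => by
        rw [dist_eq_norm] at hw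
        have h3 : ‖w‖ ≤ ‖w - z‖ + ‖z‖ := by simpa using norm_add_le (w - z) z
        exact ContinuousLinearMap.le_of_opNorm_le _ (h1 w (by linarith)) v)
    linarith
  have h3 := (convex_closedBall (0 : E) (1 / 2)).norm_image_sub_le_of_norm_fderiv_le
    (𝕜 := ℂ) (f := fun z => fderiv ℂ F z v) (C := 20 * ‖v‖) (x := 0) (y := x)
    (fun z _ => hg z) h2 (by simp) (by simpa using hx)
  rw [sub_zero] at h3
  rw [sub_apply]
  have : 0 ≤ ‖v‖ * ‖x‖ := by positivity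
  nlinarith

theorem linear_part (f : E ≃ E) (hf : IsAut f) (C D : ℝ)
    (hb : ∀ z : E, ‖z‖ < 1 → C * ‖z‖ ≤ ‖f z‖ ∧ ‖f z‖ ≤ D * ‖z‖) :
    ∃ A : E ≃L[ℂ] E, (A : E →L[ℂ] E) = fderiv ℂ f 0 ∧ (∀ x, C * ‖x‖ ≤ ‖A x‖) ∧
      (∀ x, ‖A x‖ ≤ D * ‖x‖) := by
  have h0 : f 0 = 0 := by
    have := (hb 0 (by simp)).2
    rw [norm_zero, mul_zero] at this
    exact norm_le_zero_iff.1 this
  have h0' : f.symm 0 = 0 := by rw [Equiv.symm_apply_eq, h0]
  have d1 : HasFDerivAt f (fderiv ℂ f 0) 0 := (hf.1 0).hasFDerivAt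
  have d2 : HasFDerivAt f.symm (fderiv ℂ f.symm 0) 0 := (hf.2 0).hasFDerivAt
  have c1 : (fderiv ℂ f.symm 0).comp (fderiv ℂ f 0) = ContinuousLinearMap.id ℂ E := by
    have h := HasFDerivAt.comp (0 : E) (f := f) (g := f.symm) (by rw [h0]; exact d2) d1
    have e : (f.symm ∘ f : E → E) = id := by funext x; simp
    rw [e] at h
    exact h.unique (hasFDerivAt_id 0)
  have c2 : (fderiv ℂ f 0).comp (fderiv ℂ f.symm 0) = ContinuousLinearMap.id ℂ E := by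
    have h := HasFDerivAt.comp (0 : E) (f := f.symm) (g := f) (by rw [h0']; exact d1) d2
    have e : (f ∘ f.symm : E → E) = id := by funext x; simp
    rw [e] at h
    exact h.unique (hasFDerivAt_id 0)
  set A : E ≃L[ℂ] E := ContinuousLinearEquiv.equivOfInverse (fderiv ℂ f 0) (fderiv ℂ f.symm 0)
    (fun x => by
      have := congrArg (fun L : E →L[ℂ] E => L x) c1
      simpa using this)
    (fun x => by
      have := congrArg (fun L : E →L[ℂ] E => L x) c2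
      simpa using this) with hA
  have hAx : ∀ x, A x = fderiv ℂ f 0 x := fun x => rfl
  have hlim : ∀ x : E, Tendsto (fun ζ : ℂ => ‖ζ⁻¹ • f (ζ • x)‖) (𝓝[≠] 0) (𝓝 ‖A x‖) := by
    intro x
    have h1 := tay_line f hf.1 0 x 0
    rw [hasDerivAt_iff_tendsto_slope_zero] at h1
    simp only [zero_smul, add_zero, zero_add, h0, sub_zero] at h1
    exact h1.norm
  have hev : ∀ x : E, ∀ᶠ ζ : ℂ in 𝓝[≠] 0, ζ ≠ 0 ∧ ‖ζ • x‖ < 1 := by
    intro x
    have hc : Tendsto (fun ζ : ℂ => ‖ζ • x‖) (𝓝[≠] 0) (𝓝 0) := by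
      have : Continuous (fun ζ : ℂ => ‖ζ • x‖) := by fun_prop
      have h2 := this.tendsto (0 : ℂ)
      rw [zero_smul, norm_zero] at h2
      exact h2.mono_left nhdsWithin_le_nhds
    filter_upwards [self_mem_nhdsWithin, hc.eventually (gt_mem_nhds one_pos)] with ζ h1 h2
    exact ⟨h1, h2⟩
  refine ⟨A, rfl, fun x => ?_, fun x => ?_⟩
  · refine ge_of_tendsto (hlim x) ?_
    filter_upwards [hev x] with ζ hζ
    obtain ⟨hζ0, hζ1⟩ := hζ
    have hp : 0 < ‖ζ‖ := norm_pos_iff.2 hζ0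
    have := (hb _ hζ1).1
    rw [norm_smul] at this
    rw [norm_smul, norm_inv, inv_mul_eq_div, le_div_iff₀ hp]
    linarith
  · refine le_of_tendsto (hlim x) ?_
    filter_upwards [hev x] with ζ hζ
    obtain ⟨hζ0, hζ1⟩ := hζ
    have hp : 0 < ‖ζ‖ := norm_pos_iff.2 hζ0
    have := (hb _ hζ1).2
    rw [norm_smul] at this
    rw [norm_smul, norm_inv, inv_mul_eq_div, div_le_iff₀ hp]
    linarith

end Pool.Agent.Lib.MP_bdb4fe_an.G3
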