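import Pool.Agent.Lib.MP_bdb4fe_an.G3.Defs

/-!
Module WDG (45 min). Elementary algebra of the area form `wd` on `ℂ²`.

PROOF. `wd x y = x 0 * y 1 - x 1 * y 0`; `‖x‖² = ‖x 0‖² + ‖x 1‖²` (`EuclideanSpace.norm_sq_eq`,
`Fin.sum_univ_two`). `norm_wd_le`: `‖x0 y1 - x1 y0‖ ≤ ‖x0‖‖y1‖ + ‖x1‖‖y0‖ ≤ ‖x‖‖y‖` (Cauchy-Schwarz,
square and use `(ac' - bd')² ≥ 0`). `perp`: direct. `wd_map`: expand
`x = x 0 • single 0 1 + x 1 • single 1 1`. `norm_dt_ge`: let `x` be arbitrary with `A x ≠ 0` (else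
trivial), `u = A x / ‖A x‖`, `y = A.symm (perp u)`: `‖A x‖ = ‖wd (A x) (A y)‖ = ‖dt A‖ ‖wd x y‖ ≤
‖dt A‖ ‖x‖ ‖y‖` and `C ‖y‖ ≤ ‖A y‖ = 1`; so `C ‖A x‖ ≤ ‖dt A‖ ‖x‖` for all `x`, i.e.
`‖A‖ ≤ ‖dt A‖ / C` (`ContinuousLinearMap.opNorm_le_bound`). `norm_dt_mul_le`: with `m = perp n`,
`‖n‖² ‖dt A‖ = ‖dt A‖ ‖wd n (perp n)‖ = ‖wd (A n) (A (perp n))‖ ≤ ‖A n‖ ‖A‖ ‖n‖`. `norm_dt_le`:
`‖dt A‖ ≤ ‖A e0‖ ‖A e1‖ ≤ ‖A‖²`.
-/

set_option autoImplicit false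

namespace Pool.Agent.Lib.MP_bdb4fe_an.G3

open Filter Topology Metric Set

theorem wd_add_left (x y z : E) : wd (x + y) z = wd x z + wd y z := by
  simp only [wd, PiLp.add_apply]; ring

theorem wd_add_right (x y z : E) : wd x (y + z) = wd x y + wd x z := by
  simp only [wd, PiLp.add_apply]; ring

theorem wd_sub_left (x y z : E) : wd (x - y) z = wd x z - wd y z := by
  simp only [wd, PiLp.sub_apply]; ring

theorem wd_sub_right (x y z : E) : wd x (y - z) = wd x y - wd x z := by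
  simp only [wd, PiLp.sub_apply]; ring

theorem wd_smul_left (a : ℂ) (x y : E) : wd (a • x) y = a * wd x y := by
  simp only [wd, PiLp.smul_apply, smul_eq_mul]; ring

theorem wd_smul_right (a : ℂ) (x y : E) : wd x (a • y) = a * wd x y := by
  simp only [wd, PiLp.smul_apply, smul_eq_mul]; ring

theorem wd_self (x : E) : wd x x = 0 := by
  simp only [wd]; ring

theorem wd_swap (x y : E) : wd y x = -wd x y := by
  simp only [wd]; ring

theorem wdg_norm_sq (x : E) : ‖x‖ ^ 2 = ‖x 0‖ ^ 2 + ‖x 1‖ ^ 2 := by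
  rw [EuclideanSpace.norm_sq_eq, Fin.sum_univ_two]

theorem norm_wd_le (x y : E) : ‖wd x y‖ ≤ ‖x‖ * ‖y‖ := by
  have h1 : ‖wd x y‖ ≤ ‖x 0‖ * ‖y 1‖ + ‖x 1‖ * ‖y 0‖ := by
    unfold wd
    calc ‖x 0 * y 1 - x 1 * y 0‖ ≤ ‖x 0 * y 1‖ + ‖x 1 * y 0‖ := norm_sub_le _ _
      _ = _ := by rw [norm_mul, norm_mul]
  refine h1.trans (abs_le_of_sq_le_sq' ?_ (by positivity)).2
  rw [mul_pow, wdg_norm_sq, wdg_norm_sq]
  nlinarith [sq_nonneg (‖x 0‖ * ‖y 0‖ - ‖x 1‖ * ‖y 1‖)]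

theorem norm_perp (e : E) : ‖perp e‖ = ‖e‖ := by
  have h : ‖perp e‖ ^ 2 = ‖e‖ ^ 2 := by
    rw [wdg_norm_sq, wdg_norm_sq]
    simp [perp]
    ring
  exact (sq_eq_sq₀ (norm_nonneg _) (norm_nonneg _)).1 h

theorem wd_perp (e : E) : wd e (perp e) = ((‖e‖ ^ 2 : ℝ) : ℂ) := by
  rw [wdg_norm_sq]
  simp only [wd, perp, Matrix.cons_val_zero, Matrix.cons_val_one]
  push_cast
  rw [← Complex.mul_conj', ← Complex.mul_conj']
  ring

theorem perp_decomp (e x : E) (he : ‖e‖ = 1) : x = wd x (perp e) • e + wd e x • perp e := by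
  have h := wdg_norm_sq e
  rw [he] at h
  have h2 : (e 0) * (starRingEnd ℂ) (e 0) + (e 1) * (starRingEnd ℂ) (e 1) = 1 := by
    rw [Complex.mul_conj', Complex.mul_conj']
    have : ((‖e 0‖ ^ 2 + ‖e 1‖ ^ 2 : ℝ) : ℂ) = ((1 ^ 2 : ℝ) : ℂ) := by rw [← h]
    push_cast at this
    rw [this]
    norm_num
  ext i
  fin_cases i
  · simp only [wd, perp, PiLp.add_apply, PiLp.smul_apply, smul_eq_mul, Fin.zero_eta,
      Matrix.cons_val_zero, Matrix.cons_val_one]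
    linear_combination (- x 0) * h2
  · simp only [wd, perp, PiLp.add_apply, PiLp.smul_apply, smul_eq_mul, Fin.mk_one,
      Matrix.cons_val_zero, Matrix.cons_val_one]
    linear_combination (- x 1) * h2

theorem wdg_expand (x : E) :
    x = x 0 • EuclideanSpace.single 0 (1 : ℂ) + x 1 • EuclideanSpace.single 1 (1 : ℂ) := by
  ext i
  fin_cases i <;> simp

theorem wd_map (A : E →L[ℂ] E) (x y : E) : wd (A x) (A y) = dt A * wd x y := by
  have hx : A x = x 0 • A (EuclideanSpace.single 0 (1 : ℂ)) +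
      x 1 • A (EuclideanSpace.single 1 (1 : ℂ)) := by
    conv_lhs => rw [wdg_expand x]
    rw [map_add, map_smul, map_smul]
  have hy : A y = y 0 • A (EuclideanSpace.single 0 (1 : ℂ)) +
      y 1 • A (EuclideanSpace.single 1 (1 : ℂ)) := by
    conv_lhs => rw [wdg_expand y]
    rw [map_add, map_smul, map_smul]
  rw [hx, hy]
  simp only [dt, wd, PiLp.add_apply, PiLp.smul_apply, smul_eq_mul]
  ring

theorem dt_comp (A B : E →L[ℂ] E) : dt (A.comp B) = dt A * dt B := by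
  have h : dt (A.comp B) = wd (A (B (EuclideanSpace.single 0 1)))
      (A (B (EuclideanSpace.single 1 1))) := rfl
  rw [h, wd_map]
  rfl

theorem norm_dt_ge (A : E ≃L[ℂ] E) (C : ℝ) (hC : 0 < C) (h : ∀ x, C * ‖x‖ ≤ ‖A x‖) :
    C * ‖(A : E →L[ℂ] E)‖ ≤ ‖dt (A : E →L[ℂ] E)‖ := by
  have key : ∀ x, C * ‖A x‖ ≤ ‖dt (A : E →L[ℂ] E)‖ * ‖x‖ := by
    intro x
    by_cases h0 : A x = 0
    · rw [h0, norm_zero, mul_zero]
      positivity
    · have hn : 0 < ‖A x‖ := norm_pos_iff.2 h0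
      set y := A.symm (perp (A x)) with hy
      have hAy : A y = perp (A x) := by rw [hy]; simp
      have h1 : wd (A x) (A y) = ((‖A x‖ ^ 2 : ℝ) : ℂ) := by rw [hAy, wd_perp]
      have h2 : wd (A x) (A y) = dt (A : E →L[ℂ] E) * wd x y := wd_map (A : E →L[ℂ] E) x y
      have h3 : ‖A x‖ ^ 2 ≤ ‖dt (A : E →L[ℂ] E)‖ * (‖x‖ * ‖y‖) := by
        have : ‖wd (A x) (A y)‖ = ‖A x‖ ^ 2 := by
          rw [h1, Complex.norm_real, Real.norm_eq_abs, abs_of_nonneg (by positivity)]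
        rw [← this, h2, norm_mul]
        exact mul_le_mul_of_nonneg_left (norm_wd_le _ _) (norm_nonneg _)
      have h4 : C * ‖y‖ ≤ ‖A x‖ := by
        have := h y
        rwa [hAy, norm_perp] at this
      have h5 : C * ‖A x‖ * ‖A x‖ ≤ ‖dt (A : E →L[ℂ] E)‖ * ‖x‖ * ‖A x‖ := by
        calc C * ‖A x‖ * ‖A x‖ = C * ‖A x‖ ^ 2 := by ring
          _ ≤ C * (‖dt (A : E →L[ℂ] E)‖ * (‖x‖ * ‖y‖)) := mul_le_mul_of_nonneg_left h3 hC.le
          _ = ‖dt (A : E →L[ℂ] E)‖ * ‖x‖ * (C * ‖y‖) := by ring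
          _ ≤ ‖dt (A : E →L[ℂ] E)‖ * ‖x‖ * ‖A x‖ :=
            mul_le_mul_of_nonneg_left h4 (by positivity)
      exact le_of_mul_le_mul_right h5 hn
  have h6 : ‖(A : E →L[ℂ] E)‖ ≤ ‖dt (A : E →L[ℂ] E)‖ / C := by
    refine ContinuousLinearMap.opNorm_le_bound _ (by positivity) (fun x => ?_)
    rw [div_mul_eq_mul_div, le_div_iff₀ hC, mul_comm]
    exact key x
  calc C * ‖(A : E →L[ℂ] E)‖ ≤ C * (‖dt (A : E →L[ℂ] E)‖ / C) :=
        mul_le_mul_of_nonneg_left h6 hC.le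
    _ = _ := by field_simp

theorem norm_dt_mul_le (A : E →L[ℂ] E) (n : E) : ‖dt A‖ * ‖n‖ ≤ ‖A‖ * ‖A n‖ := by
  by_cases hn : ‖n‖ = 0
  · rw [hn, mul_zero]; positivity
  have hp : 0 < ‖n‖ := lt_of_le_of_ne (norm_nonneg _) (Ne.symm hn)
  have h1 : ‖wd (A n) (A (perp n))‖ = ‖dt A‖ * ‖n‖ ^ 2 := by
    rw [wd_map, norm_mul, wd_perp, Complex.norm_real, Real.norm_eq_abs,
      abs_of_nonneg (by positivity)]
  have h2 : ‖wd (A n) (A (perp n))‖ ≤ ‖A n‖ * (‖A‖ * ‖n‖) := by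
    refine (norm_wd_le _ _).trans (mul_le_mul_of_nonneg_left ?_ (norm_nonneg _))
    have := A.le_opNorm (perp n)
    rwa [norm_perp] at this
  rw [h1] at h2
  have h3 : ‖dt A‖ * ‖n‖ * ‖n‖ ≤ ‖A‖ * ‖A n‖ * ‖n‖ := by nlinarith
  exact le_of_mul_le_mul_right h3 hp

theorem wdg_norm_e (i : Fin 2) : ‖EuclideanSpace.single i (1 : ℂ)‖ = 1 := by
  simp

theorem norm_dt_le (A : E →L[ℂ] E) : ‖dt A‖ ≤ ‖A‖ ^ 2 := by
  have h := norm_dt_mul_le A (EuclideanSpace.single 0 1)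
  rw [wdg_norm_e, mul_one] at h
  refine h.trans ?_
  rw [sq]
  refine mul_le_mul_of_nonneg_left ?_ (norm_nonneg _)
  have := A.le_opNorm (EuclideanSpace.single 0 1)
  rwa [wdg_norm_e, mul_one] at this

/-- the determinant is Lipschitz on bounded sets -/
theorem norm_dt_sub_le (A B : E →L[ℂ] E) : ‖dt A - dt B‖ ≤ (‖A‖ + ‖B‖) * ‖A - B‖ := by
  have h : dt A - dt B = wd (A (EuclideanSpace.single 0 1)) ((A - B) (EuclideanSpace.single 1 1)) +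
      wd ((A - B) (EuclideanSpace.single 0 1)) (B (EuclideanSpace.single 1 1)) := by
    simp only [dt, ContinuousLinearMap.sub_apply, wd_sub_left, wd_sub_right]
    ring
  rw [h]
  have hb : ∀ (T : E →L[ℂ] E) (i : Fin 2), ‖T (EuclideanSpace.single i 1)‖ ≤ ‖T‖ := by
    intro T i
    have := T.le_opNorm (EuclideanSpace.single i 1)
    rwa [wdg_norm_e, mul_one] at this
  refine (norm_add_le _ _).trans ?_
  have h1 := norm_wd_le (A (EuclideanSpace.single 0 1)) ((A - B) (EuclideanSpace.single 1 1))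
  have h2 := norm_wd_le ((A - B) (EuclideanSpace.single 0 1)) (B (EuclideanSpace.single 1 1))
  have h3 : ‖A (EuclideanSpace.single 0 1)‖ * ‖(A - B) (EuclideanSpace.single 1 1)‖ ≤
      ‖A‖ * ‖A - B‖ := mul_le_mul (hb A 0) (hb (A - B) 1) (norm_nonneg _) (norm_nonneg _)
  have h4 : ‖(A - B) (EuclideanSpace.single 0 1)‖ * ‖B (EuclideanSpace.single 1 1)‖ ≤
      ‖A - B‖ * ‖B‖ := mul_le_mul (hb (A - B) 0) (hb B 1) (norm_nonneg _) (norm_nonneg _)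
  nlinarith

end Pool.Agent.Lib.MP_bdb4fe_an.G3
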